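import Pool.Agent.U555.VM.Loc
import Pool.Agent.R276.CP.Stm

/-!
# Finite rank perturbations: the abstract theorem on local spectra
-/

set_option autoImplicit false

open MeasureTheory Set Filter Topology Metric
open scoped ENNReal
open Pool.Agent.N812.IS (An An_sub exists_mult)
open Pool.Agent.R277.SP (LocV pow_of_rec)
open Pool.Agent.R276.CP (lm)

namespace Pool.Agent.U555.VM

section vec

variable {E : Type} [NormedAddCommGroup E] [NormedSpace ℂ E]

/-- vectors with a small local spectrum from a family of averages -/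
theorem vec_abs (T : E →L[ℂ] E) (W : ℂ → ℝ) (hWm : Measurable W) (hW1 : ∀ z, 1 ≤ W z)
    (hWl : ∀ (c : ℂ) (ρ : ℝ), 0 < ρ →
      ∫⁻ z in closedBall c ρ, ENNReal.ofReal (Real.log (W z)) ≠ ∞)
    (w : E) (Y : (ℂ → ℂ) → E)
    (heqn : ∀ (c : ℂ) (ρ C : ℝ) (h : ℂ → ℂ), 0 ≤ ρ → Adm W c ρ C h →
      T (Y h) - c • Y h = Y (fun z => (z - c) * h z) - (∫ z, h z) • w)
    (hbdd : ∀ (c : ℂ) (ρ : ℝ), 0 ≤ ρ → ∃ B : ℝ, ∀ (C : ℝ) (h : ℂ → ℂ), Adm W c ρ C h →
      ‖Y h‖ ≤ C * B)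
    (c : ℂ) (hu : ∀ x : E, T x - c • x ≠ w) (ρ : ℝ) (hρ : 0 < ρ) :
    ∃ (x : E) (C : ℝ), x ≠ 0 ∧ ∀ n : ℕ, ‖((T - c • (1 : E →L[ℂ] E)) ^ n) x‖ ≤ C * ρ ^ n := by
  obtain ⟨g, g1, g2, g3, g4, g5⟩ := exists_mult W c ρ hρ hWm hW1 (hWl c ρ hρ)
  have hW0 : ∀ z, 0 ≤ W z := fun z => zero_le_one.trans (hW1 z)
  have H0 : Adm W c ρ 1 g := ⟨g1, g2, fun z hz => g3 z fun h => hz (An_sub c ρ h)⟩
  have H : ∀ n : ℕ, Adm W c ρ (ρ ^ n) (fun z => (z - c) ^ n * g z) := by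
    intro n
    induction n with
    | zero => simpa using H0
    | succ n ih =>
      have h1 := ih.mulz hρ.le hW0
      have h2 : (fun z => (z - c) * ((z - c) ^ n * g z)) = fun z => (z - c) ^ (n + 1) * g z := by
        ext z
        ring
      rw [h2] at h1
      rw [pow_succ']
      exact h1
  have Hm : Adm W c ρ (2 / ρ) (fun z => (z - c)⁻¹ * g z) := by
    refine ⟨(measurable_id.sub_const c).inv.mul g1, fun z => ?_, fun z hz => ?_⟩
    · by_cases hz : z ∈ An c ρ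
      · have h1 : ρ / 2 < ‖z - c‖ := hz.1
        have h2 : ‖z - c‖⁻¹ ≤ 2 / ρ := by
          rw [inv_le_comm₀ (by linarith) (by positivity), inv_div]
          exact h1.le
        rw [norm_mul, norm_inv, mul_assoc]
        calc ‖z - c‖⁻¹ * (‖g z‖ * W z) ≤ (2 / ρ) * 1 :=
              mul_le_mul h2 (g2 z) (mul_nonneg (norm_nonneg _) (hW0 z)) (by positivity)
          _ = 2 / ρ := mul_one _
      · rw [g3 z hz, mul_zero, norm_zero, zero_mul]
        positivity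
    · show (z - c)⁻¹ * g z = 0
      rw [g3 z fun h => hz (An_sub c ρ h), mul_zero]
  have hrec : ∀ n : ℕ, T (Y (fun z => (z - c) ^ n * g z)) -
      c • Y (fun z => (z - c) ^ n * g z) = Y (fun z => (z - c) ^ (n + 1) * g z) := by
    intro n
    have h1 := heqn c ρ _ _ hρ.le (H n)
    rw [g4 n, zero_smul, sub_zero] at h1
    rw [h1]
    congr 1
    ext z
    ring
  obtain ⟨B, hB⟩ := hbdd c ρ hρ.le
  refine ⟨Y (fun z => (z - c) ^ 0 * g z), B, ?_, fun n => ?_⟩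
  · intro h0
    have h1 := heqn c ρ _ _ hρ.le Hm
    have h2 : (fun z => (z - c) * ((z - c)⁻¹ * g z)) = fun z => (z - c) ^ 0 * g z := by
      ext z
      by_cases hz : z ∈ An c ρ
      · have h3 : z - c ≠ 0 := by
          intro h4
          have h5 : ρ / 2 < ‖z - c‖ := hz.1
          rw [h4, norm_zero] at h5
          linarith
        rw [pow_zero, one_mul, mul_inv_cancel_left₀ h3]
      · rw [g3 z hz]
        simp
    rw [h2, h0, zero_sub] at h1
    refine hu ((-(∫ z, (z - c)⁻¹ * g z)⁻¹) • Y (fun z => (z - c)⁻¹ * g z)) ?_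
    rw [map_smul, smul_comm c, ← smul_sub, h1, neg_smul, smul_neg, neg_neg,
      smul_smul, inv_mul_cancel₀ g5, one_smul]
  · rw [pow_of_rec (X := fun n => Y (fun z => (z - c) ^ n * g z)) hrec n, mul_comm]
    exact hB _ _ (H n)

end vec

section pert

variable {E : Type} [NormedAddCommGroup E] [NormedSpace ℂ E] {m : ℕ}

/-- averages of the local resolvent of `u`, and the values of the functionals `v i` on them -/
structure Bas (T₀ : E →L[ℂ] E) (v : Fin m → (E →L[ℂ] ℂ)) (u : E) (W : ℂ → ℝ)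
    (X : (ℂ → ℂ) → E) (f : Fin m → ℂ → ℂ) : Prop where
  Wm : Measurable W
  W1 : ∀ z, 1 ≤ W z
  Wl : ∀ (c : ℂ) (ρ : ℝ), 0 < ρ → ∫⁻ z in closedBall c ρ, ENNReal.ofReal (Real.log (W z)) ≠ ∞
  fm : ∀ i, Measurable (f i)
  fW : ∀ i z, ‖f i z‖ ≤ W z
  eqn : ∀ (c : ℂ) (ρ C : ℝ) (h : ℂ → ℂ), 0 ≤ ρ → Adm W c ρ C h →
      T₀ (X h) - c • X h = X (fun z => (z - c) * h z) - (∫ z, h z) • u
  bdd : ∀ (c : ℂ) (ρ : ℝ), 0 ≤ ρ → ∃ B : ℝ, ∀ (C : ℝ) (h : ℂ → ℂ), Adm W c ρ C h → ‖X h‖ ≤ C * B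
  pair : ∀ (c : ℂ) (ρ C : ℝ) (h : ℂ → ℂ), 0 ≤ ρ → Adm W c ρ C h → ∀ i, v i (X h) = ∫ z, h z * f i z

theorem adm_int {W : ℂ → ℝ} {c : ℂ} {ρ C : ℝ} {h f : ℂ → ℂ} (H : Adm W c ρ C h)
    (hf : Measurable f) (hfW : ∀ z, ‖f z‖ ≤ W z) : Integrable fun z => h z * f z := by
  have h1 : IntegrableOn (fun z => h z * f z) (closedBall c ρ) := by
    refine Measure.integrableOn_of_bounded (M := C) measure_closedBall_lt_top.ne
      (H.meas.mul hf).aestronglyMeasurable ?_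
    refine Eventually.of_forall fun z => ?_
    rw [norm_mul]
    exact (mul_le_mul_of_nonneg_left (hfW z) (norm_nonneg _)).trans (H.bd z)
  exact (integrableOn_iff_integrable_of_support_subset fun z hz => by
    by_contra hcon
    exact hz (by show h z * f z = 0; rw [H.supp z hcon, zero_mul])).1 h1

theorem adm_mono {W W' : ℂ → ℝ} {c : ℂ} {ρ C : ℝ} {h : ℂ → ℂ} (H : Adm W' c ρ C h)
    (hW : ∀ z, W z ≤ W' z) : Adm W c ρ C h :=
  ⟨H.meas, fun z => (mul_le_mul_of_nonneg_left (hW z) (norm_nonneg _)).trans (H.bd z), H.supp⟩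

theorem adm_mul {W W' : ℂ → ℝ} {c : ℂ} {ρ C : ℝ} {h s : ℂ → ℂ} (H : Adm W' c ρ C h)
    (hs : Measurable s) (hW : ∀ z, ‖s z‖ * W z ≤ W' z) : Adm W c ρ C (fun z => h z * s z) := by
  refine ⟨H.meas.mul hs, fun z => ?_, fun z hz => ?_⟩
  · rw [norm_mul, mul_assoc]
    exact (mul_le_mul_of_nonneg_left (hW z) (norm_nonneg _)).trans (H.bd z)
  · show h z * s z = 0
    rw [H.supp z hz, zero_mul]

/-- the equation of the perturbed averages -/
theorem pert_eqn (T₀ T : E →L[ℂ] E) (v : Fin m → (E →L[ℂ] ℂ)) (u : Fin m → E) (κ : ℂ)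
    (hT : ∀ x, T x = T₀ x + κ • ∑ j, v j x • u j)
    (W : Fin m → ℂ → ℝ) (X : Fin m → (ℂ → ℂ) → E) (f : Fin m → Fin m → ℂ → ℂ)
    (hB : ∀ j, Bas T₀ v (u j) (W j) (X j) (f j))
    (w : E) (Ww : ℂ → ℝ) (Xw : (ℂ → ℂ) → E) (fw : Fin m → ℂ → ℂ) (hw : Bas T₀ v w Ww Xw fw)
    (s : Fin m → ℂ → ℂ) (hsm : ∀ j, Measurable (s j))
    (hs : ∀ i, ∀ᵐ z : ℂ, s i z = fw i z + κ * ∑ j, f j i z * s j z)
    (W' : ℂ → ℝ) (hW'w : ∀ z, Ww z ≤ W' z) (hW's : ∀ j z, ‖s j z‖ * W j z ≤ W' z)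
    (c : ℂ) (ρ C : ℝ) (h : ℂ → ℂ) (hρ : 0 ≤ ρ) (H : Adm W' c ρ C h) :
    T (Xw h + κ • ∑ j, X j (fun z => h z * s j z)) -
      c • (Xw h + κ • ∑ j, X j (fun z => h z * s j z)) =
    (Xw (fun z => (z - c) * h z) + κ • ∑ j, X j (fun z => ((z - c) * h z) * s j z)) -
      (∫ z, h z) • w := by
  have H1 := adm_mono H hW'w
  have H2 : ∀ j, Adm (W j) c ρ C (fun z => h z * s j z) := fun j =>
    adm_mul H (hsm j) (hW's j)
  have e1 := hw.eqn c ρ C h hρ H1
  have e2 : ∀ j, T₀ (X j (fun z => h z * s j z)) - c • X j (fun z => h z * s j z) =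
      X j (fun z => ((z - c) * h z) * s j z) - (∫ z, h z * s j z) • u j := by
    intro j
    have := (hB j).eqn c ρ C _ hρ (H2 j)
    simp only [mul_assoc] at this ⊢
    exact this
  have hint1 : ∀ i, Integrable fun z => h z * fw i z := fun i => adm_int H1 (hw.fm i) (hw.fW i)
  have hint2 : ∀ i j, Integrable fun z => h z * s j z * f j i z := fun i j =>
    adm_int (H2 j) ((hB j).fm i) ((hB j).fW i)
  have e3 : ∀ i, v i (Xw h + κ • ∑ j, X j (fun z => h z * s j z)) = ∫ z, h z * s i z := by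
    intro i
    rw [map_add, map_smul, map_sum, hw.pair c ρ C h hρ H1 i]
    have h1 : ∀ j, v i (X j (fun z => h z * s j z)) = ∫ z, h z * s j z * f j i z := fun j =>
      (hB j).pair c ρ C _ hρ (H2 j) i
    simp only [h1]
    rw [← integral_finsetSum _ fun j _ => hint2 i j, smul_eq_mul, ← integral_const_mul,
      ← integral_add (hint1 i) ((integrable_finsetSum _ fun j _ => hint2 i j).const_mul κ)]
    refine integral_congr_ae ?_
    filter_upwards [hs i] with z hz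
    have h2 : ∑ j, h z * s j z * f j i z = h z * ∑ j, f j i z * s j z := by
      rw [Finset.mul_sum]
      exact Finset.sum_congr rfl fun j _ => by ring
    rw [hz, h2]
    ring
  rw [hT]
  simp only [e3]
  rw [map_add, map_smul, map_sum, smul_add, smul_comm c κ, Finset.smul_sum (r := c)]
  have e4 : κ • ∑ j, T₀ (X j (fun z => h z * s j z)) - κ • ∑ j, c • X j (fun z => h z * s j z) =
      κ • ∑ j, X j (fun z => ((z - c) * h z) * s j z) - κ • ∑ j, (∫ z, h z * s j z) • u j := by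
    rw [← smul_sub, ← smul_sub, ← Finset.sum_sub_distrib, ← Finset.sum_sub_distrib]
    simp only [e2]
  have e5 : T₀ (Xw h) + κ • ∑ j, T₀ (X j (fun z => h z * s j z)) +
      κ • ∑ j, (∫ z, h z * s j z) • u j - (c • Xw h + κ • ∑ j, c • X j (fun z => h z * s j z)) =
      (T₀ (Xw h) - c • Xw h) + (κ • ∑ j, T₀ (X j (fun z => h z * s j z)) -
        κ • ∑ j, c • X j (fun z => h z * s j z)) + κ • ∑ j, (∫ z, h z * s j z) • u j := by abel
  rw [e5, e1, e4]
  abel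

end pert

end Pool.Agent.U555.VM
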