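import Pool.Agent.U555.VM.Spec

/-!
# The last time at which an isolated value of the symbol is taken
-/

set_option autoImplicit false

open MeasureTheory Set Filter Topology
open scoped ENNReal

namespace Pool.Agent.U555.VM

variable {Ω : Type} [MeasurableSpace Ω] {μ ν : Measure Ω} {τ : Ω → ℝ} {p q : ℝ≥0∞}

theorem atoms [IsFiniteMeasure ν] (hνμ : ν ≪ μ) (φ : Ω → ℂ) (hφ : Measurable φ)
    (hτ : Measurable τ) (c : ℂ) (ε : ℝ) (hε : 0 < ε) (η : ℝ≥0∞) (hη : 0 < η)
    (hP : ∀ A : Set Ω, MeasurableSet A → A ⊆ {x | ‖φ x - c‖ < ε} → μ A ≠ 0 → η ≤ ν A)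
    (hc : ∀ ε : ℝ, 0 < ε → μ {x | ‖φ x - c‖ < ε} ≠ 0) :
    ∃ (t δ : ℝ), 0 < δ ∧ (∀ᵐ x ∂μ, φ x = c ∨ δ ≤ ‖φ x - c‖) ∧
      μ {x | φ x = c ∧ τ x = t} ≠ 0 ∧ μ {x | φ x = c ∧ t < τ x} = 0 := by
  classical
  have hP' : ∀ A : Set Ω, MeasurableSet A → A ⊆ {x | ‖φ x - c‖ < ε} → ν A < η → μ A = 0 := by
    intro A hA hAs hlt
    by_contra h0
    exact absurd (hP A hA hAs h0) (not_le.2 hlt)
  set D : ℕ → Set Ω := fun n => {x | ‖φ x - c‖ < ε / ((n : ℝ) + 1)} with hD
  set D0 : Set Ω := {x | φ x = c} with hD0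
  have hDm : ∀ n, MeasurableSet (D n) := fun n =>
    measurableSet_lt (hφ.sub_const c).norm measurable_const
  have hD0m : MeasurableSet D0 := hφ (measurableSet_singleton c)
  have hDsub : ∀ n, D n ⊆ {x | ‖φ x - c‖ < ε} := by
    intro n x hx
    have h1 : ‖φ x - c‖ < ε / ((n : ℝ) + 1) := hx
    refine lt_of_lt_of_le h1 (div_le_self hε.le ?_)
    have : (0:ℝ) ≤ n := n.cast_nonneg
    linarith
  have hD0sub : D0 ⊆ {x | ‖φ x - c‖ < ε} := by
    intro x hx
    have h1 : φ x = c := hx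
    show ‖φ x - c‖ < ε
    rw [h1, sub_self, norm_zero]
    exact hε
  have hanti : Antitone D := by
    intro m n hmn x hx
    have h1 : ‖φ x - c‖ < ε / ((n : ℝ) + 1) := hx
    refine lt_of_lt_of_le h1 ?_
    have : (m : ℝ) ≤ n := by exact_mod_cast hmn
    exact div_le_div_of_nonneg_left hε.le (by positivity) (by linarith)
  have hinter : ⋂ n, D n = D0 := by
    ext x
    rw [mem_iInter]
    constructor
    · intro h
      have h1 : ∀ n : ℕ, ‖φ x - c‖ ≤ ε / ((n : ℝ) + 1) := fun n => (h n).le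
      have h2 : Tendsto (fun n : ℕ => ε / ((n : ℝ) + 1)) atTop (𝓝 0) := by
        have := tendsto_one_div_add_atTop_nhds_zero_nat.const_mul ε
        simp only [mul_zero] at this
        refine this.congr fun n => ?_
        ring
      have h3 : ‖φ x - c‖ ≤ 0 := ge_of_tendsto' h2 h1
      exact sub_eq_zero.1 (norm_le_zero_iff.1 h3)
    · intro h n
      have h1 : φ x = c := h
      show ‖φ x - c‖ < ε / ((n : ℝ) + 1)
      rw [h1, sub_self, norm_zero]
      positivity
  have hν1 : ∀ n, η ≤ ν (D n) := fun n => hP (D n) (hDm n) (hDsub n) (hc _ (by positivity))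
  have hν0 : η ≤ ν D0 := by
    have h1 : Tendsto (fun n => ν (D n)) atTop (𝓝 (ν (⋂ n, D n))) :=
      tendsto_measure_iInter_atTop (fun n => (hDm n).nullMeasurableSet) hanti
        ⟨0, measure_ne_top ν _⟩
    rw [hinter] at h1
    exact ge_of_tendsto' h1 hν1
  -- the gap
  obtain ⟨n₀, hn₀⟩ : ∃ n, ν (D n \ D0) < η := by
    have h1 : Tendsto (fun n => ν (D n \ D0)) atTop (𝓝 (ν (⋂ n, D n \ D0))) :=
      tendsto_measure_iInter_atTop (fun n => ((hDm n).diff hD0m).nullMeasurableSet)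
        (fun m n hmn => sdiff_subset_sdiff_left (hanti hmn)) ⟨0, measure_ne_top ν _⟩
    have h2 : ⋂ n, D n \ D0 = ∅ := by
      ext x
      simp only [mem_iInter, mem_empty_iff_false, iff_false]
      intro h
      have h3 : x ∈ ⋂ n, D n := mem_iInter.2 fun n => (h n).1
      rw [hinter] at h3
      exact (h 0).2 h3
    rw [h2, measure_empty] at h1
    exact (h1.eventually (gt_mem_nhds hη)).exists
  have hgap : μ (D n₀ \ D0) = 0 :=
    hP' _ ((hDm n₀).diff hD0m) (sdiff_subset.trans (hDsub n₀)) hn₀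
  -- the times
  set G : ℝ → Set Ω := fun s => D0 ∩ {x | s ≤ τ x} with hG
  have hGm : ∀ s, MeasurableSet (G s) := fun s =>
    hD0m.inter (measurableSet_le measurable_const hτ)
  have hGsub : ∀ s, G s ⊆ {x | ‖φ x - c‖ < ε} := fun s => inter_subset_left.trans hD0sub
  have hGanti : ∀ s t, s ≤ t → G t ⊆ G s := by
    rintro s t hst x ⟨h1, h2⟩
    exact ⟨h1, hst.trans h2⟩
  have hGν : ∀ s, ν (G s) ≠ 0 → η ≤ ν (G s) := by
    intro s hs
    exact hP _ (hGm s) (hGsub s) fun h => hs (hνμ h)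
  set S : Set ℝ := {s | ν (G s) ≠ 0} with hS
  have hSne : S.Nonempty := by
    by_contra hcon
    rw [not_nonempty_iff_eq_empty] at hcon
    have h1 : ∀ s, ν (G s) = 0 := by
      intro s
      by_contra h
      have : s ∈ S := h
      rw [hcon] at this
      exact this
    have h2 : D0 ⊆ ⋃ n : ℕ, G (-(n : ℝ)) := by
      intro x hx
      obtain ⟨n, hn⟩ := exists_nat_gt (-τ x)
      rw [mem_iUnion]
      refine ⟨n, hx, ?_⟩
      show -(n : ℝ) ≤ τ x
      linarith
    have h3 : ν D0 = 0 := measure_mono_null h2 (measure_iUnion_null fun n => h1 _)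
    rw [h3] at hν0
    exact absurd hη (not_lt.2 hν0)
  have hSbdd : BddAbove S := by
    have h1 : Tendsto (fun n : ℕ => ν (G n)) atTop (𝓝 (ν (⋂ n : ℕ, G n))) :=
      tendsto_measure_iInter_atTop (fun n => (hGm n).nullMeasurableSet)
        (fun m n hmn => hGanti _ _ (by exact_mod_cast hmn)) ⟨0, measure_ne_top ν _⟩
    have h2 : ⋂ n : ℕ, G n = ∅ := by
      ext x
      simp only [mem_iInter, mem_empty_iff_false, iff_false, not_forall]
      obtain ⟨n, hn⟩ := exists_nat_gt (τ x)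
      exact ⟨n, fun h => absurd h.2 (not_le.2 hn)⟩
    rw [h2, measure_empty] at h1
    obtain ⟨n, hn⟩ := (h1.eventually (gt_mem_nhds hη)).exists
    refine ⟨n, fun s hs => ?_⟩
    by_contra hcon
    have h3 : ν (G s) ≤ ν (G n) := measure_mono (hGanti _ _ (not_le.1 hcon).le)
    exact absurd (hGν s hs) (not_le.2 (lt_of_le_of_lt h3 hn))
  set t : ℝ := sSup S with ht
  have hbelow : ∀ n : ℕ, η ≤ ν (G (t - 1 / ((n : ℝ) + 1))) := by
    intro n
    have h1 : t - 1 / ((n : ℝ) + 1) < t := by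
      have : (0:ℝ) < 1 / ((n : ℝ) + 1) := by positivity
      linarith
    obtain ⟨s, hs, hs'⟩ := exists_lt_of_lt_csSup hSne h1
    exact (hGν s hs).trans (measure_mono (hGanti _ _ hs'.le))
  have hGt : η ≤ ν (G t) := by
    have h1 : Tendsto (fun n : ℕ => ν (G (t - 1 / ((n : ℝ) + 1)))) atTop
        (𝓝 (ν (⋂ n : ℕ, G (t - 1 / ((n : ℝ) + 1))))) := by
      refine tendsto_measure_iInter_atTop (fun n => (hGm _).nullMeasurableSet)
        (fun m n hmn => hGanti _ _ ?_) ⟨0, measure_ne_top ν _⟩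
      have : (m : ℝ) ≤ n := by exact_mod_cast hmn
      have h2 : 1 / ((n : ℝ) + 1) ≤ 1 / ((m : ℝ) + 1) :=
        one_div_le_one_div_of_le (by positivity) (by linarith)
      linarith
    have h2 : ⋂ n : ℕ, G (t - 1 / ((n : ℝ) + 1)) ⊆ G t := by
      intro x hx
      rw [mem_iInter] at hx
      refine ⟨(hx 0).1, ?_⟩
      have h3 : Tendsto (fun n : ℕ => t - 1 / ((n : ℝ) + 1)) atTop (𝓝 (t - 0)) :=
        tendsto_one_div_add_atTop_nhds_zero_nat.const_sub t
      rw [sub_zero] at h3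
      exact le_of_tendsto' h3 fun n => (hx n).2
    exact (ge_of_tendsto' h1 hbelow).trans (measure_mono h2)
  have habove : μ {x | φ x = c ∧ t < τ x} = 0 := by
    have h1 : {x | φ x = c ∧ t < τ x} ⊆ ⋃ n : ℕ, G (t + 1 / ((n : ℝ) + 1)) := by
      rintro x ⟨h2, h3⟩
      obtain ⟨n, hn⟩ := exists_nat_one_div_lt (sub_pos.2 h3)
      rw [mem_iUnion]
      refine ⟨n, h2, ?_⟩
      show t + 1 / ((n : ℝ) + 1) ≤ τ x
      linarith
    refine measure_mono_null h1 (measure_iUnion_null fun n => ?_)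
    have h2 : t + 1 / ((n : ℝ) + 1) ∉ S := by
      intro h
      have h3 := le_csSup hSbdd h
      have : (0:ℝ) < 1 / ((n : ℝ) + 1) := by positivity
      linarith
    have h3 : ν (G (t + 1 / ((n : ℝ) + 1))) = 0 := by
      by_contra h
      exact h2 h
    exact hP' _ (hGm _) (hGsub _) (by rw [h3]; exact hη)
  refine ⟨t, ε / ((n₀ : ℝ) + 1), by positivity, ?_, ?_, habove⟩
  · have h1 : ∀ᵐ x ∂μ, x ∉ D n₀ \ D0 := measure_eq_zero_iff_ae_notMem.1 hgap
    filter_upwards [h1] with x hx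
    by_cases h2 : φ x = c
    · exact Or.inl h2
    · right
      by_contra h3
      exact hx ⟨not_le.1 h3, h2⟩
  · intro h0
    have h1 : G t ⊆ {x | φ x = c ∧ τ x = t} ∪ {x | φ x = c ∧ t < τ x} := by
      rintro x ⟨h2, h3⟩
      have h3' : t ≤ τ x := h3
      rcases h3'.eq_or_lt with h4 | h4
      · exact Or.inl ⟨h2, h4.symm⟩
      · exact Or.inr ⟨h2, h4⟩
    have h2 : μ (G t) = 0 := measure_mono_null h1 (measure_union_null h0 habove)
    have h3 := hνμ h2
    rw [h3] at hGt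
    exact absurd hη (not_lt.2 hGt)

end Pool.Agent.U555.VM
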