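import Pool.Agent.U555.VM.Gp

/-!
# The base operator: weights
-/

set_option autoImplicit false

open MeasureTheory Set Filter Topology Metric
open scoped ENNReal

namespace Pool.Agent.U555.VM

variable {Ω : Type} [MeasurableSpace Ω] {μ : Measure Ω} {τ : Ω → ℝ} {p q : ℝ≥0∞}
variable {a b : Ω → ℝ} {k : Ω → Ω → ℂ} {φ u v : Ω → ℂ} {m : ℕ}

/-- the weight with the functionals -/
noncomputable def WX (μ : Measure Ω) (φ : Ω → ℂ) (a b : Ω → ℝ) (u : Ω → ℂ) (v : Fin m → Ω → ℂ)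
    (z : ℂ) : ℝ := WW μ φ a b u z * Real.exp (∑ i, VB μ φ a b u (v i) z)

theorem VB_nonneg (z : ℂ) : 0 ≤ VB μ φ a b u v z := by
  unfold VB
  positivity

theorem VB_meas [SFinite μ] (hk : Ker τ a b k) (hφ : Measurable φ) (hu : Measurable u)
    (hv : Measurable v) : Measurable (VB μ φ a b u v) :=
  (VP_meas hφ hv hu.norm).ennreal_toReal.add
    ((VP_meas hφ hv hk.ma).ennreal_toReal.const_mul 2)

theorem VP_ball [SFinite μ] [ENNReal.HolderTriple q p 1] (hφ : Measurable φ)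
    (hv : Measurable v) (hvL : MemLp v q μ) {g : Ω → ℝ} (hgm : Measurable g) (hg0 : ∀ x, 0 ≤ g x)
    (hgL : MemLp g p μ) (c : ℂ) (ρ : ℝ) (hρ : 0 < ρ) :
    ∫⁻ z in closedBall c ρ, VP μ φ v g z < ∞ := by
  have h1 := pot_lt (μ := μ) φ hφ (fun x => ‖v x‖ₑ * ENNReal.ofReal (g x))
    (hv.enorm.mul (ENNReal.measurable_ofReal.comp hgm))
    (lt_of_le_of_lt (vg_le hvL hg0 hgL) (ENNReal.mul_lt_top hvL.2 hgL.2)).ne c (ρ + 1) (by linarith)
  exact lt_of_le_of_lt (lintegral_mono_set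
    (closedBall_subset_ball (by linarith : ρ < ρ + 1))) h1

theorem bas [Fact (1 ≤ p)] [Fact (1 ≤ q)] [SFinite μ] [ENNReal.HolderTriple q p 1]
    (hk : Ker τ a b k) (hφ : Measurable φ) (haL : MemLp a p μ) (hbL : MemLp b q μ)
    (T : Lp ℂ p μ →L[ℂ] Lp ℂ p μ) (hT : KForm μ φ k T) (g : Fin m → Lp ℂ q μ) (u : Lp ℂ p μ) :
    Bas T (fun i => fnl μ p q (g i)) u (WX μ φ a b u (fun i => (g i : Ω → ℂ)))
      (XS μ p φ k u) (fun i => fv μ φ k a b u (g i)) := by
  have huL : MemLp (u : Ω → ℂ) p μ := Lp.memLp u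
  have hum : Measurable (u : Ω → ℂ) := (Lp.stronglyMeasurable u).measurable
  have hvm : ∀ i, Measurable (g i : Ω → ℂ) := fun i => (Lp.stronglyMeasurable (g i)).measurable
  have hvL : ∀ i, MemLp (g i : Ω → ℂ) q μ := fun i => Lp.memLp (g i)
  have L : Dat μ τ p q a b k φ u := ⟨hk, hφ, hum, haL, hbL, huL⟩
  have hcls : cls μ p (u : Ω → ℂ) = u := by
    rw [cls_eq huL]
    exact Lp.toLp_coeFn u huL
  have hS0 : ∀ z, 0 ≤ ∑ i, VB μ φ a b u (g i) z := fun z => Finset.sum_nonneg fun i _ => VB_nonneg z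
  have hWWle : ∀ z, WW μ φ a b u z ≤ WX μ φ a b u (fun i => (g i : Ω → ℂ)) z := by
    intro z
    have h1 : 0 ≤ WW μ φ a b u z := zero_le_one.trans (one_le_WW z)
    exact le_mul_of_one_le_right h1 (Real.one_le_exp (hS0 z))
  refine ⟨?_, fun z => (one_le_WW z).trans (hWWle z), fun c ρ hρ => ?_,
    fun i => fv_meas hk hφ hum (hvm i), fun i z => ?_, fun c ρ C h hρ H => ?_, fun c ρ hρ => ?_,
    fun c ρ C h hρ H i => ?_⟩
  · exact (WW_meas hk.ma hk.mb hφ hum).mul (Real.measurable_exp.comp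
      (Finset.measurable_sum _ fun i _ => VB_meas hk hφ hum (hvm i)))
  · have hpt : ∀ z, ENNReal.ofReal (Real.log (WX μ φ a b u (fun i => (g i : Ω → ℂ)) z)) ≤
        ENNReal.ofReal (Real.log (WW μ φ a b u z)) +
        ∑ i, (VP μ φ (g i) (fun x => ‖u x‖) z + 2 * VP μ φ (g i) a z) := by
      intro z
      have h1 : 0 < WW μ φ a b u z := lt_of_lt_of_le one_pos (one_le_WW z)
      unfold WX
      rw [Real.log_mul h1.ne' (Real.exp_pos _).ne', Real.log_exp,
        ENNReal.ofReal_add (Real.log_nonneg (one_le_WW z)) (hS0 z)]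
      gcongr
      rw [ENNReal.ofReal_sum_of_nonneg fun i _ => VB_nonneg z]
      refine Finset.sum_le_sum fun i _ => ?_
      unfold VB
      rw [ENNReal.ofReal_add ENNReal.toReal_nonneg (by positivity),
        ENNReal.ofReal_mul zero_le_two, ENNReal.ofReal_ofNat]
      gcongr
      · exact ENNReal.ofReal_toReal_le
      · exact ENNReal.ofReal_toReal_le
    refine ne_of_lt (lt_of_le_of_lt (lintegral_mono hpt) ?_)
    have hm1 : Measurable fun z => ENNReal.ofReal (Real.log (WW μ φ a b u z)) :=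
      ENNReal.measurable_ofReal.comp (Real.measurable_log.comp (WW_meas hk.ma hk.mb hφ hum))
    have hm2 : ∀ i, Measurable (VP μ φ (g i) (fun x => ‖u x‖)) := fun i =>
      VP_meas hφ (hvm i) hum.norm
    have hm3 : ∀ i, Measurable (VP μ φ (g i) a) := fun i => VP_meas hφ (hvm i) hk.ma
    have hm4 : ∀ i, Measurable fun z => VP μ φ (g i) (fun x => ‖u x‖) z + 2 * VP μ φ (g i) a z :=
      fun i => (hm2 i).add ((hm3 i).const_mul 2)
    rw [lintegral_add_left hm1, lintegral_finsetSum _ fun i _ => hm4 i]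
    refine ENNReal.add_lt_top.2 ⟨lt_top_iff_ne_top.2 (logW hk hφ hum haL hbL huL c ρ hρ), ?_⟩
    refine ENNReal.sum_lt_top.2 fun i _ => ?_
    rw [lintegral_add_left (hm2 i), lintegral_const_mul _ (hm3 i)]
    exact ENNReal.add_lt_top.2 ⟨VP_ball hφ (hvm i) (hvL i) hum.norm (fun x => norm_nonneg _)
      huL.norm c ρ hρ, ENNReal.mul_lt_top (by norm_num)
      (VP_ball hφ (hvm i) (hvL i) hk.ma hk.a0 haL c ρ hρ)⟩
  · refine (fv_le hk hφ z).trans ?_
    have h1 : 0 ≤ WW μ φ a b u z := zero_le_one.trans (one_le_WW z)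
    unfold WX
    refine mul_le_mul_of_nonneg_left ?_ h1
    have h2 : VB μ φ a b u (g i) z ≤ ∑ i, VB μ φ a b u (g i) z :=
      Finset.single_le_sum (f := fun i => VB μ φ a b u (g i) z) (fun i _ => VB_nonneg z)
        (Finset.mem_univ i)
    have h3 := Real.add_one_le_exp (∑ i, VB μ φ a b u (g i) z)
    linarith
  · have h1 := eqn L hρ (adm_mono H hWWle) T hT
    rw [hcls] at h1
    exact h1
  · exact ⟨PP ρ * ∑' n, gg μ p a u n, fun C h H => XS_norm L hρ (adm_mono H hWWle)⟩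
  · exact pair_S L (g i) hρ (adm_mono H hWWle)

end Pool.Agent.U555.VM
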