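import Pool.Agent.U555.VM.Tr
import Pool.Agent.U555.VM.Atoms
import Pool.Agent.U555.VM.Spec2

/-!
# The values of the symbol are in the spectrum
-/

set_option autoImplicit false

open MeasureTheory Set Filter Topology Metric
open scoped ENNReal

namespace Pool.Agent.U555.VM

variable {Ω : Type} [MeasurableSpace Ω] {μ : Measure Ω} {τ : Ω → ℝ} {p q : ℝ≥0∞}
variable {a b : Ω → ℝ} {k : Ω → Ω → ℂ} {φ : Ω → ℂ}

/-- an isolated value of the symbol, taken for the last time at `t`, is an eigenvalue -/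
theorem eigen_of [Fact (1 ≤ p)] [SigmaFinite μ] [ENNReal.HolderTriple q p 1] (hk : Ker τ a b k)
    (haL : MemLp a p μ) (hbL : MemLp b q μ) (hφ : Measurable φ) (M : ℝ) (hM0 : 0 ≤ M)
    (hM : ∀ᵐ x ∂μ, ‖φ x‖ ≤ M) (T : Lp ℂ p μ →L[ℂ] Lp ℂ p μ) (hT : KForm μ φ k T) (c : ℂ)
    (t δ : ℝ) (hδ : 0 < δ) (hgap : ∀ᵐ x ∂μ, φ x = c ∨ δ ≤ ‖φ x - c‖)
    (h0 : μ {x | φ x = c ∧ τ x = t} ≠ 0) (hlast : μ {x | φ x = c ∧ t < τ x} = 0) :
    c ∈ spectrum ℂ T := by
  classical
  intro hcon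
  have hcon' : IsUnit (algebraMap ℂ (Lp ℂ p μ →L[ℂ] Lp ℂ p μ) c - T) := hcon
  have hDm : MeasurableSet {x | φ x = c ∧ τ x = t} :=
    (hφ (measurableSet_singleton c)).inter (hk.time (measurableSet_singleton t))
  obtain ⟨A, hAm, hAD, hA0, hA1⟩ :=
    Measure.exists_subset_measure_lt_top (μ := μ) hDm (pos_iff_ne_zero.2 h0)
  set f : Lp ℂ p μ := indicatorConstLp p hAm hA1.ne (1 : ℂ) with hf
  have hfx : ∀ᵐ x ∂μ, f x = A.indicator (fun _ => (1 : ℂ)) x := indicatorConstLp_coeFn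
  -- the operator after time `t`
  set φ' : Ω → ℂ := fun x => if t < τ x then φ x else c + 1 with hφ'
  set k' : Ω → Ω → ℂ := fun x y => if t < τ x then k x y else 0 with hk'
  have hτs : MeasurableSet {x | t < τ x} := measurableSet_lt measurable_const hk.time
  have hφ'm : Measurable φ' := Measurable.ite hτs hφ measurable_const
  have hKer' : Ker τ a b k' := by
    refine ⟨hk.time, hk.ma, hk.mb, hk.a0, hk.b0, ?_, fun x y => ?_, fun x y hxy => ?_⟩
    · change Measurable fun w : Ω × Ω => if t < τ w.1 then k w.1 w.2 else 0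
      exact Measurable.ite (measurable_fst hτs) hk.meas measurable_const
    · show ‖if t < τ x then k x y else 0‖ ≤ a x * b y
      split_ifs
      · exact hk.bd x y
      · rw [norm_zero]
        exact mul_nonneg (hk.a0 x) (hk.b0 y)
    · show (if t < τ x then k x y else 0) = 0
      split_ifs
      · exact hk.caus x y hxy
      · rfl
  have hM' : ∀ᵐ x ∂μ, ‖φ' x‖ ≤ M + ‖c + 1‖ := by
    filter_upwards [hM] with x hx
    show ‖if t < τ x then φ x else c + 1‖ ≤ _
    split_ifs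
    · have := norm_nonneg (c + 1)
      linarith
    · linarith
  obtain ⟨T', hT'⟩ := exists_op hKer' haL hbL hφ'm (M + ‖c + 1‖)
    (add_nonneg hM0 (norm_nonneg _)) hM'
  have hlast' : ∀ᵐ x ∂μ, ¬ (φ x = c ∧ t < τ x) := measure_eq_zero_iff_ae_notMem.1 hlast
  have hd : ∀ᵐ x ∂μ, min δ 1 ≤ ‖c - φ' x‖ := by
    filter_upwards [hgap, hlast'] with x h1 h2
    show min δ 1 ≤ ‖c - if t < τ x then φ x else c + 1‖
    split_ifs with h3
    · rcases h1 with h1 | h1
      · exact absurd ⟨h1, h3⟩ h2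
      · rw [norm_sub_rev]
        exact (min_le_left _ _).trans h1
    · have : c - (c + 1) = -1 := by ring
      rw [this, norm_neg, norm_one]
      exact min_le_right _ _
  obtain ⟨hres, -⟩ := resolvent_le hk.time a b hk.ma hk.mb hk.a0 hk.b0 haL hbL φ' hφ'm
    (M + ‖c + 1‖) (add_nonneg hM0 (norm_nonneg _)) hM' T' (causal_of_ker hKer' T' hT') c
    (min δ 1) (lt_min hδ one_pos) hd
  have hres' : IsUnit (algebraMap ℂ (Lp ℂ p μ →L[ℂ] Lp ℂ p μ) c - T') := hres
  rw [ContinuousLinearMap.isUnit_iff_bijective] at hres' hcon'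
  obtain ⟨g, hg⟩ := hres'.2 (T f - c • f)
  have hg' : c • g - T' g = T f - c • f := by
    rw [← hg, Algebra.algebraMap_eq_smul_one]
    rfl
  have hgx : ∀ᵐ x ∂μ, c * g x - (φ' x * g x + ∫ y, k' x y * g y ∂μ) =
      (φ x * f x + ∫ y, k x y * f y ∂μ) - c * f x := by
    filter_upwards [Lp.coeFn_sub (c • g) (T' g), Lp.coeFn_smul c g, hT' g,
      Lp.coeFn_sub (T f) (c • f), Lp.coeFn_smul c f, hT f] with x h1 h2 h3 h4 h5 h6
    rw [hg', h4, Pi.sub_apply, Pi.sub_apply, h6, h5, h2, h3, Pi.smul_apply, Pi.smul_apply,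
      smul_eq_mul, smul_eq_mul] at h1
    exact h1.symm
  -- the kernel on `f`
  have hkf : ∀ x, τ x ≤ t → ∫ y, k x y * f y ∂μ = 0 := by
    intro x hx
    have h1 : ∀ᵐ y ∂μ, k x y * f y = 0 := by
      filter_upwards [hfx] with y hy
      by_cases hyA : y ∈ A
      · have h2 : τ y = t := (hAD hyA).2
        rw [hk.caus x y (by rw [h2]; exact hx), zero_mul]
      · rw [hy, indicator_of_notMem hyA, mul_zero]
    rw [integral_congr_ae h1, integral_zero]
  have hφf : ∀ᵐ x ∂μ, φ x * f x = c * f x := by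
    filter_upwards [hfx] with x hx
    by_cases hxA : x ∈ A
    · rw [(hAD hxA).1]
    · rw [hx, indicator_of_notMem hxA, mul_zero, mul_zero]
  -- `g` vanishes before time `t`
  have hg0 : ∀ᵐ x ∂μ, τ x ≤ t → g x = 0 := by
    filter_upwards [hgx, hφf] with x h1 h2 h3
    have h4 : φ' x = c + 1 := if_neg (not_lt.2 h3)
    have h5 : ∫ y, k' x y * g y ∂μ = 0 := by
      have : ∀ y, k' x y * g y = 0 := by
        intro y
        have h6 : k' x y = 0 := if_neg (not_lt.2 h3)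
        rw [h6, zero_mul]
      simp only [this, integral_zero]
    rw [h4, h5, hkf x h3, h2] at h1
    linear_combination -h1
  have hkg : ∀ x, τ x ≤ t → ∫ y, k x y * g y ∂μ = 0 := by
    intro x hx
    have h1 : ∀ᵐ y ∂μ, k x y * g y = 0 := by
      filter_upwards [hg0] with y hy
      rcases le_or_gt (τ x) (τ y) with h2 | h2
      · rw [hk.caus x y h2, zero_mul]
      · rw [hy (h2.le.trans hx), mul_zero]
    rw [integral_congr_ae h1, integral_zero]
  have heig : T (f + g) = c • (f + g) := by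
    apply Lp.ext
    filter_upwards [hT (f + g), Lp.coeFn_smul c (f + g), Lp.coeFn_add f g, hgx, hg0, hφf, hfx] with
      x h1 h2 h3 h4 h5 h6 h7
    have hsum : ∫ y, k x y * (f + g : Lp ℂ p μ) y ∂μ =
        ∫ y, k x y * f y ∂μ + ∫ y, k x y * g y ∂μ := by
      rw [← integral_add (kint_integrable hk hbL (Lp.memLp f) x)
        (kint_integrable hk hbL (Lp.memLp g) x)]
      refine integral_congr_ae ?_
      filter_upwards [Lp.coeFn_add f g] with y hy
      rw [hy, Pi.add_apply, mul_add]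
    rw [h1, h2, Pi.smul_apply, h3, Pi.add_apply, hsum, smul_eq_mul]
    rcases le_or_gt (τ x) t with h8 | h8
    · rw [hkf x h8, hkg x h8, h5 h8, add_zero, add_zero, add_zero, h6]
    · have h9 : φ' x = φ x := if_pos h8
      have h10 : ∫ y, k' x y * g y ∂μ = ∫ y, k x y * g y ∂μ := by
        refine integral_congr_ae (Eventually.of_forall fun y => ?_)
        have h11 : k' x y = k x y := if_pos h8
        show k' x y * g y = k x y * g y
        rw [h11]
      rw [h9, h10, h6] at h4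
      rw [mul_add, h6]
      linear_combination -h4
  have hne : f + g ≠ 0 := by
    intro h
    apply hA0.ne'
    have h1 : ∀ᵐ x ∂μ, x ∉ A := by
      have h2 : ∀ᵐ x ∂μ, (f + g : Lp ℂ p μ) x = 0 := by
        rw [h]
        exact Lp.coeFn_zero ℂ p μ
      filter_upwards [h2, Lp.coeFn_add f g, hfx, hg0] with x h3 h4 h5 h6 hxA
      have h7 : τ x = t := (hAD hxA).2
      rw [h4, Pi.add_apply, h5, indicator_of_mem hxA, h6 h7.le, add_zero] at h3
      exact one_ne_zero h3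
    exact measure_eq_zero_iff_ae_notMem.2 h1
  apply hne
  apply hcon'.1
  rw [map_zero, Algebra.algebraMap_eq_smul_one]
  show c • (f + g) - T (f + g) = 0
  rw [heig, sub_self]

/-- the essential range of the symbol is in the spectrum -/
theorem ess_spec [Fact (1 ≤ p)] [SigmaFinite μ] [ENNReal.HolderTriple q p 1]
    (hq1 : 1 ≤ q) (hq : q ≠ ∞) (hk : Ker τ a b k)
    (haL : MemLp a p μ) (hbL : MemLp b q μ) (hφ : Measurable φ) (M : ℝ) (hM0 : 0 ≤ M)
    (hM : ∀ᵐ x ∂μ, ‖φ x‖ ≤ M) (T : Lp ℂ p μ →L[ℂ] Lp ℂ p μ) (hT : KForm μ φ k T) (c : ℂ)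
    (hc : ∀ ε : ℝ, 0 < ε → μ {x | ‖φ x - c‖ < ε} ≠ 0) : c ∈ spectrum ℂ T := by
  by_contra hcs
  obtain ⟨ε, hε, η, hη, hA⟩ := lower a b hk.a0 hk.b0 haL hbL φ T (causal_of_ker hk T hT) c hcs
  have hq0 : q ≠ 0 := (lt_of_lt_of_le zero_lt_one hq1).ne'
  have hqr : 0 < q.toReal := ENNReal.toReal_pos hq0 hq
  set ν : Measure Ω := μ.withDensity fun x => ‖b x‖ₑ ^ q.toReal with hν
  have hνA : ∀ A : Set Ω, MeasurableSet A → ν A = eLpNorm (A.indicator b) q μ ^ q.toReal := by
    intro A hAm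
    rw [hν, withDensity_apply _ hAm, eLpNorm_indicator_eq_eLpNorm_restrict hAm,
      eLpNorm_eq_lintegral_rpow_enorm_toReal hq0 hq, ← ENNReal.rpow_mul, one_div,
      inv_mul_cancel₀ hqr.ne', ENNReal.rpow_one]
  have hfin : IsFiniteMeasure ν := by
    refine ⟨?_⟩
    rw [hνA univ MeasurableSet.univ, indicator_univ]
    exact ENNReal.rpow_lt_top_of_nonneg hqr.le hbL.2.ne
  have hνμ : ν ≪ μ := withDensity_absolutelyContinuous _ _
  have hP : ∀ A : Set Ω, MeasurableSet A → A ⊆ {x | ‖φ x - c‖ < ε} → μ A ≠ 0 →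
      ENNReal.ofReal η ^ q.toReal ≤ ν A := by
    intro A hAm hAs hA0
    obtain ⟨B, hBm, hBA, hB0, hB1⟩ :=
      Measure.exists_subset_measure_lt_top (μ := μ) hAm (pos_iff_ne_zero.2 hA0)
    refine le_trans ?_ (measure_mono hBA)
    rw [hνA B hBm]
    exact ENNReal.rpow_le_rpow (hA B hBm (hBA.trans hAs) hB0.ne' hB1.ne).le hqr.le
  obtain ⟨t, δ, hδ, h1, h2, h3⟩ := atoms hνμ φ hφ hk.time c ε hε (ENNReal.ofReal η ^ q.toReal)
    (ENNReal.rpow_pos (ENNReal.ofReal_pos.2 hη) ENNReal.ofReal_ne_top) hP hc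
  exact hcs (eigen_of hk haL hbL hφ M hM0 hM T hT c t δ hδ h1 h2 h3)

end Pool.Agent.U555.VM
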