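import Pool.Agent.U555.VM.Res2
import Pool.Agent.H136R3.Dom
import Pool.Agent.W610.HY.Cor
import Pool.Agent.W610.HY.Reduct

/-!
# The logarithm of the resolvent is integrable
-/

set_option autoImplicit false

open MeasureTheory Set Filter Topology Metric
open scoped ENNReal

namespace Pool.Agent.U555.VM

variable {Ω : Type} [MeasurableSpace Ω] {μ : Measure Ω} {τ : Ω → ℝ} {p q : ℝ≥0∞}

theorem posLog_bound (d A κ : ℝ) (hκ : 0 ≤ κ) (r : ℝ) (hr0 : 0 ≤ r)
    (hr : r ≤ (1 + 2 * (d⁻¹ * A * Real.exp (2 * κ))) * d⁻¹) :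
    Real.posLog r ≤ (Real.log 2 + Real.posLog (2 * A)) + 2 * Real.posLog d⁻¹ + 2 * κ := by
  have h1 : Real.posLog r ≤ Real.posLog ((1 + 2 * (d⁻¹ * A * Real.exp (2 * κ))) * d⁻¹) :=
    Real.posLog_le_posLog hr0 hr
  have h2 : Real.posLog ((1 + 2 * (d⁻¹ * A * Real.exp (2 * κ))) * d⁻¹) ≤
      Real.posLog (1 + 2 * (d⁻¹ * A * Real.exp (2 * κ))) + Real.posLog d⁻¹ := Real.posLog_mul
  have h3 : Real.posLog (1 + 2 * (d⁻¹ * A * Real.exp (2 * κ))) ≤
      Real.log 2 + Real.posLog 1 + Real.posLog (2 * (d⁻¹ * A * Real.exp (2 * κ))) :=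
    Real.posLog_add
  have h4 : Real.posLog (2 * (d⁻¹ * A * Real.exp (2 * κ))) ≤
      Real.posLog (2 * A) + (Real.posLog d⁻¹ + Real.posLog (Real.exp (2 * κ))) := by
    have h5 : 2 * (d⁻¹ * A * Real.exp (2 * κ)) = (2 * A) * (d⁻¹ * Real.exp (2 * κ)) := by ring
    rw [h5]
    exact Real.posLog_mul.trans (add_le_add le_rfl Real.posLog_mul)
  have h6 : Real.posLog (Real.exp (2 * κ)) = 2 * κ := by
    rw [Real.posLog_apply, Real.log_exp]
    exact max_eq_right (by linarith)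
  have h7 : Real.posLog 1 = 0 := by simp [Real.posLog_apply]
  rw [h6] at h4
  rw [h7] at h3
  linarith

/-- the potential of `a b` with respect to the kernel `1 / |z - φ|` is integrable -/
theorem potential_lt [SFinite μ] (φ : Ω → ℂ) (hφ : Measurable φ) (g : Ω → ℝ) (hg : Measurable g)
    (hgi : Integrable g μ) (R : ℝ) (hR : 0 < R) :
    ∫⁻ z in ball (0:ℂ) R, ∫⁻ x, ‖g x‖ₑ * ‖(z - φ x)⁻¹‖ₑ ∂μ < ∞ := by
  have hmeas : Measurable (Function.uncurry fun (z : ℂ) (x : Ω) => ‖g x‖ₑ * ‖(z - φ x)⁻¹‖ₑ) := by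
    change Measurable (fun w : ℂ × Ω => ‖g w.2‖ₑ * ‖(w.1 - φ w.2)⁻¹‖ₑ)
    have h1 : Measurable fun w : ℂ × Ω => ‖g w.2‖ₑ := (hg.comp measurable_snd).enorm
    have h2 : Measurable fun w : ℂ × Ω => ‖(w.1 - φ w.2)⁻¹‖ₑ :=
      ((measurable_fst.sub (hφ.comp measurable_snd)).inv).enorm
    exact h1.mul h2
  rw [lintegral_lintegral_swap hmeas.aemeasurable]
  have h1 : ∀ x : Ω, ∫⁻ z in ball (0:ℂ) R, ‖g x‖ₑ * ‖(z - φ x)⁻¹‖ₑ ≤
      ‖g x‖ₑ * ENNReal.ofReal (3 * Real.pi * R) := by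
    intro x
    rw [lintegral_const_mul' _ _ enorm_ne_top]
    gcongr
    refine le_trans (lintegral_mono fun z => ?_)
      (Pool.Agent.H136R3.lint_inv (φ x) (0:ℂ) R hR)
    by_cases hz : z - φ x = 0
    · rw [hz, inv_zero, enorm_zero]
      exact zero_le
    · rw [enorm_inv hz, ← neg_sub, enorm_neg]
  refine lt_of_le_of_lt (lintegral_mono h1) ?_
  rw [lintegral_mul_const' _ _ ENNReal.ofReal_ne_top]
  exact ENNReal.mul_lt_top hgi.2 ENNReal.ofReal_lt_top

theorem logint [SFinite μ] [Fact (1 ≤ p)] [ENNReal.HolderTriple q p 1] (hτ : Measurable τ)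
    (a b : Ω → ℝ) (ha : Measurable a) (hb : Measurable b) (ha0 : ∀ x, 0 ≤ a x)
    (hb0 : ∀ x, 0 ≤ b x) (haL : MemLp a p μ) (hbL : MemLp b q μ)
    (φ : Ω → ℂ) (hφ : Measurable φ) (E : Set ℂ) (hE : IsClosed E) (hEne : E.Nonempty)
    (hEb : Bornology.IsBounded E) (hφE : ∀ᵐ x ∂μ, φ x ∈ E) (hE0 : volume E = 0)
    (T : Lp ℂ p μ →L[ℂ] Lp ℂ p μ) (hT : Causal μ τ a b φ T) (R : ℝ) (hR : 0 < R)
    (hlog : IntegrableOn (fun z : ℂ => Real.posLog (infDist z E)⁻¹) (ball (0:ℂ) R)) :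
    spectrum ℂ T ⊆ E ∧
      IntegrableOn (fun z : ℂ => Real.posLog ‖resolvent T z‖) (ball (0:ℂ) R) := by
  obtain ⟨C, hC⟩ := hEb.exists_norm_le
  have hC0 : 0 ≤ C := by
    obtain ⟨e, he⟩ := hEne
    exact (norm_nonneg e).trans (hC e he)
  have hCφ : ∀ᵐ x ∂μ, ‖φ x‖ ≤ C := by
    filter_upwards [hφE] with x hx
    exact hC _ hx
  have hdpos : ∀ z : ℂ, z ∉ E → 0 < infDist z E := by
    intro z hz
    exact (hE.notMem_iff_infDist_pos hEne).1 hz
  have hdle : ∀ z : ℂ, ∀ᵐ x ∂μ, infDist z E ≤ ‖z - φ x‖ := by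
    intro z
    filter_upwards [hφE] with x hx
    rw [← dist_eq_norm]
    exact infDist_le_dist_of_mem hx
  have hres := fun (z : ℂ) (hz : z ∉ E) => resolvent_le hτ a b ha hb ha0 hb0 haL hbL φ hφ C hC0
    hCφ T hT z (infDist z E) (hdpos z hz) (hdle z)
  refine ⟨?_, ?_⟩
  · intro z hz
    by_contra hcon
    exact hz (hres z hcon).1
  set A : ℝ := (eLpNorm a p μ).toReal * (eLpNorm b q μ).toReal with hA
  have hA0 : 0 ≤ A := by positivity
  set κ : ℂ → ℝ := fun z => ∫ x, b x * (‖(z - φ x)⁻¹‖ * a x) ∂μ with hκ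
  have hκ0 : ∀ z, 0 ≤ κ z := fun z => integral_nonneg fun x =>
    mul_nonneg (hb0 x) (mul_nonneg (norm_nonneg _) (ha0 x))
  have hmeas : AEStronglyMeasurable (fun z : ℂ => Real.posLog ‖resolvent T z‖)
      (volume.restrict (ball (0:ℂ) R)) := by
    have h1 : Measurable fun z : ℂ => ‖resolvent T z‖ :=
      (Pool.Agent.W610.HY.Fin.hMEAS (Lp ℂ p μ →L[ℂ] Lp ℂ p μ) T).norm.measurable
    exact (Real.continuous_posLog.measurable.comp h1).aestronglyMeasurable
  refine ⟨hmeas, ?_⟩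
  rw [hasFiniteIntegral_iff_ofReal (Filter.Eventually.of_forall fun z => Real.posLog_nonneg)]
  have hint := integrable_mul' (μ := μ) a b haL hbL
  have hpot := potential_lt φ hφ (fun x => b x * a x) (hb.mul ha) hint R hR
  have hC1 : 0 ≤ Real.log 2 + Real.posLog (2 * A) :=
    add_nonneg (Real.log_nonneg (by norm_num)) Real.posLog_nonneg
  have hae : ∀ᵐ z ∂(volume.restrict (ball (0:ℂ) R)),
      ENNReal.ofReal (Real.posLog ‖resolvent T z‖) ≤
      ENNReal.ofReal (Real.log 2 + Real.posLog (2 * A)) +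
        2 * ENNReal.ofReal (Real.posLog (infDist z E)⁻¹) +
        2 * ∫⁻ x, ‖b x * a x‖ₑ * ‖(z - φ x)⁻¹‖ₑ ∂μ := by
    have h0 : ∀ᵐ z ∂(volume.restrict (ball (0:ℂ) R)), z ∉ E :=
      ae_restrict_of_ae (measure_eq_zero_iff_ae_notMem.1 hE0)
    filter_upwards [h0] with z hz
    have h1 := (hres z hz).2
    have h2 := posLog_bound (infDist z E) A (κ z) (hκ0 z) ‖resolvent T z‖
      (norm_nonneg _) (by
        refine h1.trans (le_of_eq ?_)
        rw [hA, hκ]
        ring)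
    refine (ENNReal.ofReal_le_ofReal h2).trans ?_
    rw [ENNReal.ofReal_add (add_nonneg hC1 (mul_nonneg zero_le_two Real.posLog_nonneg))
      (mul_nonneg zero_le_two (hκ0 z)),
      ENNReal.ofReal_add hC1 (mul_nonneg zero_le_two Real.posLog_nonneg),
      ENNReal.ofReal_mul zero_le_two, ENNReal.ofReal_mul zero_le_two, ENNReal.ofReal_ofNat]
    gcongr
    rw [← Real.enorm_eq_ofReal (hκ0 z)]
    refine (enorm_integral_le_lintegral_enorm _).trans (le_of_eq ?_)
    refine lintegral_congr fun x => ?_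
    rw [← enorm_norm (z - φ x)⁻¹, ← enorm_mul]
    congr 1
    ring
  refine lt_of_le_of_lt (lintegral_mono_ae hae) ?_
  have hm1 : Measurable fun z : ℂ => 2 * ENNReal.ofReal (Real.posLog (infDist z E)⁻¹) := by
    refine Measurable.const_mul ?_ _
    refine ENNReal.measurable_ofReal.comp (Real.continuous_posLog.measurable.comp ?_)
    exact (continuous_infDist_pt E).measurable.inv
  have hm2 : Measurable fun z : ℂ => ENNReal.ofReal (Real.log 2 + Real.posLog (2 * A)) +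
        2 * ENNReal.ofReal (Real.posLog (infDist z E)⁻¹) := measurable_const.add hm1
  rw [lintegral_add_left hm2, lintegral_add_left measurable_const, lintegral_const,
    lintegral_const_mul' _ _ (by norm_num), lintegral_const_mul' _ _ (by norm_num)]
  refine ENNReal.add_lt_top.2 ⟨ENNReal.add_lt_top.2 ⟨?_, ?_⟩, ?_⟩
  · refine ENNReal.mul_lt_top ENNReal.ofReal_lt_top ?_
    rw [Measure.restrict_apply_univ]
    exact measure_ball_lt_top
  · refine ENNReal.mul_lt_top (by norm_num) ?_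
    have := hlog.2
    rwa [hasFiniteIntegral_iff_ofReal
      (Filter.Eventually.of_forall fun z => Real.posLog_nonneg)] at this
  · exact ENNReal.mul_lt_top (by norm_num) hpot

end Pool.Agent.U555.VM
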