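import Pool.Agent.W427.HY.MINK

/-!
# Compact sets of upper Minkowski dimension less than two
-/

set_option autoImplicit false

open MeasureTheory Set Filter Topology Metric
open scoped ENNReal

namespace Pool.Agent.U555.VM

theorem pow_count (d : ℝ) (hd : 0 < d) : ENNReal.ofReal (Real.posLog d⁻¹) ≤
    ∑' j : ℕ, (if d ≤ (1 / 2 : ℝ) ^ j then (1 : ℝ≥0∞) else 0) := by
  rcases le_or_gt d 1 with h1 | h1
  · obtain ⟨n, hn1, hn2⟩ := exists_nat_pow_near_of_lt_one hd h1
      (by norm_num : (0 : ℝ) < 1 / 2) (by norm_num)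
    have h2 : Real.posLog d⁻¹ ≤ n + 1 := by
      rw [Real.posLog_apply]
      refine max_le (by positivity) ?_
      have h3 : d⁻¹ ≤ (2:ℝ) ^ (n + 1) := by
        rw [inv_le_comm₀ hd (by positivity)]
        refine le_trans (le_of_eq ?_) hn1.le
        rw [one_div, inv_pow]
      refine (Real.log_le_log (by positivity) h3).trans ?_
      rw [Real.log_pow]
      have h4 : Real.log 2 ≤ 1 := by
        have := Real.log_le_sub_one_of_pos (by norm_num : (0:ℝ) < 2)
        linarith
      push_cast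
      nlinarith [Nat.cast_nonneg (α := ℝ) n]
    refine (ENNReal.ofReal_le_ofReal h2).trans ?_
    have h5 : ∑ j ∈ Finset.range (n + 1), (if d ≤ (1 / 2 : ℝ) ^ j then (1 : ℝ≥0∞) else 0) =
        ENNReal.ofReal (n + 1) := by
      rw [Finset.sum_congr rfl (g := fun _ => (1 : ℝ≥0∞))]
      · rw [Finset.sum_const, Finset.card_range, nsmul_eq_mul, mul_one]
        rw [← ENNReal.ofReal_natCast]
        push_cast
        rfl
      · intro j hj
        rw [if_pos]
        refine hn2.trans ?_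
        exact pow_le_pow_of_le_one (by norm_num) (by norm_num)
          (Nat.lt_succ_iff.1 (Finset.mem_range.1 hj))
    rw [← h5]
    exact ENNReal.sum_le_tsum _
  · have h2 : Real.posLog d⁻¹ = 0 := by
      rw [Real.posLog_eq_zero_iff, abs_of_pos (inv_pos.2 hd)]
      exact inv_le_one_of_one_le₀ h1.le
    rw [h2, ENNReal.ofReal_zero]
    exact zero_le

theorem thin (E : Set ℂ) (hE : IsClosed E) (hne : E.Nonempty) (C ε : ℝ) (hε : 0 < ε)
    (h : ∀ δ : ℝ, 0 < δ → δ ≤ 1 →
      volume {z : ℂ | infDist z E ≤ δ} ≤ ENNReal.ofReal (C * δ ^ ε)) :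
    volume E = 0 ∧
      ∀ R : ℝ, IntegrableOn (fun z : ℂ => Real.posLog (infDist z E)⁻¹) (ball (0:ℂ) R) := by
  have hdc : Continuous fun z : ℂ => infDist z E := continuous_infDist_pt E
  have hj : ∀ j : ℕ, volume {z : ℂ | infDist z E ≤ (1 / 2 : ℝ) ^ j} ≤
      ENNReal.ofReal (C * ((1 / 2 : ℝ) ^ j) ^ ε) := fun j =>
    h _ (by positivity) (pow_le_one₀ (by norm_num) (by norm_num))
  have hE0 : volume E = 0 := by
    refine le_antisymm (ge_of_tendsto' (Pool.Agent.W427.HY.MINK.lim0 C ε hε) fun j => ?_) zero_le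
    refine (measure_mono fun z hz => ?_).trans (hj j)
    change infDist z E ≤ _
    rw [infDist_zero_of_mem hz]
    positivity
  refine ⟨hE0, fun R => ?_⟩
  have hm : Measurable fun z : ℂ => Real.posLog (infDist z E)⁻¹ :=
    Real.continuous_posLog.measurable.comp hdc.measurable.inv
  have hint : Integrable (fun z : ℂ => Real.posLog (infDist z E)⁻¹) := by
    refine ⟨hm.aestronglyMeasurable, ?_⟩
    rw [hasFiniteIntegral_iff_ofReal (Filter.Eventually.of_forall fun z => Real.posLog_nonneg)]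
    have hSm : ∀ j : ℕ, MeasurableSet {z : ℂ | infDist z E ≤ (1 / 2 : ℝ) ^ j} := fun j =>
      measurableSet_le hdc.measurable measurable_const
    have hae : ∀ᵐ z : ℂ, ENNReal.ofReal (Real.posLog (infDist z E)⁻¹) ≤
        ∑' j : ℕ, {z : ℂ | infDist z E ≤ (1 / 2 : ℝ) ^ j}.indicator (fun _ => (1:ℝ≥0∞)) z := by
      filter_upwards [measure_eq_zero_iff_ae_notMem.1 hE0] with z hz
      have hd : 0 < infDist z E := (hE.notMem_iff_infDist_pos hne).1 hz
      exact (pow_count _ hd).trans (le_of_eq rfl)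
    refine lt_of_le_of_lt (lintegral_mono_ae hae) ?_
    rw [lintegral_tsum fun j => (measurable_const.indicator (hSm j)).aemeasurable]
    have hle : ∀ j : ℕ, ∫⁻ z : ℂ, {z : ℂ | infDist z E ≤ (1 / 2 : ℝ) ^ j}.indicator
        (fun _ => (1:ℝ≥0∞)) z ≤ ENNReal.ofReal (|C| * ((1 / 2 : ℝ) ^ ε) ^ j) := by
      intro j
      rw [lintegral_indicator_const (hSm j), one_mul]
      refine (hj j).trans (ENNReal.ofReal_le_ofReal ?_)
      have hq : (0 : ℝ) < 1 / 2 := by norm_num
      rw [← Real.rpow_natCast (1 / 2 : ℝ) j, ← Real.rpow_mul hq.le,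
        ← Real.rpow_natCast ((1 / 2 : ℝ) ^ ε) j, ← Real.rpow_mul hq.le, mul_comm ε]
      exact mul_le_mul_of_nonneg_right (le_abs_self C) (by positivity)
    refine lt_of_le_of_lt (ENNReal.tsum_le_tsum hle) ?_
    have hq : (0 : ℝ) < 1 / 2 := by norm_num
    have h6 : (1 / 2 : ℝ) ^ ε < 1 := Real.rpow_lt_one hq.le (by norm_num) hε
    have h7 : Summable fun j : ℕ => |C| * ((1 / 2 : ℝ) ^ ε) ^ j :=
      (summable_geometric_of_lt_one (by positivity) h6).mul_left _
    exact h7.tsum_ofReal_lt_top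
  exact hint.integrableOn

end Pool.Agent.U555.VM
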