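import Pool.Agent.U555.VM.Spec
import Pool.Agent.U555.VM.Int
import Pool.Agent.U555.VM.Thin
import Pool.Agent.W19.HY.RES

/-!
# Hyperinvariant subspaces of multiplication operators with a causal perturbation
-/

set_option autoImplicit false

open MeasureTheory Set Filter Topology Metric
open scoped ENNReal

namespace Pool.Agent.U555.VM

variable {Ω : Type} [MeasurableSpace Ω] {μ : Measure Ω} {τ : Ω → ℝ} {p q : ℝ≥0∞}

/-- a function which is not constant almost everywhere has two essential values -/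
theorem two_values (φ : Ω → ℂ) (hφ : Measurable φ) (h : ¬ ∃ c : ℂ, ∀ᵐ x ∂μ, φ x = c) :
    ∃ c₁ c₂ : ℂ, c₁ ≠ c₂ ∧ (∀ ε : ℝ, 0 < ε → μ {x | ‖φ x - c₁‖ < ε} ≠ 0) ∧
      (∀ ε : ℝ, 0 < ε → μ {x | ‖φ x - c₂‖ < ε} ≠ 0) := by
  have hball : ∀ (c : ℂ) (ε : ℝ), φ ⁻¹' (ball c ε) = {x | ‖φ x - c‖ < ε} := by
    intro c ε
    ext x
    rw [mem_preimage, mem_ball, dist_eq_norm]
    rfl
  have h1 : (Measure.map φ μ) univ ≠ 0 := by
    rw [Measure.map_apply hφ MeasurableSet.univ, preimage_univ]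
    intro h0
    have h2 : μ = 0 := Measure.measure_univ_eq_zero.1 h0
    exact h ⟨0, by rw [h2]; exact ae_zero ▸ trivial⟩
  obtain ⟨c₁, -, hc₁⟩ := exists_mem_forall_mem_nhdsWithin_pos_measure h1
  have h3 : (Measure.map φ μ) {c₁}ᶜ ≠ 0 := by
    rw [Measure.map_apply hφ (measurableSet_singleton c₁).compl]
    intro h0
    refine h ⟨c₁, ?_⟩
    rw [ae_iff]
    exact h0
  obtain ⟨c₂, hc₂', hc₂⟩ := exists_mem_forall_mem_nhdsWithin_pos_measure h3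
  refine ⟨c₁, c₂, fun he => hc₂' (by rw [← he]; rfl), ?_, ?_⟩
  · intro ε hε
    have h4 := hc₁ (ball c₁ ε) (by rw [nhdsWithin_univ]; exact ball_mem_nhds c₁ hε)
    rw [Measure.map_apply hφ isOpen_ball.measurableSet, hball] at h4
    exact h4.ne'
  · intro ε hε
    have h4 := hc₂ (ball c₂ ε) (mem_nhdsWithin_of_mem_nhds (ball_mem_nhds c₂ hε))
    rw [Measure.map_apply hφ isOpen_ball.measurableSet, hball] at h4
    exact h4.ne'

theorem causal_of_real [Fact (1 ≤ p)] (a b : Ω → ℝ) (ha0 : ∀ x, 0 ≤ a x) (hb0 : ∀ x, 0 ≤ b x)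
    (φ : Ω → ℂ) (T : Lp ℂ p μ →L[ℂ] Lp ℂ p μ)
    (hT : ∀ f : Lp ℂ p μ, ∀ᵐ x ∂μ, ‖(T f) x - φ x * f x‖ ≤
      a x * ∫ y in {y | τ y < τ x}, b y * ‖f y‖ ∂μ) : Causal μ τ a b φ T := by
  intro f
  filter_upwards [hT f] with x hx
  have h0 : 0 ≤ ∫ y in {y | τ y < τ x}, b y * ‖f y‖ ∂μ :=
    integral_nonneg fun y => mul_nonneg (hb0 y) (norm_nonneg _)
  rw [← ofReal_norm]
  refine (ENNReal.ofReal_le_ofReal hx).trans ?_
  rw [ENNReal.ofReal_mul (ha0 x), ← Real.enorm_eq_ofReal h0]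
  gcongr
  refine (enorm_integral_le_lintegral_enorm _).trans (le_of_eq ?_)
  refine lintegral_congr fun y => ?_
  rw [enorm_mul, enorm_norm, Real.enorm_eq_ofReal (hb0 y)]

theorem main [SigmaFinite μ] [Fact (1 ≤ p)] (hp1 : 1 < p) (hpq : p⁻¹ + q⁻¹ = 1)
    (hτ : Measurable τ) (hat : ∀ t : ℝ, μ {x | τ x = t} = 0)
    (φ : Ω → ℂ) (hφ : Measurable φ) (hconst : ¬ ∃ c : ℂ, ∀ᵐ x ∂μ, φ x = c)
    (a b : Ω → ℝ) (ha : Measurable a) (hb : Measurable b) (ha0 : ∀ x, 0 ≤ a x)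
    (hb0 : ∀ x, 0 ≤ b x) (haL : MemLp a p μ) (hbL : MemLp b q μ)
    (E : Set ℂ) (hE : IsCompact E) (hφE : ∀ᵐ x ∂μ, φ x ∈ E) (hE0 : volume E = 0)
    (hlog : ∀ R : ℝ, IntegrableOn (fun z : ℂ => Real.posLog (infDist z E)⁻¹) (ball (0:ℂ) R))
    (T : Lp ℂ p μ →L[ℂ] Lp ℂ p μ)
    (hT : ∀ f : Lp ℂ p μ, ∀ᵐ x ∂μ, ‖(T f) x - φ x * f x‖ ≤
      a x * ∫ y in {y | τ y < τ x}, b y * ‖f y‖ ∂μ) :
    ∃ V : Submodule ℂ (Lp ℂ p μ), IsClosed (V : Set (Lp ℂ p μ)) ∧ V ≠ ⊥ ∧ V ≠ ⊤ ∧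
      ∀ Q : Lp ℂ p μ →L[ℂ] Lp ℂ p μ, Q * T = T * Q → ∀ v ∈ V, Q v ∈ V := by
  have hHT : ENNReal.HolderTriple q p 1 := ⟨by rw [add_comm, hpq, inv_one]⟩
  have hq : q ≠ ∞ := by
    rintro rfl
    rw [ENNReal.inv_top, add_zero, ENNReal.inv_eq_one] at hpq
    exact hp1.ne' hpq
  have hq1 : 1 ≤ q := by
    have h1 : q⁻¹ ≤ 1 := by
      rw [← hpq]
      exact le_add_self
    rwa [ENNReal.inv_le_one] at h1
  have hC := causal_of_real a b ha0 hb0 φ T hT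
  obtain ⟨c₁, c₂, hne, h1, h2⟩ := two_values φ hφ hconst
  have hs1 := mem_spectrum hq1 hq hτ hat a b ha0 hb0 haL hbL φ hφ T hC c₁ h1
  have hs2 := mem_spectrum hq1 hq hτ hat a b ha0 hb0 haL hbL φ hφ T hC c₂ h2
  have hEne : E.Nonempty := by
    by_contra hcon
    rw [not_nonempty_iff_eq_empty] at hcon
    refine hconst ⟨0, ?_⟩
    filter_upwards [hφE] with x hx
    rw [hcon] at hx
    exact absurd hx (notMem_empty _)
  set R : ℝ := ‖c₁‖ + ‖c₂‖ + 1 with hR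
  have hR0 : 0 < R := by positivity
  obtain ⟨h3, h4⟩ := logint hτ a b ha hb ha0 hb0 haL hbL φ hφ E hE.isClosed hEne hE.isBounded
    hφE hE0 T hC R hR0 (hlog R)
  refine Pool.Agent.W610.HY.Cor.glob Pool.Agent.W610.HY.Reduct.loc Pool.Agent.W19.HY.RES.main
    Pool.Agent.W610.HY.Fin.hMEAS T (ball (0:ℂ) R) isOpen_ball ?_ ?_ h4
  · refine ⟨c₁, ⟨hs1, ?_⟩, c₂, ⟨hs2, ?_⟩, hne⟩
    · rw [mem_ball_zero_iff, hR]
      have := norm_nonneg c₂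
      linarith
    · rw [mem_ball_zero_iff, hR]
      have := norm_nonneg c₁
      linarith
  · exact measure_mono_null (inter_subset_left.trans h3) hE0

end Pool.Agent.U555.VM
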