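import Pool.Agent.U555.VM.Mx
import Pool.Agent.R276.CP.Pot
import Pool.Agent.Y891.NK.AREA

/-!
# Almost all coupling constants
-/

set_option autoImplicit false

open MeasureTheory Set Filter Topology Metric
open scoped ENNReal NNReal
open Pool.Agent.R276.CP (lm LogBd)

namespace Pool.Agent.U555.VM

variable {m : ℕ}

theorem det_meas' {α : Type} [MeasurableSpace α] (A : α → Matrix (Fin m) (Fin m) ℂ)
    (hA : ∀ i j, Measurable fun z => A z i j) : Measurable fun z => (A z).det := by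
  simp only [Matrix.det_apply]
  refine Finset.measurable_sum _ fun σ _ => ?_
  refine Measurable.const_smul ?_ _
  exact Finset.measurable_prod _ fun i _ => hA _ _

theorem eval_rev' (M : Matrix (Fin m) (Fin m) ℂ) (κ : ℂ) :
    (M.charpolyRev).eval κ = (1 - κ • M).det := by
  rw [Matrix.charpolyRev, ← Polynomial.coe_evalRingHom, RingHom.map_det]
  congr 1
  ext i j
  rcases eq_or_ne i j with h | h
  · subst h
    simp [Matrix.sub_apply, Matrix.smul_apply]
    exact mul_comm _ _
  · simp [h, Matrix.sub_apply, Matrix.smul_apply]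
    exact mul_comm _ _

theorem MM_eq (f : Fin m → Fin m → ℂ → ℂ) (κ z : ℂ) :
    MM f κ z = 1 - κ • (Matrix.of fun i j => f j i z) := by
  ext i j
  rw [MM_apply, Matrix.sub_apply, Matrix.smul_apply, Matrix.one_apply, Matrix.of_apply,
    smul_eq_mul]

theorem ae_balls {ν : Measure ℂ} {P : ℂ → Prop}
    (h : ∀ n : ℕ, ∀ᵐ z ∂(ν.restrict (ball 0 ((n : ℝ) + 1))), P z) : ∀ᵐ z ∂ν, P z := by
  have h1 : (⋃ n : ℕ, ball (0:ℂ) ((n : ℝ) + 1)) = univ := by
    rw [eq_univ_iff_forall]
    intro z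
    obtain ⟨n, hn⟩ := exists_nat_gt ‖z‖
    rw [mem_iUnion]
    exact ⟨n, by rw [mem_ball_zero_iff]; linarith⟩
  rw [← Measure.restrict_univ (μ := ν), ← h1]
  rw [ae_restrict_iUnion_iff]
  exact h

/-- the determinant is locally log-integrable for almost every coupling constant -/
theorem generic (f : Fin m → Fin m → ℂ → ℂ) (hf : ∀ i j, Measurable (f i j))
    (W : Fin m → ℂ → ℝ) (hWm : ∀ j, Measurable (W j)) (hW1 : ∀ j z, 1 ≤ W j z)
    (hfW : ∀ j i z, ‖f j i z‖ ≤ W j z)
    (hWl : ∀ j (c : ℂ) (ρ : ℝ), 0 < ρ →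
      ∫⁻ z in closedBall c ρ, ENNReal.ofReal (Real.log (W j z)) ≠ ∞)
    (ν : Measure ℂ) (hν : LogBd ν) :
    ∀ᵐ κ ∂ν, ∀ (c : ℂ) (ρ : ℝ), 0 < ρ → ∫⁻ z in closedBall c ρ, lm ‖(MM f κ z).det‖ ≠ ∞ := by
  have hlj : ∀ j z, 0 ≤ Real.log (W j z) := fun j z => Real.log_nonneg (hW1 j z)
  set L : ℂ → ℝ := fun z => ∑ j, Real.log (W j z) with hL
  have hL0 : ∀ z, 0 ≤ L z := fun z => Finset.sum_nonneg fun j _ => hlj j z
  have hLm : Measurable L := Finset.measurable_sum _ fun j _ => Real.measurable_log.comp (hWm j)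
  have hWjL : ∀ j z, W j z ≤ Real.exp (L z) := by
    intro j z
    have h1 : Real.log (W j z) ≤ L z :=
      Finset.single_le_sum (f := fun i => Real.log (W i z)) (fun i _ => hlj i z)
        (Finset.mem_univ j)
    calc W j z = Real.exp (Real.log (W j z)) :=
          (Real.exp_log (lt_of_lt_of_le one_pos (hW1 j z))).symm
      _ ≤ _ := Real.exp_le_exp.2 h1
  have hjm : Measurable fun w : ℂ × ℂ => lm ‖(MM f w.1 w.2).det‖ := by
    refine lm_meas.comp (Measurable.norm (det_meas' (fun w : ℂ × ℂ => MM f w.1 w.2) ?_))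
    intro i j
    simp only [MM_apply]
    exact measurable_const.sub (measurable_fst.mul ((hf j i).comp measurable_snd))
  have key : ∀ n R : ℕ, ∀ᵐ κ ∂(ν.restrict (ball 0 ((n : ℝ) + 1))),
      ∫⁻ z in closedBall (0:ℂ) ((R : ℝ) + 1), lm ‖(MM f κ z).det‖ ≠ ∞ := by
    intro n R
    set r : ℝ := (n : ℝ) + 1 with hr
    have hr0 : 0 < r := by positivity
    obtain ⟨C1, hC1⟩ := Pool.Agent.R276.CP.Pot.main ν hν r hr0
    obtain ⟨C2, hC2, -⟩ := hν r
    have hfin : IsFiniteMeasure (ν.restrict (ball (0:ℂ) r)) :=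
      ⟨by rw [Measure.restrict_apply_univ]; exact hC2.trans_lt ENNReal.coe_lt_top⟩
    set K : ℝ := Real.log (m.factorial : ℝ) + m * Real.log (1 + 6 * r) with hK
    have hK0 : 0 ≤ K := by
      have h1 : (1:ℝ) ≤ m.factorial := by exact_mod_cast Nat.one_le_iff_ne_zero.2 m.factorial_ne_zero
      have h2 : (1:ℝ) ≤ 1 + 6 * r := by linarith
      exact add_nonneg (Real.log_nonneg h1) (mul_nonneg m.cast_nonneg (Real.log_nonneg h2))
    have hpt : ∀ z, ∫⁻ κ in ball (0:ℂ) r, lm ‖(MM f κ z).det‖ ∂ν ≤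
        C1 * ENNReal.ofReal ((K + m * L z) + 1) := by
      intro z
      have h1 := hC1 ((Matrix.of fun i j => f j i z : Matrix (Fin m) (Fin m) ℂ).charpolyRev) 0
        (K + m * L z) Matrix.eval_charpolyRev
        (add_nonneg hK0 (mul_nonneg m.cast_nonneg (hL0 z))) ?_
      · simp only [mul_zero, Complex.exp_zero, mul_one, eval_rev', ← MM_eq] at h1
        exact h1
      · intro κ hκ
        rw [mul_zero, Complex.exp_zero, mul_one, eval_rev', ← MM_eq]
        have hE1 : 1 ≤ Real.exp (L z) := Real.one_le_exp (hL0 z)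
        have hent : ∀ i j, ‖MM f κ z i j‖ ≤ (1 + 6 * r) * Real.exp (L z) := by
          intro i j
          rw [MM_apply]
          refine (norm_sub_le _ _).trans ?_
          have h1 : ‖(if i = j then (1:ℂ) else 0)‖ ≤ 1 := by
            split_ifs <;> simp
          have h2 : ‖κ * f j i z‖ ≤ 6 * r * Real.exp (L z) := by
            rw [norm_mul]
            exact mul_le_mul hκ ((hfW j i z).trans (hWjL j z)) (norm_nonneg _) (by positivity)
          nlinarith
        refine (det_bd _ _ hent).trans (le_of_eq ?_)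
        have h3 : (0:ℝ) < m.factorial := by exact_mod_cast m.factorial_pos
        have h4 : (0:ℝ) < 1 + 6 * r := by positivity
        rw [hK, Real.exp_add, Real.exp_add, Real.exp_log h3, Real.exp_nat_mul, Real.exp_log h4,
          Real.exp_nat_mul, mul_pow]
        ring
    have hint : ∫⁻ κ in ball (0:ℂ) r, (∫⁻ z in closedBall (0:ℂ) ((R : ℝ) + 1),
        lm ‖(MM f κ z).det‖) ∂ν < ∞ := by
      have h5 : ∫⁻ κ in ball (0:ℂ) r, (∫⁻ z in closedBall (0:ℂ) ((R : ℝ) + 1),
          lm ‖(MM f κ z).det‖) ∂ν = ∫⁻ z in closedBall (0:ℂ) ((R : ℝ) + 1),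
          (∫⁻ κ in ball (0:ℂ) r, lm ‖(MM f κ z).det‖ ∂ν) :=
        lintegral_lintegral_swap (f := fun κ z => lm ‖(MM f κ z).det‖) hjm.aemeasurable
      rw [h5]
      refine lt_of_le_of_lt (lintegral_mono hpt) ?_
      rw [lintegral_const_mul' _ _ ENNReal.coe_ne_top]
      refine ENNReal.mul_lt_top ENNReal.coe_lt_top ?_
      have hpt2 : ∀ z, ENNReal.ofReal ((K + m * L z) + 1) ≤
          ENNReal.ofReal (K + 1) + ENNReal.ofReal m * ∑ j, ENNReal.ofReal (Real.log (W j z)) := by
        intro z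
        rw [← ENNReal.ofReal_sum_of_nonneg fun j _ => hlj j z, ← ENNReal.ofReal_mul
          (by positivity), ← ENNReal.ofReal_add (by linarith)
          (mul_nonneg m.cast_nonneg (hL0 z))]
        apply ENNReal.ofReal_le_ofReal
        rw [hL]
        simp only
        linarith
      have hm2 : ∀ j, Measurable fun z => ENNReal.ofReal (Real.log (W j z)) := fun j =>
        ENNReal.measurable_ofReal.comp (Real.measurable_log.comp (hWm j))
      have hm3 : Measurable fun z => ∑ j, ENNReal.ofReal (Real.log (W j z)) :=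
        Finset.measurable_sum _ fun j _ => hm2 j
      refine lt_of_le_of_lt (lintegral_mono hpt2) ?_
      rw [lintegral_add_left measurable_const, lintegral_const, lintegral_const_mul _ hm3,
        lintegral_finsetSum _ fun j _ => hm2 j, Measure.restrict_apply_univ]
      exact ENNReal.add_lt_top.2 ⟨ENNReal.mul_lt_top ENNReal.ofReal_lt_top
        measure_closedBall_lt_top, ENNReal.mul_lt_top ENNReal.ofReal_lt_top
        (ENNReal.sum_lt_top.2 fun j _ => lt_top_iff_ne_top.2 (hWl j 0 _ (by positivity)))⟩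
    have hm5 : Measurable fun κ : ℂ => ∫⁻ z in closedBall (0:ℂ) ((R : ℝ) + 1),
        lm ‖(MM f κ z).det‖ :=
      hjm.lintegral_prod_right' (ν := (volume : Measure ℂ).restrict (closedBall (0:ℂ) ((R : ℝ) + 1)))
    filter_upwards [ae_lt_top hm5 hint.ne] with κ hκ
    exact hκ.ne
  refine ae_balls fun n => ?_
  filter_upwards [ae_all_iff.2 (key n)] with κ hκ
  intro c ρ hρ
  obtain ⟨R, hR⟩ := exists_nat_gt (‖c‖ + ρ)
  refine ne_top_of_le_ne_top (hκ R) (lintegral_mono_set ?_)
  intro z hz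
  rw [mem_closedBall, dist_eq_norm] at hz
  rw [mem_closedBall_zero_iff]
  calc ‖z‖ = ‖(z - c) + c‖ := by rw [sub_add_cancel]
    _ ≤ ‖z - c‖ + ‖c‖ := norm_add_le _ _
    _ ≤ (R : ℝ) + 1 := by linarith

end Pool.Agent.U555.VM
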