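import Pool.Agent.U555.VM.Full2
import Pool.Agent.U555.VM.Gn
import Pool.Agent.U555.VM.Bs
import Pool.Agent.U555.VM.Dm

/-!
# Finite rank perturbations of multiplication operators with a dominated causal kernel
-/

set_option autoImplicit false

open MeasureTheory Set Filter Topology Metric
open scoped ENNReal
open Pool.Agent.R277.SP (LocV ad ad_apply2)
open Pool.Agent.R276.CP (lm LogBd)

namespace Pool.Agent.U555.VM

variable {Ω : Type} [MeasurableSpace Ω] {μ : Measure Ω} {τ : Ω → ℝ} {p q : ℝ≥0∞}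
variable {a b : Ω → ℝ} {k : Ω → Ω → ℂ} {φ : Ω → ℂ} {m : ℕ}

/-- the measure has no atoms -/
def NoAt (μ : Measure Ω) : Prop :=
  ∀ A : Set Ω, MeasurableSet A → μ A ≠ 0 → ∀ δ : ℝ≥0∞, 0 < δ →
    ∃ B ⊆ A, MeasurableSet B ∧ μ B ≠ 0 ∧ μ B < δ

/-- the perturbed operator -/
noncomputable def TK [Fact (1 ≤ p)] [Fact (1 ≤ q)] [ENNReal.HolderTriple q p 1]
    (T₀ : Lp ℂ p μ →L[ℂ] Lp ℂ p μ) (g : Fin m → Lp ℂ q μ) (u : Fin m → Lp ℂ p μ) (κ : ℂ) :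
    Lp ℂ p μ →L[ℂ] Lp ℂ p μ :=
  T₀ + κ • ∑ j, (fnl μ p q (g j)).smulRight (u j)

theorem TK_apply [Fact (1 ≤ p)] [Fact (1 ≤ q)] [ENNReal.HolderTriple q p 1]
    (T₀ : Lp ℂ p μ →L[ℂ] Lp ℂ p μ) (g : Fin m → Lp ℂ q μ) (u : Fin m → Lp ℂ p μ) (κ : ℂ)
    (f : Lp ℂ p μ) : TK T₀ g u κ f = T₀ f + κ • ∑ j, fnl μ p q (g j) f • u j := by
  unfold TK
  rw [ContinuousLinearMap.add_apply, ContinuousLinearMap.smul_apply,
    ContinuousLinearMap.sum_apply]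
  rfl

theorem dom_step [Fact (1 ≤ p)] [Fact (1 ≤ q)] [ENNReal.HolderTriple q p 1]
    (ha0 : ∀ x, 0 ≤ a x) (hb0 : ∀ x, 0 ≤ b x)
    (S : Lp ℂ p μ →L[ℂ] Lp ℂ p μ) (hS : Dom μ a b φ S) (g : Lp ℂ q μ) (u : Lp ℂ p μ) (κ : ℂ) :
    Dom μ (fun x => a x + ‖κ‖ * ‖u x‖) (fun x => b x + ‖g x‖) φ
      (S + κ • (fnl μ p q g).smulRight u) := by
  intro f
  have e1 : (S + κ • (fnl μ p q g).smulRight u) f = S f + κ • (fnl μ p q g f • u) := rfl
  have h0 : ‖fnl μ p q g f‖ₑ ≤ ∫⁻ y, ‖g y‖ₑ * ‖f y‖ₑ ∂μ := by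
    rw [fnl_apply]
    refine (enorm_integral_le_lintegral_enorm _).trans (le_of_eq ?_)
    simp only [enorm_mul]
  have hIb : ∫⁻ y, ENNReal.ofReal (b y) * ‖f y‖ₑ ∂μ ≤
      ∫⁻ y, ENNReal.ofReal (b y + ‖g y‖) * ‖f y‖ₑ ∂μ := by
    refine lintegral_mono fun y => ?_
    gcongr
    exact le_add_of_nonneg_right (norm_nonneg _)
  have hIg : ∫⁻ y, ‖g y‖ₑ * ‖f y‖ₑ ∂μ ≤
      ∫⁻ y, ENNReal.ofReal (b y + ‖g y‖) * ‖f y‖ₑ ∂μ := by
    refine lintegral_mono fun y => ?_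
    gcongr
    rw [← ofReal_norm]
    exact ENNReal.ofReal_le_ofReal (le_add_of_nonneg_left (hb0 y))
  rw [e1]
  filter_upwards [hS f, Lp.coeFn_add (S f) (κ • (fnl μ p q g f • u)),
    Lp.coeFn_smul κ (fnl μ p q g f • u), Lp.coeFn_smul (fnl μ p q g f) u] with x h1 h2 h3 h4
  rw [h2, Pi.add_apply, h3, Pi.smul_apply, h4, Pi.smul_apply, smul_eq_mul, smul_eq_mul]
  have e2 : (S f) x + κ * (fnl μ p q g f * u x) - φ x * f x =
      ((S f) x - φ x * f x) + κ * (fnl μ p q g f * u x) := by ring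
  rw [e2]
  refine (enorm_add_le _ _).trans ?_
  rw [enorm_mul, enorm_mul, ENNReal.ofReal_add (ha0 x) (by positivity), add_mul,
    ENNReal.ofReal_mul (norm_nonneg _), ofReal_norm, ofReal_norm]
  refine add_le_add (h1.trans ?_) ?_
  · gcongr
  · calc ‖κ‖ₑ * (‖fnl μ p q g f‖ₑ * ‖u x‖ₑ) = ‖κ‖ₑ * ‖u x‖ₑ * ‖fnl μ p q g f‖ₑ := by ring
      _ ≤ _ := by
        gcongr
        exact h0.trans hIg

theorem dom_TK [Fact (1 ≤ p)] [Fact (1 ≤ q)] [ENNReal.HolderTriple q p 1]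
    (ha0 : ∀ x, 0 ≤ a x) (hb0 : ∀ x, 0 ≤ b x) (haL : MemLp a p μ) (hbL : MemLp b q μ)
    (T₀ : Lp ℂ p μ →L[ℂ] Lp ℂ p μ) (hT : Dom μ a b φ T₀) (g : Fin m → Lp ℂ q μ)
    (u : Fin m → Lp ℂ p μ) (κ : ℂ) :
    ∃ a' b' : Ω → ℝ, (∀ x, 0 ≤ a' x) ∧ (∀ x, 0 ≤ b' x) ∧ MemLp a' p μ ∧ MemLp b' q μ ∧
      Dom μ a' b' φ (TK T₀ g u κ) := by
  classical
  have h : ∀ s : Finset (Fin m), ∃ a' b' : Ω → ℝ, (∀ x, 0 ≤ a' x) ∧ (∀ x, 0 ≤ b' x) ∧
      MemLp a' p μ ∧ MemLp b' q μ ∧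
      Dom μ a' b' φ (T₀ + κ • ∑ j ∈ s, (fnl μ p q (g j)).smulRight (u j)) := by
    intro s
    induction s using Finset.induction_on with
    | empty =>
      refine ⟨a, b, ha0, hb0, haL, hbL, ?_⟩
      rw [Finset.sum_empty, smul_zero, add_zero]
      exact hT
    | insert j s hj ih =>
      obtain ⟨a', b', h1, h2, h3, h4, h5⟩ := ih
      refine ⟨fun x => a' x + ‖κ‖ * ‖u j x‖, fun x => b' x + ‖g j x‖,
        fun x => add_nonneg (h1 x) (by positivity), fun x => add_nonneg (h2 x) (norm_nonneg _),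
        h3.add ((Lp.memLp (u j)).norm.const_mul _), h4.add (Lp.memLp (g j)).norm, ?_⟩
      have h6 := dom_step h1 h2 _ h5 (g j) (u j) κ
      have h7 : T₀ + κ • ∑ j ∈ insert j s, (fnl μ p q (g j)).smulRight (u j) =
          (T₀ + κ • ∑ j ∈ s, (fnl μ p q (g j)).smulRight (u j)) +
          κ • (fnl μ p q (g j)).smulRight (u j) := by
        rw [Finset.sum_insert hj, smul_add]
        abel
      rw [h7]
      exact h6
  exact h Finset.univ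

/-- the space of the functions supported on `{|φ - c| < ε}` has infinite dimension for all `ε > 0` -/
def EssPt (μ : Measure Ω) (φ : Ω → ℂ) (c : ℂ) : Prop :=
  ∀ ε : ℝ, 0 < ε → ∀ n : ℕ, ∃ B : Fin n → Set Ω, (∀ i, MeasurableSet (B i)) ∧
    (∀ i, B i ⊆ {x | ‖φ x - c‖ < ε}) ∧ (∀ i, μ (B i) ≠ 0) ∧ Pairwise (fun i j => Disjoint (B i) (B j))

theorem esspt_spec [Fact (1 ≤ p)] [SigmaFinite μ] [ENNReal.HolderTriple q p 1]
    (hq1 : 1 ≤ q) (hq : q ≠ ∞) (ha0 : ∀ x, 0 ≤ a x) (hb0 : ∀ x, 0 ≤ b x)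
    (haL : MemLp a p μ) (hbL : MemLp b q μ) (T : Lp ℂ p μ →L[ℂ] Lp ℂ p μ)
    (hT : Dom μ a b φ T) (c : ℂ) (hc : EssPt μ φ c) : c ∈ spectrum ℂ T := by
  by_contra hcs
  obtain ⟨ε, hε, η, hη, hA⟩ := lowerd a b ha0 hb0 haL hbL φ T hT c hcs
  have hq0 : q ≠ 0 := (lt_of_lt_of_le zero_lt_one hq1).ne'
  have hqr : 0 < q.toReal := ENNReal.toReal_pos hq0 hq
  set ν : Measure Ω := μ.withDensity fun x => ‖b x‖ₑ ^ q.toReal with hν
  have hνA : ∀ A : Set Ω, MeasurableSet A → ν A = eLpNorm (A.indicator b) q μ ^ q.toReal := by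
    intro A hAm
    rw [hν, withDensity_apply _ hAm, eLpNorm_indicator_eq_eLpNorm_restrict hAm,
      eLpNorm_eq_lintegral_rpow_enorm_toReal hq0 hq, ← ENNReal.rpow_mul, one_div,
      inv_mul_cancel₀ hqr.ne', ENNReal.rpow_one]
  have hfin : ν univ ≠ ∞ := by
    rw [hνA univ MeasurableSet.univ, indicator_univ]
    exact (ENNReal.rpow_lt_top_of_nonneg hqr.le hbL.2.ne).ne
  set δ : ℝ≥0∞ := ENNReal.ofReal η ^ q.toReal with hδ
  have hδ0 : δ ≠ 0 := (ENNReal.rpow_pos (ENNReal.ofReal_pos.2 hη) ENNReal.ofReal_ne_top).ne'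
  have hP : ∀ A : Set Ω, MeasurableSet A → A ⊆ {x | ‖φ x - c‖ < ε} → μ A ≠ 0 → δ ≤ ν A := by
    intro A hAm hAs hA0
    obtain ⟨B, hBm, hBA, hB0, hB1⟩ :=
      Measure.exists_subset_measure_lt_top (μ := μ) hAm (pos_iff_ne_zero.2 hA0)
    refine le_trans ?_ (measure_mono hBA)
    rw [hνA B hBm]
    exact ENNReal.rpow_le_rpow (hA B hBm (hBA.trans hAs) hB0.ne' hB1.ne).le hqr.le
  obtain ⟨n, hn⟩ := ENNReal.exists_nat_mul_gt hδ0 hfin
  obtain ⟨B, hBm, hBs, hB0, hBd⟩ := hc ε hε n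
  have h1 : (n : ℝ≥0∞) * δ ≤ ν univ := by
    calc (n : ℝ≥0∞) * δ = ∑ _i : Fin n, δ := by
          rw [Finset.sum_const, Finset.card_univ, Fintype.card_fin, nsmul_eq_mul]
      _ ≤ ∑ i, ν (B i) := Finset.sum_le_sum fun i _ => hP (B i) (hBm i) (hBs i) (hB0 i)
      _ = ν (⋃ i, B i) := by
          rw [measure_iUnion hBd hBm, tsum_fintype]
      _ ≤ ν univ := measure_mono (subset_univ _)
  exact absurd h1 (not_le.2 hn)

/-- in a measure without atoms the points of the essential range are of this kind -/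
theorem esspt_of_noat [SigmaFinite μ] (hna : NoAt μ) (hφ : Measurable φ) (c : ℂ)
    (hc : ∀ ε : ℝ, 0 < ε → μ {x | ‖φ x - c‖ < ε} ≠ 0) : EssPt μ φ c := by
  intro ε hε n
  have hDm : MeasurableSet {x | ‖φ x - c‖ < ε} :=
    measurableSet_lt (hφ.sub_const c).norm measurable_const
  have key : ∀ (n : ℕ) (D : Set Ω), MeasurableSet D → μ D ≠ 0 → ∃ B : Fin n → Set Ω,
      (∀ i, MeasurableSet (B i)) ∧ (∀ i, B i ⊆ D) ∧ (∀ i, μ (B i) ≠ 0) ∧
      Pairwise (fun i j => Disjoint (B i) (B j)) := by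
    intro n
    induction n with
    | zero =>
      intro D _ _
      exact ⟨fun _ => ∅, fun i => i.elim0, fun i => i.elim0, fun i => i.elim0,
        fun i => i.elim0⟩
    | succ n ih =>
      intro D hD hD0
      obtain ⟨D', hD'm, hD'D, hD'0, hD'1⟩ :=
        Measure.exists_subset_measure_lt_top (μ := μ) hD (pos_iff_ne_zero.2 hD0)
      obtain ⟨B₀, hB₀s, hB₀m, hB₀0, hB₀1⟩ := hna D' hD'm hD'0.ne' (μ D') hD'0
      have hrest : μ (D \ B₀) ≠ 0 := by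
        intro h0
        have hsub : D' \ B₀ ⊆ D \ B₀ := fun x hx => ⟨hD'D hx.1, hx.2⟩
        have h1 : μ (D' \ B₀) = 0 := measure_mono_null hsub h0
        have h2 : μ D' ≤ μ B₀ + μ (D' \ B₀) := by
          refine (measure_mono ?_).trans (measure_union_le _ _)
          intro x hx
          by_cases hxB : x ∈ B₀
          · exact Or.inl hxB
          · exact Or.inr ⟨hx, hxB⟩
        rw [h1, add_zero] at h2
        exact absurd h2 (not_le.2 hB₀1)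
      obtain ⟨B, h1, h2, h3, h4⟩ := ih (D \ B₀) (hD.diff hB₀m) hrest
      refine ⟨Fin.cons B₀ B, ?_, ?_, ?_, ?_⟩
      · intro i
        refine Fin.cases ?_ (fun i => ?_) i
        · exact hB₀m
        · exact h1 i
      · intro i
        refine Fin.cases ?_ (fun i => ?_) i
        · exact hB₀s.trans hD'D
        · exact (h2 i).trans (fun x hx => hx.1)
      · intro i
        refine Fin.cases ?_ (fun i => ?_) i
        · exact hB₀0
        · exact h3 i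
      · intro i j
        refine Fin.cases ?_ (fun i => ?_) i
        · refine Fin.cases ?_ (fun j => ?_) j
          · intro h
            exact absurd rfl h
          · intro _
            rw [Fin.cons_zero, Fin.cons_succ]
            exact Set.disjoint_left.2 fun x hx hx' => (h2 j hx').2 hx
        · refine Fin.cases ?_ (fun j => ?_) j
          · intro _
            rw [Fin.cons_zero, Fin.cons_succ]
            exact Set.disjoint_left.2 fun x hx hx' => (h2 i hx).2 hx'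
          · intro hij
            rw [Fin.cons_succ, Fin.cons_succ]
            exact h4 fun h => hij (by rw [h])
  exact key n _ hDm (hc ε hε)

theorem full3 [SigmaFinite μ] [Fact (1 ≤ p)] [Fact (1 ≤ q)] [ENNReal.HolderTriple q p 1]
    [ENNReal.HolderTriple p q 1] (hp2 : p ≠ ∞) (hq : q ≠ ∞)
    (hφ : Measurable φ) (M : ℝ) (hM0 : 0 ≤ M) (hM' : ∀ᵐ x ∂μ, ‖φ x‖ ≤ M)
    (c₁ c₂ : ℂ) (hne : c₁ ≠ c₂) (h1 : EssPt μ φ c₁) (h2 : EssPt μ φ c₂)
    (haL : MemLp a p μ) (hbL : MemLp b q μ) (hk : Ker τ a b k)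
    (T₀ : Lp ℂ p μ →L[ℂ] Lp ℂ p μ) (hT₀ : KForm μ φ k T₀)
    (g : Fin m → Lp ℂ q μ) (u : Fin m → Lp ℂ p μ) (ν : Measure ℂ) (hν : LogBd ν) :
    ∀ᵐ κ ∂ν, ∃ V : Submodule ℂ (Lp ℂ p μ), IsClosed (V : Set (Lp ℂ p μ)) ∧ V ≠ ⊥ ∧ V ≠ ⊤ ∧
      ∀ Q : Lp ℂ p μ →L[ℂ] Lp ℂ p μ, Q * TK T₀ g u κ = TK T₀ g u κ * Q → ∀ v ∈ V, Q v ∈ V := by
  have hq1 : 1 ≤ q := Fact.out
  have hp1 : 1 ≤ p := Fact.out
  obtain ⟨S₀, hS₀⟩ := exists_op (p := q) (q := p) hk.swap hbL haL hφ M hM0 hM'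
  have hdist : 0 < ‖c₁ - c₂‖ := norm_pos_iff.2 (sub_ne_zero.2 hne)
  have hB : ∀ j, Bas T₀ (fun i => fnl μ p q (g i)) (u j)
      (WX μ φ a b (u j) (fun i => (g i : Ω → ℂ))) (XS μ p φ k (u j))
      (fun i => fv μ φ k a b (u j) (g i)) := fun j => bas hk hφ haL hbL T₀ hT₀ g (u j)
  have hB' : ∀ j, Bas S₀ (fun i => fnl μ q p (u i)) (g j)
      (WX μ φ b a (g j) (fun i => (u i : Ω → ℂ))) (XS μ q φ (fun x y => k y x) (g j))
      (fun i => fv μ φ (fun x y => k y x) b a (g j) (u i)) := fun j =>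
    bas hk.swap hφ hbL haL S₀ hS₀ u (g j)
  have G1 := generic (fun j i => fv μ φ k a b (u j) (g i)) (fun j i => (hB j).fm i)
    (fun j => WX μ φ a b (u j) (fun i => (g i : Ω → ℂ))) (fun j => (hB j).Wm)
    (fun j => (hB j).W1) (fun j => (hB j).fW) (fun j => (hB j).Wl) ν hν
  have G2 := generic (fun j i => fv μ φ (fun x y => k y x) b a (g j) (u i))
    (fun j i => (hB' j).fm i)
    (fun j => WX μ φ b a (g j) (fun i => (u i : Ω → ℂ))) (fun j => (hB' j).Wm)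
    (fun j => (hB' j).W1) (fun j => (hB' j).fW) (fun j => (hB' j).Wl) ν hν
  filter_upwards [G1, G2] with κ hκ1 hκ2
  have hT₀d : Dom μ a b φ T₀ := by
    intro f
    filter_upwards [causal_of_ker hk T₀ hT₀ f] with x hx
    refine hx.trans ?_
    gcongr
    exact JJ_le _ _ x
  have hS₀d : Dom μ b a φ S₀ := by
    intro f
    filter_upwards [causal_of_ker hk.swap S₀ hS₀ f] with x hx
    refine hx.trans ?_
    gcongr
    exact JJ_le _ _ x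
  obtain ⟨a1, b1, ha10, hb10, ha1L, hb1L, hD1⟩ := dom_TK hk.a0 hk.b0 haL hbL T₀ hT₀d g u κ
  obtain ⟨a2, b2, ha20, hb20, ha2L, hb2L, hD2⟩ := dom_TK (p := q) (q := p) hk.b0 hk.a0 hbL haL
    S₀ hS₀d u g κ
  have hs1 : c₁ ∈ spectrum ℂ (TK T₀ g u κ) :=
    esspt_spec hq1 hq ha10 hb10 ha1L hb1L _ hD1 c₁ h1
  have hs2 : c₂ ∈ spectrum ℂ (TK S₀ u g κ) :=
    esspt_spec (p := q) (q := p) hp1 hp2 ha20 hb20 ha2L hb2L _ hD2 c₂ h2
  have hl1 : LocV (TK T₀ g u κ) := pert_locv T₀ (TK T₀ g u κ) (fun i => fnl μ p q (g i)) u κ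
    (TK_apply T₀ g u κ) _ _ _ hB (fun w => ⟨_, _, _, bas hk hφ haL hbL T₀ hT₀ g w⟩) hκ1
  have hl2 : LocV (TK S₀ u g κ) := pert_locv S₀ (TK S₀ u g κ) (fun i => fnl μ q p (u i)) g κ
    (TK_apply S₀ u g κ) _ _ _ hB' (fun w => ⟨_, _, _, bas hk.swap hφ hbL haL S₀ hS₀ u w⟩) hκ2
  obtain ⟨x, C₁, hx0, hx⟩ := hl1 c₁ hs1 (‖c₁ - c₂‖ / 3) (by positivity)
  obtain ⟨y, C₂, hy0, hy⟩ := hl2 c₂ hs2 (‖c₁ - c₂‖ / 3) (by positivity)
  set T : Lp ℂ p μ →L[ℂ] Lp ℂ p μ := TK T₀ g u κ with hT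
  set S : Lp ℂ q μ →L[ℂ] Lp ℂ q μ := TK S₀ u g κ with hS
  let ι : Lp ℂ q μ →L[ℂ] (Lp ℂ p μ →L[ℂ] ℂ) := (ContinuousLinearMap.mul ℂ ℂ).lpPairing μ q p
  have hι : ∀ (g : Lp ℂ q μ) (f : Lp ℂ p μ), ι g f = ∫ x, g x * f x ∂μ := by
    intro g f
    exact ContinuousLinearMap.lpPairing_eq_integral _ g f
  have hιf : ∀ (g : Lp ℂ q μ) (f : Lp ℂ p μ), fnl μ p q g f = ι g f := fun g f => rfl
  have hιf' : ∀ (g : Lp ℂ q μ) (f : Lp ℂ p μ), fnl μ q p f g = ι g f := by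
    intro g f
    rw [fnl_apply, hι]
    refine integral_congr_ae (Eventually.of_forall fun x => ?_)
    exact mul_comm _ _
  have hιS : ∀ h : Lp ℂ q μ, ad T (ι h) = ι (S h) := by
    intro h
    ext f
    rw [ad_apply2, hT, hS, TK_apply, TK_apply, map_add, map_smul, map_sum, map_add, map_smul,
      map_sum, ContinuousLinearMap.add_apply, ContinuousLinearMap.smul_apply,
      ContinuousLinearMap.sum_apply]
    have e1 : ι h (T₀ f) = ι (S₀ h) f := by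
      rw [hι, hι]
      exact pairing hk haL hbL T₀ hT₀ S₀ hS₀ h f
    rw [e1]
    congr 2
    refine Finset.sum_congr rfl fun j _ => ?_
    rw [map_smul, map_smul, ContinuousLinearMap.smul_apply, hιf, hιf', smul_eq_mul, smul_eq_mul,
      mul_comm]
  refine Pool.Agent.R277.SP.ann T c₁ c₂ (‖c₁ - c₂‖ / 3) (‖c₁ - c₂‖ / 3) C₁ (‖ι‖ * C₂)
    (fun n => ((T - c₁ • (1 : Lp ℂ p μ →L[ℂ] Lp ℂ p μ)) ^ n) x)
    (fun n => ι (((S - c₂ • (1 : Lp ℂ q μ →L[ℂ] Lp ℂ q μ)) ^ n) y))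
    (by positivity) (by positivity) (by linarith) (fun n => ?_) hx (fun n => ?_) (fun n => ?_)
    ?_ ?_
  · rw [pow_succ']
    rfl
  · rw [pow_succ', hιS]
    show ι (S (((S - c₂ • (1 : Lp ℂ q μ →L[ℂ] Lp ℂ q μ)) ^ n) y)) -
      c₂ • ι (((S - c₂ • (1 : Lp ℂ q μ →L[ℂ] Lp ℂ q μ)) ^ n) y) =
      ι ((S - c₂ • (1 : Lp ℂ q μ →L[ℂ] Lp ℂ q μ))
        (((S - c₂ • (1 : Lp ℂ q μ →L[ℂ] Lp ℂ q μ)) ^ n) y))
    rw [← map_smul, ← map_sub]
    rfl
  · refine (ι.le_opNorm _).trans ?_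
    rw [mul_assoc]
    exact mul_le_mul_of_nonneg_left (hy n) (norm_nonneg _)
  · simpa using hx0
  · intro h0
    apply hy0
    refine pair_inj (p := p) hq y fun f => ?_
    rw [← hι]
    have h3 : ι y = 0 := by simpa using h0
    rw [h3]
    rfl

end Pool.Agent.U555.VM
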