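import Pool.Agent.U555.VM.Eig

/-!
# Hyperinvariant subspaces: multiplication operators plus dominated causal kernels, all measures
-/

set_option autoImplicit false

open MeasureTheory Set Filter Topology Metric
open scoped ENNReal
open Pool.Agent.R277.SP (LocV ad ad_apply2)

namespace Pool.Agent.U555.VM

variable {Ω : Type} [MeasurableSpace Ω] {μ : Measure Ω} {τ : Ω → ℝ} {p q : ℝ≥0∞}

theorem full2 [SigmaFinite μ] [Fact (1 ≤ p)] (hp1 : 1 < p) (hp2 : p ≠ ∞)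
    (hpq : p⁻¹ + q⁻¹ = 1)
    (φ : Ω → ℂ) (hφ : Measurable φ) (M : ℝ) (hM0 : 0 ≤ M) (hM' : ∀ᵐ x ∂μ, ‖φ x‖ ≤ M)
    (a b : Ω → ℝ) (haL : MemLp a p μ) (hbL : MemLp b q μ)
    (k : Ω → Ω → ℂ) (hk : Ker τ a b k) :
    (∃ T : Lp ℂ p μ →L[ℂ] Lp ℂ p μ, KForm μ φ k T) ∧
    ∀ T : Lp ℂ p μ →L[ℂ] Lp ℂ p μ, KForm μ φ k T →
    spectrum ℂ T = {c | ∀ ε : ℝ, 0 < ε → μ {x | ‖φ x - c‖ < ε} ≠ 0} ∧
    ((∃ c : ℂ, ∀ᵐ x ∂μ, φ x = c) ∨
    ∃ V : Submodule ℂ (Lp ℂ p μ), IsClosed (V : Set (Lp ℂ p μ)) ∧ V ≠ ⊥ ∧ V ≠ ⊤ ∧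
      ∀ Q : Lp ℂ p μ →L[ℂ] Lp ℂ p μ, Q * T = T * Q → ∀ v ∈ V, Q v ∈ V) := by
  have hHT : ENNReal.HolderTriple q p 1 := ⟨by rw [add_comm, hpq, inv_one]⟩
  have hHT' : ENNReal.HolderTriple p q 1 := ⟨by rw [hpq, inv_one]⟩
  have hq : q ≠ ∞ := by
    rintro rfl
    rw [ENNReal.inv_top, add_zero, ENNReal.inv_eq_one] at hpq
    exact hp1.ne' hpq
  have hq1 : 1 ≤ q := by
    have h1 : q⁻¹ ≤ 1 := by
      rw [← hpq]
      exact le_add_self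
    rwa [ENNReal.inv_le_one] at h1
  have : Fact (1 ≤ q) := ⟨hq1⟩
  refine ⟨exists_op hk haL hbL hφ M hM0 hM', fun T hTk => ⟨?_, ?_⟩⟩
  · apply Subset.antisymm
    · intro c hc
      by_contra hcon
      have h1 : ∃ ε : ℝ, 0 < ε ∧ μ {x | ‖φ x - c‖ < ε} = 0 := by
        by_contra h
        push Not at h
        exact hcon h
      obtain ⟨ε, hε, h2⟩ := h1
      refine hc (resolvent_le hk.time a b hk.ma hk.mb hk.a0 hk.b0 haL hbL φ hφ M hM0 hM' T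
        (causal_of_ker hk T hTk) c ε hε ?_).1
      filter_upwards [measure_eq_zero_iff_ae_notMem.1 h2] with x hx
      rw [norm_sub_rev]
      exact not_lt.1 hx
    · intro c hc
      exact ess_spec hq1 hq hk haL hbL hφ M hM0 hM' T hTk c hc
  by_cases hconst : ∃ c : ℂ, ∀ᵐ x ∂μ, φ x = c
  · exact Or.inl hconst
  right
  -- the transposed operator
  obtain ⟨S, hS⟩ := exists_op (p := q) (q := p) hk.swap hbL haL hφ M hM0 hM'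
  obtain ⟨c₁, c₂, hne, h1, h2⟩ := two_values φ hφ hconst
  have hs1 : c₁ ∈ spectrum ℂ T := ess_spec hq1 hq hk haL hbL hφ M hM0 hM' T hTk c₁ h1
  have hs2 : c₂ ∈ spectrum ℂ S := ess_spec (p := q) (q := p) hp1.le hp2 hk.swap hbL haL hφ
    M hM0 hM' S hS c₂ h2
  have hdist : 0 < ‖c₁ - c₂‖ := norm_pos_iff.2 (sub_ne_zero.2 hne)
  obtain ⟨x, C₁, hx0, hx⟩ := locv hk hφ haL hbL T hTk c₁ hs1 (‖c₁ - c₂‖ / 3) (by positivity)
  obtain ⟨y, C₂, hy0, hy⟩ := locv (p := q) (q := p) hk.swap hφ hbL haL S hS c₂ hs2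
    (‖c₁ - c₂‖ / 3) (by positivity)
  -- the functionals
  let ι : Lp ℂ q μ →L[ℂ] (Lp ℂ p μ →L[ℂ] ℂ) := (ContinuousLinearMap.mul ℂ ℂ).lpPairing μ q p
  have hι : ∀ (g : Lp ℂ q μ) (f : Lp ℂ p μ), ι g f = ∫ x, g x * f x ∂μ := by
    intro g f
    exact ContinuousLinearMap.lpPairing_eq_integral _ g f
  have hιS : ∀ g : Lp ℂ q μ, ad T (ι g) = ι (S g) := by
    intro g
    ext f
    rw [ad_apply2, hι, hι]
    exact pairing hk haL hbL T hTk S hS g f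
  refine Pool.Agent.R277.SP.ann T c₁ c₂ (‖c₁ - c₂‖ / 3) (‖c₁ - c₂‖ / 3) C₁ (‖ι‖ * C₂)
    (fun n => ((T - c₁ • (1 : Lp ℂ p μ →L[ℂ] Lp ℂ p μ)) ^ n) x)
    (fun n => ι (((S - c₂ • (1 : Lp ℂ q μ →L[ℂ] Lp ℂ q μ)) ^ n) y))
    (by positivity) (by positivity) (by linarith) (fun n => ?_) hx (fun n => ?_) (fun n => ?_)
    ?_ ?_
  · rw [pow_succ']
    rfl
  · rw [pow_succ', hιS]
    show ι (S (((S - c₂ • (1 : Lp ℂ q μ →L[ℂ] Lp ℂ q μ)) ^ n) y)) -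
      c₂ • ι (((S - c₂ • (1 : Lp ℂ q μ →L[ℂ] Lp ℂ q μ)) ^ n) y) =
      ι ((S - c₂ • (1 : Lp ℂ q μ →L[ℂ] Lp ℂ q μ))
        (((S - c₂ • (1 : Lp ℂ q μ →L[ℂ] Lp ℂ q μ)) ^ n) y))
    rw [← map_smul, ← map_sub]
    rfl
  · refine (ι.le_opNorm _).trans ?_
    rw [mul_assoc]
    exact mul_le_mul_of_nonneg_left (hy n) (norm_nonneg _)
  · simpa using hx0
  · intro h0
    apply hy0
    refine pair_inj (p := p) hq y fun f => ?_
    rw [← hι]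
    have h3 : ι y = 0 := by simpa using h0
    rw [h3]
    rfl

end Pool.Agent.U555.VM
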