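import Pool.Agent.U555.VM.Tr

/-!
# Functionals on the averages of the local resolvent
-/

set_option autoImplicit false

open MeasureTheory Set Filter Topology Metric
open scoped ENNReal

namespace Pool.Agent.U555.VM

variable {Ω : Type} [MeasurableSpace Ω] {μ : Measure Ω} {τ : Ω → ℝ} {p q : ℝ≥0∞}
variable {a b : Ω → ℝ} {k : Ω → Ω → ℂ} {φ u v : Ω → ℂ} {c : ℂ} {ρ C : ℝ} {h : ℂ → ℂ}

/-- the potential of `|v| |u|` and `|v| a` -/
noncomputable def VP (μ : Measure Ω) (φ v : Ω → ℂ) (g : Ω → ℝ) (z : ℂ) : ℝ≥0∞ :=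
  ∫⁻ x, (‖v x‖ₑ * ENNReal.ofReal (g x)) * ‖(z - φ x)⁻¹‖ₑ ∂μ

theorem VP_meas [SFinite μ] (hφ : Measurable φ) (hv : Measurable v) {g : Ω → ℝ}
    (hg : Measurable g) : Measurable (VP μ φ v g) := by
  have h0 : Measurable fun w : ℂ × Ω => (w.1 - φ w.2)⁻¹ :=
    (measurable_fst.sub (hφ.comp measurable_snd)).inv
  have h1 : Measurable fun w : ℂ × Ω => (‖v w.2‖ₑ * ENNReal.ofReal (g w.2)) *
      ‖(w.1 - φ w.2)⁻¹‖ₑ :=
    (((hv.comp measurable_snd).enorm).mul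
      (ENNReal.measurable_ofReal.comp (hg.comp measurable_snd))).mul h0.enorm
  exact h1.lintegral_prod_right' (ν := μ)

/-- the pairing of `v` with the terms -/
noncomputable def gn (μ : Measure Ω) (φ : Ω → ℂ) (k : Ω → Ω → ℂ) (u v : Ω → ℂ) (n : ℕ) (z : ℂ) : ℂ :=
  ∫ x, v x * FF μ φ k u n z x ∂μ

theorem gn_meas [SFinite μ] (hk : Ker τ a b k) (hφ : Measurable φ) (hu : Measurable u)
    (hv : Measurable v) (n : ℕ) : Measurable (gn μ φ k u v n) := by
  have h1 : Measurable fun w : ℂ × Ω => v w.2 * FF μ φ k u n w.1 w.2 :=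
    (hv.comp measurable_snd).mul (FF_meas (μ := μ) hk hφ hu n)
  exact (h1.stronglyMeasurable.integral_prod_right' (ν := μ)).measurable

/-- good points -/
def GoodZ (μ : Measure Ω) (φ : Ω → ℂ) (a b : Ω → ℝ) (u v : Ω → ℂ) (z : ℂ) : Prop :=
  KK μ φ a b z ≠ ∞ ∧ BB μ φ b u z ≠ ∞ ∧ VP μ φ v (fun x => ‖u x‖) z ≠ ∞ ∧ VP μ φ v a z ≠ ∞

/-- the bound of the pairing -/
noncomputable def VB (μ : Measure Ω) (φ : Ω → ℂ) (a b : Ω → ℝ) (u v : Ω → ℂ) (z : ℂ) : ℝ :=
  (VP μ φ v (fun x => ‖u x‖) z).toReal + 2 * (VP μ φ v a z).toReal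

theorem gn_zero (z : ℂ) : ‖gn μ φ k u v 0 z‖ₑ ≤ VP μ φ v (fun x => ‖u x‖) z := by
  unfold gn
  refine (enorm_integral_le_lintegral_enorm _).trans (le_of_eq ?_)
  refine lintegral_congr fun x => ?_
  change ‖v x * ((z - φ x)⁻¹ * u x)‖ₑ = _
  rw [enorm_mul, enorm_mul, ofReal_norm]
  ring

theorem gn_succ (hk : Ker τ a b k) (hφ : Measurable φ) {z : ℂ} (hz : GoodZ μ φ a b u v z) (n : ℕ) :
    ‖gn μ φ k u v (n + 1) z‖ₑ ≤
      ENNReal.ofReal ((1 / 2 : ℝ) ^ n * WW μ φ a b u z) * VP μ φ v a z := by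
  unfold gn
  refine (enorm_integral_le_lintegral_enorm _).trans ?_
  unfold VP
  rw [← lintegral_const_mul' _ _ ENNReal.ofReal_ne_top]
  refine lintegral_mono fun x => ?_
  rw [enorm_mul]
  have hW0 : 0 ≤ WW μ φ a b u z := zero_le_one.trans (one_le_WW z)
  calc ‖v x‖ₑ * ‖FF μ φ k u (n + 1) z x‖ₑ
      ≤ ‖v x‖ₑ * (‖(z - φ x)⁻¹‖ₑ * ENNReal.ofReal (a x * (1 / 2 : ℝ) ^ n * WW μ φ a b u z)) := by
        gcongr
        exact FF_le' hk hφ hz.1 hz.2.1 n x
    _ = ENNReal.ofReal ((1 / 2 : ℝ) ^ n * WW μ φ a b u z) *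
        ((‖v x‖ₑ * ENNReal.ofReal (a x)) * ‖(z - φ x)⁻¹‖ₑ) := by
        rw [mul_assoc (a x), ENNReal.ofReal_mul (hk.a0 x)]
        ring

theorem gn_real (hk : Ker τ a b k) (hφ : Measurable φ) {z : ℂ} (hz : GoodZ μ φ a b u v z)
    (n : ℕ) : ‖gn μ φ k u v (n + 1) z‖ ≤
      (1 / 2 : ℝ) ^ n * (WW μ φ a b u z * (VP μ φ v a z).toReal) := by
  have h1 := gn_succ hk hφ hz n
  have hW0 : 0 ≤ WW μ φ a b u z := zero_le_one.trans (one_le_WW z)
  have h2 := ENNReal.toReal_mono (ENNReal.mul_lt_top ENNReal.ofReal_lt_top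
    (lt_top_iff_ne_top.2 hz.2.2.2)).ne h1
  rw [toReal_enorm, ENNReal.toReal_mul, ENNReal.toReal_ofReal (by positivity)] at h2
  rw [← mul_assoc]
  exact h2

theorem gn_real0 {z : ℂ} (hz : GoodZ μ φ a b u v z) :
    ‖gn μ φ k u v 0 z‖ ≤ (VP μ φ v (fun x => ‖u x‖) z).toReal := by
  have h2 := ENNReal.toReal_mono hz.2.2.1 (gn_zero (μ := μ) (φ := φ) (k := k) (u := u) (v := v) z)
  rwa [toReal_enorm] at h2

theorem gn_summable (hk : Ker τ a b k) (hφ : Measurable φ) {z : ℂ}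
    (hz : GoodZ μ φ a b u v z) : Summable fun n => ‖gn μ φ k u v n z‖ := by
  rw [← summable_nat_add_iff 1]
  refine Summable.of_nonneg_of_le (fun n => norm_nonneg _) (fun n => gn_real hk hφ hz n) ?_
  exact (summable_geometric_of_lt_one (by norm_num) (by norm_num)).mul_right _

open Classical in
/-- the value of the functional `v` on the local resolvent of `u` -/
noncomputable def fv (μ : Measure Ω) (φ : Ω → ℂ) (k : Ω → Ω → ℂ) (a b : Ω → ℝ) (u v : Ω → ℂ)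
    (z : ℂ) : ℂ :=
  if GoodZ μ φ a b u v z then ∑' n, gn μ φ k u v n z else 0

theorem goodZ_meas [SFinite μ] (hk : Ker τ a b k) (hφ : Measurable φ) (hu : Measurable u)
    (hv : Measurable v) : MeasurableSet {z | GoodZ μ φ a b u v z} := by
  have h1 : MeasurableSet {z | KK μ φ a b z ≠ ∞} :=
    (KK_meas hk.ma hk.mb hφ) (measurableSet_singleton ∞).compl
  have h2 : MeasurableSet {z | BB μ φ b u z ≠ ∞} :=
    (BB_meas hk.mb hφ hu) (measurableSet_singleton ∞).compl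
  have h3 : MeasurableSet {z | VP μ φ v (fun x => ‖u x‖) z ≠ ∞} :=
    (VP_meas hφ hv hu.norm) (measurableSet_singleton ∞).compl
  have h4 : MeasurableSet {z | VP μ φ v a z ≠ ∞} :=
    (VP_meas hφ hv hk.ma) (measurableSet_singleton ∞).compl
  exact h1.inter (h2.inter (h3.inter h4))

theorem fv_meas [SFinite μ] (hk : Ker τ a b k) (hφ : Measurable φ) (hu : Measurable u)
    (hv : Measurable v) : Measurable (fv μ φ k a b u v) := by
  classical
  have h1 : ∀ N : ℕ, Measurable fun z => if GoodZ μ φ a b u v z then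
      ∑ n ∈ Finset.range N, gn μ φ k u v n z else 0 := fun N =>
    Measurable.ite (goodZ_meas hk hφ hu hv)
      (Finset.measurable_sum _ fun n _ => gn_meas hk hφ hu hv n) measurable_const
  refine measurable_of_tendsto_metrizable h1 ?_
  rw [tendsto_pi_nhds]
  intro z
  unfold fv
  by_cases hz : GoodZ μ φ a b u v z
  · simp only [if_pos hz]
    exact (gn_summable hk hφ hz).of_norm.hasSum.tendsto_sum_nat
  · simp only [if_neg hz]
    exact tendsto_const_nhds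

theorem fv_le (hk : Ker τ a b k) (hφ : Measurable φ) (z : ℂ) :
    ‖fv μ φ k a b u v z‖ ≤ WW μ φ a b u z * VB μ φ a b u v z := by
  classical
  have hW1 : 1 ≤ WW μ φ a b u z := one_le_WW z
  have hV0 : 0 ≤ (VP μ φ v (fun x => ‖u x‖) z).toReal := ENNReal.toReal_nonneg
  have hV1 : 0 ≤ (VP μ φ v a z).toReal := ENNReal.toReal_nonneg
  unfold fv
  split_ifs with hz
  · have hs := gn_summable hk hφ hz
    have h1 : ‖∑' n, gn μ φ k u v n z‖ ≤ ∑' n, ‖gn μ φ k u v n z‖ := norm_tsum_le_tsum_norm hs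
    have h2 : ∑' n, ‖gn μ φ k u v n z‖ = ‖gn μ φ k u v 0 z‖ + ∑' n, ‖gn μ φ k u v (n + 1) z‖ :=
      hs.tsum_eq_zero_add
    have hgeo : Summable fun n : ℕ => (1 / 2 : ℝ) ^ n * (WW μ φ a b u z * (VP μ φ v a z).toReal) :=
      (summable_geometric_of_lt_one (by norm_num) (by norm_num)).mul_right _
    have h3 : ∑' n, ‖gn μ φ k u v (n + 1) z‖ ≤
        ∑' n : ℕ, (1 / 2 : ℝ) ^ n * (WW μ φ a b u z * (VP μ φ v a z).toReal) :=
      Summable.tsum_le_tsum (fun n => gn_real hk hφ hz n) ((summable_nat_add_iff 1).2 hs) hgeo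
    rw [tsum_mul_right, tsum_geometric_two] at h3
    have h4 := gn_real0 (k := k) hz
    unfold VB
    nlinarith
  · rw [norm_zero]
    unfold VB
    positivity

end Pool.Agent.U555.VM
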