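import Pool.Agent.U555.VM.Gf
import Pool.Agent.U555.VM.Ab

/-!
# The base operator
-/

set_option autoImplicit false

open MeasureTheory Set Filter Topology Metric
open scoped ENNReal

namespace Pool.Agent.U555.VM

variable {Ω : Type} [MeasurableSpace Ω] {μ : Measure Ω} {τ : Ω → ℝ} {p q : ℝ≥0∞}
variable {a b : Ω → ℝ} {k : Ω → Ω → ℂ} {φ u v : Ω → ℂ} {c : ℂ} {ρ C : ℝ} {h : ℂ → ℂ}

theorem vg_le [ENNReal.HolderTriple q p 1] (hvL : MemLp v q μ) {g : Ω → ℝ} (hg0 : ∀ x, 0 ≤ g x)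
    (hgL : MemLp g p μ) :
    ∫⁻ y, ‖v y‖ₑ * ENNReal.ofReal (g y) ∂μ ≤ eLpNorm v q μ * eLpNorm g p μ := by
  have h1 := holder_ab g (fun y => ‖v y‖) hg0 (fun y => norm_nonneg _) hvL.norm hgL
  simp only [ofReal_norm, eLpNorm_norm] at h1
  exact h1

theorem goodZ_ae [SFinite μ] [ENNReal.HolderTriple q p 1] (L : Dat μ τ p q a b k φ u)
    (hv : Measurable v) (hvL : MemLp v q μ) : ∀ᵐ z : ℂ, GoodZ μ φ a b u v z := by
  have h1 := good_ae L.hk L.hφ L.hu L.haL L.hbL L.huL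
  have h2 := pot_ae (μ := μ) φ L.hφ (fun x => ‖v x‖ₑ * ENNReal.ofReal ‖u x‖)
    (hv.enorm.mul (ENNReal.measurable_ofReal.comp L.hu.norm))
    (lt_of_le_of_lt (vg_le hvL (fun x => norm_nonneg _) L.huL.norm)
      (ENNReal.mul_lt_top hvL.2 L.huL.norm.2)).ne
  have h3 := pot_ae (μ := μ) φ L.hφ (fun x => ‖v x‖ₑ * ENNReal.ofReal (a x))
    (hv.enorm.mul (ENNReal.measurable_ofReal.comp L.hk.ma))
    (lt_of_le_of_lt (vg_le hvL L.hk.a0 L.haL) (ENNReal.mul_lt_top hvL.2 L.haL.2)).ne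
  filter_upwards [h1, h2, h3] with z hz1 hz2 hz3
  exact ⟨hz1.1, hz1.2, hz2, hz3⟩

/-- the pairing with the terms -/
theorem pair_n [SFinite μ] [ENNReal.HolderTriple q p 1] (L : Dat μ τ p q a b k φ u)
    (hv : Measurable v) (hvL : MemLp v q μ) (hρ : 0 ≤ ρ) (H : Adm (WW μ φ a b u) c ρ C h)
    (n : ℕ) : Integrable (fun z => h z * gn μ φ k u v n z) ∧
      (∫ z, ‖h z * gn μ φ k u v n z‖ ≤ C * PP ρ * ((eLpNorm v q μ).toReal * gg μ p a u n)) ∧
      ∫ x, v x * XX μ φ k u n h x ∂μ = ∫ z, h z * gn μ φ k u v n z := by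
  have hk := L.hk
  have hg := good_ae L.hk L.hφ L.hu L.haL L.hbL L.huL
  have hCP : 0 ≤ C * PP ρ := mul_nonneg (C_nonneg H) (PP_pos hρ).le
  have hm : Measurable fun w : ℂ × Ω => h w.1 * (v w.2 * FF μ φ k u n w.1 w.2) :=
    (H.meas.comp measurable_fst).mul ((hv.comp measurable_snd).mul
      (FF_meas (μ := μ) hk L.hφ L.hu n))
  have hfin : ∫⁻ y, ‖v y‖ₑ * ENNReal.ofReal (GG a u n y) ∂μ ≤ eLpNorm v q μ *
      eLpNorm (GG a u n) p μ := vg_le hvL (GG_nonneg hk.a0 n) (GG_mem L.haL L.huL n)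
  have hbd : ∫⁻ w, ‖h w.1 * (v w.2 * FF μ φ k u n w.1 w.2)‖ₑ ∂((volume : Measure ℂ).prod μ) ≤
      ENNReal.ofReal (C * PP ρ) * (eLpNorm v q μ * eLpNorm (GG a u n) p μ) := by
    rw [lintegral_prod_symm _ hm.enorm.aemeasurable]
    have h1 : ∀ y : Ω, ∫⁻ z, ‖h z * (v y * FF μ φ k u n z y)‖ₑ ≤
        ENNReal.ofReal (C * PP ρ) * (‖v y‖ₑ * ENNReal.ofReal (GG a u n y)) := by
      intro y
      calc ∫⁻ z, ‖h z * (v y * FF μ φ k u n z y)‖ₑ
          = ∫⁻ z, ‖v y‖ₑ * (‖h z‖ₑ * ‖FF μ φ k u n z y‖ₑ) := by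
            refine lintegral_congr fun z => ?_
            rw [enorm_mul, enorm_mul]
            ring
        _ = ‖v y‖ₑ * ∫⁻ z, ‖h z‖ₑ * ‖FF μ φ k u n z y‖ₑ := by
            rw [lintegral_const_mul' _ _ enorm_ne_top]
        _ ≤ ‖v y‖ₑ * ENNReal.ofReal (C * PP ρ * GG a u n y) := by
            gcongr
            exact lint_le hk L.hφ hg hρ H n y
        _ = _ := by
            rw [ENNReal.ofReal_mul hCP]
            ring
    refine (lintegral_mono h1).trans ?_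
    rw [lintegral_const_mul' _ _ ENNReal.ofReal_ne_top]
    gcongr
  have hlt : ENNReal.ofReal (C * PP ρ) * (eLpNorm v q μ * eLpNorm (GG a u n) p μ) < ∞ :=
    ENNReal.mul_lt_top ENNReal.ofReal_lt_top
      (ENNReal.mul_lt_top hvL.2 (GG_mem L.haL L.huL n).2)
  have hint : Integrable (fun w : ℂ × Ω => h w.1 * (v w.2 * FF μ φ k u n w.1 w.2))
      ((volume : Measure ℂ).prod μ) := by
    refine ⟨hm.aestronglyMeasurable, ?_⟩
    rw [hasFiniteIntegral_iff_enorm]
    exact lt_of_le_of_lt hbd hlt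
  have h4 : ∀ z, ∫ y, h z * (v y * FF μ φ k u n z y) ∂μ = h z * gn μ φ k u v n z :=
    fun z => integral_const_mul _ _
  have hi : Integrable (fun z => h z * gn μ φ k u v n z) := by
    have h5 := hint.integral_prod_left
    simp only [h4] at h5
    exact h5
  refine ⟨hi, ?_, ?_⟩
  · have h6 : ∫⁻ z, ‖h z * gn μ φ k u v n z‖ₑ ≤
        ENNReal.ofReal (C * PP ρ) * (eLpNorm v q μ * eLpNorm (GG a u n) p μ) := by
      refine le_trans ?_ hbd
      rw [lintegral_prod _ hm.enorm.aemeasurable]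
      refine lintegral_mono fun z => ?_
      rw [← h4]
      exact enorm_integral_le_lintegral_enorm _
    have h7 := ENNReal.toReal_mono hlt.ne h6
    rw [ENNReal.toReal_mul, ENNReal.toReal_mul, ENNReal.toReal_ofReal hCP] at h7
    rw [integral_norm_eq_lintegral_enorm hi.1]
    exact h7
  · have h5 := integral_integral_swap (f := fun z y => h z * (v y * FF μ φ k u n z y)) hint
    simp only [h4] at h5
    rw [h5]
    refine integral_congr_ae (Eventually.of_forall fun y => ?_)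
    show v y * XX μ φ k u n h y = ∫ z, h z * (v y * FF μ φ k u n z y)
    unfold XX
    rw [← integral_const_mul]
    refine integral_congr_ae (Eventually.of_forall fun z => ?_)
    show v y * (h z * FF μ φ k u n z y) = h z * (v y * FF μ φ k u n z y)
    ring

/-- the functional given by `g` -/
noncomputable def fnl (μ : Measure Ω) (p q : ℝ≥0∞) [Fact (1 ≤ p)] [Fact (1 ≤ q)]
    [ENNReal.HolderTriple q p 1] (g : Lp ℂ q μ) : Lp ℂ p μ →L[ℂ] ℂ :=
  (ContinuousLinearMap.mul ℂ ℂ).lpPairing μ q p g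

theorem fnl_apply [Fact (1 ≤ p)] [Fact (1 ≤ q)] [ENNReal.HolderTriple q p 1] (g : Lp ℂ q μ)
    (f : Lp ℂ p μ) : fnl μ p q g f = ∫ x, g x * f x ∂μ :=
  ContinuousLinearMap.lpPairing_eq_integral _ g f

/-- the pairing with the averages -/
theorem pair_S [Fact (1 ≤ p)] [Fact (1 ≤ q)] [SFinite μ] [ENNReal.HolderTriple q p 1]
    (L : Dat μ τ p q a b k φ u) (g : Lp ℂ q μ) (hρ : 0 ≤ ρ)
    (H : Adm (WW μ φ a b u) c ρ C h) :
    fnl μ p q g (XS μ p φ k u h) = ∫ z, h z * fv μ φ k a b u g z := by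
  have hv : Measurable (g : Ω → ℂ) := (Lp.stronglyMeasurable g).measurable
  have hvL : MemLp (g : Ω → ℂ) q μ := Lp.memLp g
  have hg := good_ae L.hk L.hφ L.hu L.haL L.hbL L.huL
  have h1 : HasSum (fun n => fnl μ p q g (XV μ p φ k u n h)) (fnl μ p q g (XS μ p φ k u h)) :=
    (XV_sum L hρ H).hasSum.mapL _
  have h2 : ∀ n, fnl μ p q g (XV μ p φ k u n h) = ∫ z, h z * gn μ φ k u g n z := by
    intro n
    rw [fnl_apply, ← (pair_n L hv hvL hρ H n).2.2]
    refine integral_congr_ae ?_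
    filter_upwards [cls_coe (XX_mem L.hk L.hφ L.hu L.haL L.huL hg hρ H n)] with x hx
    have h3 : (XV μ p φ k u n h : Lp ℂ p μ) x = XX μ φ k u n h x := hx
    rw [h3]
  have h3 := hasSum_integral_of_summable_integral_norm (F := fun n z => h z * gn μ φ k u g n z)
    (fun n => (pair_n L hv hvL hρ H n).1)
    (Summable.of_nonneg_of_le (fun n => integral_nonneg fun z => norm_nonneg _)
      (fun n => (pair_n L hv hvL hρ H n).2.1)
      ((gg_summable.mul_left _).mul_left _))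
  simp only [h2] at h1
  rw [h1.unique h3]
  refine integral_congr_ae ?_
  filter_upwards [goodZ_ae L hv hvL] with z hz
  unfold fv
  rw [if_pos hz, tsum_mul_left]

end Pool.Agent.U555.VM
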