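import Pool.Agent.U555.VM.Op

/-!
# Local resolvents of multiplication operators with a causal kernel, point by point
-/

set_option autoImplicit false

open MeasureTheory Set Filter Topology
open scoped ENNReal

namespace Pool.Agent.U555.VM

variable {Ω : Type} [MeasurableSpace Ω] {μ : Measure Ω} {τ : Ω → ℝ} {p q : ℝ≥0∞}

/-- a causal kernel dominated by `a ⊗ b` -/
structure Ker (τ : Ω → ℝ) (a b : Ω → ℝ) (k : Ω → Ω → ℂ) : Prop where
  time : Measurable τ
  ma : Measurable a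
  mb : Measurable b
  a0 : ∀ x, 0 ≤ a x
  b0 : ∀ x, 0 ≤ b x
  meas : Measurable (Function.uncurry k)
  bd : ∀ x y, ‖k x y‖ ≤ a x * b y
  caus : ∀ x y, τ x ≤ τ y → k x y = 0

/-- the terms of the Neumann series of the local resolvent -/
noncomputable def FF (μ : Measure Ω) (φ : Ω → ℂ) (k : Ω → Ω → ℂ) (u : Ω → ℂ) : ℕ → ℂ → Ω → ℂ
  | 0 => fun z x => (z - φ x)⁻¹ * u x
  | n + 1 => fun z x => (z - φ x)⁻¹ * ∫ y, k x y * FF μ φ k u n z y ∂μ

/-- the potential of `b |u|` -/
noncomputable def BB (μ : Measure Ω) (φ : Ω → ℂ) (b : Ω → ℝ) (u : Ω → ℂ) (z : ℂ) : ℝ≥0∞ :=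
  ∫⁻ y, ENNReal.ofReal (b y) * (‖(z - φ y)⁻¹‖ₑ * ‖u y‖ₑ) ∂μ

/-- the potential of `a b` -/
noncomputable def KK (μ : Measure Ω) (φ : Ω → ℂ) (a b : Ω → ℝ) (z : ℂ) : ℝ≥0∞ :=
  ∫⁻ y, ENNReal.ofReal (b y) * (‖(z - φ y)⁻¹‖ₑ * ENNReal.ofReal (a y)) ∂μ

/-- the weight -/
noncomputable def WW (μ : Measure Ω) (φ : Ω → ℂ) (a b : Ω → ℝ) (u : Ω → ℂ) (z : ℂ) : ℝ :=
  (1 + (BB μ φ b u z).toReal) * Real.exp (2 * (KK μ φ a b z).toReal)

variable {a b : Ω → ℝ} {k : Ω → Ω → ℂ} {φ u : Ω → ℂ}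

theorem FF_meas [SFinite μ] (hk : Ker τ a b k) (hφ : Measurable φ) (hu : Measurable u) (n : ℕ) :
    Measurable (fun w : ℂ × Ω => FF μ φ k u n w.1 w.2) := by
  have h0 : Measurable fun w : ℂ × Ω => (w.1 - φ w.2)⁻¹ :=
    (measurable_fst.sub (hφ.comp measurable_snd)).inv
  induction n with
  | zero => exact h0.mul (hu.comp measurable_snd)
  | succ n ih =>
    have h1 : Measurable fun v : (ℂ × Ω) × Ω => k v.1.2 v.2 * FF μ φ k u n v.1.1 v.2 := by
      have h2 : Measurable fun v : (ℂ × Ω) × Ω => k v.1.2 v.2 :=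
        hk.meas.comp ((measurable_snd.comp measurable_fst).prodMk measurable_snd)
      have h3 : Measurable fun v : (ℂ × Ω) × Ω => FF μ φ k u n v.1.1 v.2 :=
        ih.comp ((measurable_fst.comp measurable_fst).prodMk measurable_snd)
      exact h2.mul h3
    have h4 : Measurable fun w : ℂ × Ω => ∫ y, k w.2 y * FF μ φ k u n w.1 y ∂μ :=
      (h1.stronglyMeasurable.integral_prod_right' (ν := μ)).measurable
    exact h0.mul h4

theorem BB_meas [SFinite μ] (hb : Measurable b) (hφ : Measurable φ) (hu : Measurable u) :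
    Measurable (BB μ φ b u) := by
  have h0 : Measurable fun w : ℂ × Ω => (w.1 - φ w.2)⁻¹ :=
    (measurable_fst.sub (hφ.comp measurable_snd)).inv
  have h1 : Measurable fun w : ℂ × Ω => ENNReal.ofReal (b w.2) *
      (‖(w.1 - φ w.2)⁻¹‖ₑ * ‖u w.2‖ₑ) :=
    (ENNReal.measurable_ofReal.comp (hb.comp measurable_snd)).mul
      (h0.enorm.mul (hu.comp measurable_snd).enorm)
  exact h1.lintegral_prod_right' (ν := μ)

theorem KK_meas [SFinite μ] (ha : Measurable a) (hb : Measurable b) (hφ : Measurable φ) :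
    Measurable (KK μ φ a b) := by
  have h0 : Measurable fun w : ℂ × Ω => (w.1 - φ w.2)⁻¹ :=
    (measurable_fst.sub (hφ.comp measurable_snd)).inv
  have h1 : Measurable fun w : ℂ × Ω => ENNReal.ofReal (b w.2) *
      (‖(w.1 - φ w.2)⁻¹‖ₑ * ENNReal.ofReal (a w.2)) :=
    (ENNReal.measurable_ofReal.comp (hb.comp measurable_snd)).mul
      (h0.enorm.mul (ENNReal.measurable_ofReal.comp (ha.comp measurable_snd)))
  exact h1.lintegral_prod_right' (ν := μ)

theorem WW_meas [SFinite μ] (ha : Measurable a) (hb : Measurable b) (hφ : Measurable φ)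
    (hu : Measurable u) : Measurable (WW μ φ a b u) := by
  have h1 := (BB_meas (μ := μ) hb hφ hu).ennreal_toReal
  have h2 := (KK_meas (μ := μ) ha hb hφ).ennreal_toReal
  exact (h1.const_add 1).mul (Real.measurable_exp.comp (h2.const_mul 2))

theorem one_le_WW (z : ℂ) : 1 ≤ WW μ φ a b u z := by
  unfold WW
  have h1 : (0:ℝ) ≤ (BB μ φ b u z).toReal := ENNReal.toReal_nonneg
  have h2 : (1:ℝ) ≤ Real.exp (2 * (KK μ φ a b z).toReal) :=
    Real.one_le_exp (mul_nonneg zero_le_two ENNReal.toReal_nonneg)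
  nlinarith

/-- the bound of the kernel operator -/
theorem kint_le (hk : Ker τ a b k) (f : Ω → ℂ) (x : Ω) :
    ‖∫ y, k x y * f y ∂μ‖ₑ ≤
      ENNReal.ofReal (a x) * JJ μ τ (fun y => ENNReal.ofReal (b y)) f x := by
  refine (enorm_integral_le_lintegral_enorm _).trans ?_
  unfold JJ
  rw [← lintegral_const_mul' _ _ ENNReal.ofReal_ne_top, ← lintegral_indicator
    (measurableSet_lt hk.time measurable_const)]
  refine lintegral_mono fun y => ?_
  by_cases hy : τ y < τ x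
  · have hmem : y ∈ ({y | τ y < τ x} : Set Ω) := hy
    have hind : ({y | τ y < τ x} : Set Ω).indicator
        (fun y => ENNReal.ofReal (a x) * (ENNReal.ofReal (b y) * ‖f y‖ₑ)) y =
        ENNReal.ofReal (a x) * (ENNReal.ofReal (b y) * ‖f y‖ₑ) := Set.indicator_of_mem hmem _
    rw [hind, enorm_mul, ← mul_assoc, ← ENNReal.ofReal_mul (hk.a0 x)]
    gcongr
    rw [← ofReal_norm]
    exact ENNReal.ofReal_le_ofReal (hk.bd x y)
  · rw [hk.caus x y (not_lt.1 hy), zero_mul, enorm_zero]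
    exact zero_le

/-- the pointwise bound of the terms -/
theorem FF_le (hk : Ker τ a b k) (hφ : Measurable φ) {z : ℂ} (hz : KK μ φ a b z ≠ ∞) (n : ℕ)
    (x : Ω) : ‖FF μ φ k u (n + 1) z x‖ₑ ≤ (‖(z - φ x)⁻¹‖ₑ * ENNReal.ofReal (a x)) *
      (BB μ φ b u z * (ENNReal.ofReal ((1 / 2 : ℝ) ^ n) * ENNReal.ofReal (Real.exp (2 *
        NN (μ.withDensity fun y => ENNReal.ofReal (b y) *
          (‖(z - φ y)⁻¹‖ₑ * ENNReal.ofReal (a y))) τ x)))) := by
  have hcm : Measurable fun y => ‖(z - φ y)⁻¹‖ₑ * ENNReal.ofReal (a y) :=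
    ((measurable_const.sub hφ).inv.enorm).mul (ENNReal.measurable_ofReal.comp hk.ma)
  have hbm : Measurable fun y => ENNReal.ofReal (b y) := ENNReal.measurable_ofReal.comp hk.mb
  have hbcm : Measurable fun y => ENNReal.ofReal (b y) *
    (‖(z - φ y)⁻¹‖ₑ * ENNReal.ofReal (a y)) := hbm.mul hcm
  set ν : Measure Ω := μ.withDensity fun y => ENNReal.ofReal (b y) *
    (‖(z - φ y)⁻¹‖ₑ * ENNReal.ofReal (a y)) with hν
  have hfin : IsFiniteMeasure ν := by
    refine ⟨?_⟩
    rw [hν, withDensity_apply _ MeasurableSet.univ, Measure.restrict_univ]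
    exact lt_top_iff_ne_top.2 hz
  have hNm : Measurable (NN ν τ) := measurable_NN hk.time
  have hem : Measurable fun x => ENNReal.ofReal (Real.exp (2 * NN ν τ x)) :=
    ENNReal.measurable_ofReal.comp (Real.measurable_exp.comp (hNm.const_mul 2))
  induction n generalizing x with
  | zero =>
    change ‖(z - φ x)⁻¹ * ∫ y, k x y * FF μ φ k u 0 z y ∂μ‖ₑ ≤ _
    rw [enorm_mul, mul_assoc]
    gcongr
    refine (kint_le hk _ x).trans ?_
    gcongr
    refine (JJ_le _ _ x).trans ?_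
    have h1 : ∫⁻ y, ENNReal.ofReal (b y) * ‖FF μ φ k u 0 z y‖ₑ ∂μ = BB μ φ b u z := by
      refine lintegral_congr fun y => ?_
      change ENNReal.ofReal (b y) * ‖(z - φ y)⁻¹ * u y‖ₑ = _
      rw [enorm_mul]
    rw [h1, pow_zero, ENNReal.ofReal_one, one_mul]
    refine le_mul_of_one_le_right zero_le ?_
    rw [← ENNReal.ofReal_one]
    apply ENNReal.ofReal_le_ofReal
    have := NN_nonneg (ν := ν) (τ := τ) x
    exact Real.one_le_exp (by linarith)
  | succ n ih =>
    change ‖(z - φ x)⁻¹ * ∫ y, k x y * FF μ φ k u (n + 1) z y ∂μ‖ₑ ≤ _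
    rw [enorm_mul, mul_assoc]
    gcongr
    refine (kint_le hk _ x).trans ?_
    gcongr
    unfold JJ
    calc ∫⁻ y in {y | τ y < τ x}, ENNReal.ofReal (b y) * ‖FF μ φ k u (n + 1) z y‖ₑ ∂μ
        ≤ ∫⁻ y in {y | τ y < τ x}, (BB μ φ b u z * ENNReal.ofReal ((1 / 2 : ℝ) ^ n)) *
            ((ENNReal.ofReal (b y) * (‖(z - φ y)⁻¹‖ₑ * ENNReal.ofReal (a y))) *
              ENNReal.ofReal (Real.exp (2 * NN ν τ y))) ∂μ := by
          refine lintegral_mono fun y => ?_
          calc ENNReal.ofReal (b y) * ‖FF μ φ k u (n + 1) z y‖ₑ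
              ≤ ENNReal.ofReal (b y) * ((‖(z - φ y)⁻¹‖ₑ * ENNReal.ofReal (a y)) *
                (BB μ φ b u z * (ENNReal.ofReal ((1 / 2 : ℝ) ^ n) *
                  ENNReal.ofReal (Real.exp (2 * NN ν τ y))))) := by
                gcongr
                exact ih y
            _ = _ := by ring
      _ = (BB μ φ b u z * ENNReal.ofReal ((1 / 2 : ℝ) ^ n)) *
            ∫⁻ y in {y | τ y < τ x},
              (ENNReal.ofReal (b y) * (‖(z - φ y)⁻¹‖ₑ * ENNReal.ofReal (a y))) *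
              ENNReal.ofReal (Real.exp (2 * NN ν τ y)) ∂μ := by
          rw [lintegral_const_mul]
          exact (hbm.mul hcm).mul hem
      _ = (BB μ φ b u z * ENNReal.ofReal ((1 / 2 : ℝ) ^ n)) *
            ∫⁻ y in {y | τ y < τ x}, ENNReal.ofReal (Real.exp (2 * NN ν τ y)) ∂ν := by
          congr 1
          rw [hν, setLIntegral_withDensity_eq_setLIntegral_mul _ hbcm hem
            (measurableSet_lt hk.time measurable_const)]
          rfl
      _ ≤ (BB μ φ b u z * ENNReal.ofReal ((1 / 2 : ℝ) ^ n)) *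
            ENNReal.ofReal (Real.exp (2 * NN ν τ x) / 2) := by
          gcongr
          exact exp_le hk.time x
      _ = BB μ φ b u z * (ENNReal.ofReal ((1 / 2 : ℝ) ^ (n + 1)) *
            ENNReal.ofReal (Real.exp (2 * NN ν τ x))) := by
          rw [mul_assoc, ← ENNReal.ofReal_mul (by positivity), ← ENNReal.ofReal_mul (by positivity)]
          congr 2
          ring

/-- the pointwise bound of the terms by the weight -/
theorem FF_le' (hk : Ker τ a b k) (hφ : Measurable φ) {z : ℂ} (hz : KK μ φ a b z ≠ ∞)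
    (hz' : BB μ φ b u z ≠ ∞) (n : ℕ) (x : Ω) : ‖FF μ φ k u (n + 1) z x‖ₑ ≤
      ‖(z - φ x)⁻¹‖ₑ * ENNReal.ofReal (a x * (1 / 2 : ℝ) ^ n * WW μ φ a b u z) := by
  refine (FF_le hk hφ hz n x).trans ?_
  rw [mul_assoc]
  gcongr
  have hN : NN (μ.withDensity fun y => ENNReal.ofReal (b y) *
      (‖(z - φ y)⁻¹‖ₑ * ENNReal.ofReal (a y))) τ x ≤ (KK μ φ a b z).toReal := by
    have hfin : IsFiniteMeasure (μ.withDensity fun y => ENNReal.ofReal (b y) *
        (‖(z - φ y)⁻¹‖ₑ * ENNReal.ofReal (a y))) := by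
      refine ⟨?_⟩
      rw [withDensity_apply _ MeasurableSet.univ, Measure.restrict_univ]
      exact lt_top_iff_ne_top.2 hz
    refine (NN_le x).trans (le_of_eq ?_)
    rw [measureReal_def, withDensity_apply _ MeasurableSet.univ, Measure.restrict_univ]
    rfl
  have h1 : BB μ φ b u z ≤ ENNReal.ofReal (1 + (BB μ φ b u z).toReal) := by
    conv_lhs => rw [← ENNReal.ofReal_toReal hz']
    exact ENNReal.ofReal_le_ofReal (by linarith)
  calc ENNReal.ofReal (a x) * (BB μ φ b u z * (ENNReal.ofReal ((1 / 2 : ℝ) ^ n) *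
        ENNReal.ofReal (Real.exp (2 * NN (μ.withDensity fun y => ENNReal.ofReal (b y) *
          (‖(z - φ y)⁻¹‖ₑ * ENNReal.ofReal (a y))) τ x))))
      ≤ ENNReal.ofReal (a x) * (ENNReal.ofReal (1 + (BB μ φ b u z).toReal) *
        (ENNReal.ofReal ((1 / 2 : ℝ) ^ n) *
          ENNReal.ofReal (Real.exp (2 * (KK μ φ a b z).toReal)))) := by gcongr
    _ = ENNReal.ofReal (a x * (1 / 2 : ℝ) ^ n * WW μ φ a b u z) := by
      have h2 : (0:ℝ) ≤ (BB μ φ b u z).toReal := ENNReal.toReal_nonneg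
      rw [← ENNReal.ofReal_mul (by positivity), ← ENNReal.ofReal_mul (by positivity),
        ← ENNReal.ofReal_mul (hk.a0 x)]
      congr 1
      unfold WW
      ring

end Pool.Agent.U555.VM
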