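import Pool.Agent.U555.VM.Tel
import Pool.Agent.N812.IS.Ann
import Pool.Agent.R277.SP.Main2

/-!
# Vectors with a small local spectrum
-/

set_option autoImplicit false

open MeasureTheory Set Filter Topology Metric
open scoped ENNReal
open Pool.Agent.N812.IS (An An_sub exists_mult)
open Pool.Agent.R277.SP (LocV pow_of_rec)

namespace Pool.Agent.U555.VM

variable {Ω : Type} [MeasurableSpace Ω] {μ : Measure Ω} {τ : Ω → ℝ} {p q : ℝ≥0∞}
variable {a b : Ω → ℝ} {k : Ω → Ω → ℂ} {φ u : Ω → ℂ} {c : ℂ} {ρ C : ℝ} {h : ℂ → ℂ}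

theorem local_of_eigen {E : Type} [NormedAddCommGroup E] [NormedSpace ℂ E] (T : E →L[ℂ] E) (c : ℂ)
    (x : E) (hx0 : x ≠ 0) (hx : T x = c • x) (ε : ℝ) (hε : 0 < ε) :
    ∃ (x : E) (C : ℝ), x ≠ 0 ∧ ∀ n : ℕ, ‖((T - c • (1 : E →L[ℂ] E)) ^ n) x‖ ≤ C * ε ^ n := by
  refine ⟨x, ‖x‖, hx0, fun n => ?_⟩
  have h5 : (T - c • (1 : E →L[ℂ] E)) x = 0 := by
    show T x - c • x = 0
    rw [hx, sub_self]
  cases n with
  | zero => simp
  | succ n =>
    have h6 : ((T - c • (1 : E →L[ℂ] E)) ^ (n + 1)) x = 0 := by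
      rw [pow_succ]
      show ((T - c • (1 : E →L[ℂ] E)) ^ n) ((T - c • (1 : E →L[ℂ] E)) x) = 0
      rw [h5, map_zero]
    rw [h6, norm_zero]
    positivity

/-- a point of the spectrum: no injectivity or no surjectivity -/
theorem spec_cases {E : Type} [NormedAddCommGroup E] [NormedSpace ℂ E] [CompleteSpace E]
    (T : E →L[ℂ] E) (c : ℂ) (hc : c ∈ spectrum ℂ T) :
    (∃ x : E, x ≠ 0 ∧ T x = c • x) ∨ (∃ u : E, ∀ x : E, T x - c • x ≠ u) := by
  by_contra hcon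
  push Not at hcon
  obtain ⟨h1, h2⟩ := hcon
  apply hc
  have h3 : IsUnit (T - c • (1 : E →L[ℂ] E)) := by
    rw [ContinuousLinearMap.isUnit_iff_bijective]
    constructor
    · intro x y hxy
      by_contra hne
      refine h1 (x - y) (sub_ne_zero.2 hne) ?_
      have h4 : T x - c • x = T y - c • y := hxy
      rw [map_sub, smul_sub]
      rw [sub_eq_sub_iff_add_eq_add] at h4 ⊢
      rw [h4]
      abel
    · intro u
      obtain ⟨x, hx⟩ := h2 u
      exact ⟨x, hx⟩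
  have h4 : algebraMap ℂ (E →L[ℂ] E) c - T = -(T - c • (1 : E →L[ℂ] E)) := by
    rw [Algebra.algebraMap_eq_smul_one]
    abel
  show IsUnit (algebraMap ℂ (E →L[ℂ] E) c - T)
  rw [h4]
  exact h3.neg

variable [Fact (1 ≤ p)] [SFinite μ] [ENNReal.HolderTriple q p 1]

theorem vec (L : Dat μ τ p q a b k φ u) (T : Lp ℂ p μ →L[ℂ] Lp ℂ p μ) (hT : KForm μ φ k T)
    (c : ℂ) (hu : ∀ x : Lp ℂ p μ, T x - c • x ≠ cls μ p u) (ρ : ℝ) (hρ : 0 < ρ) :
    ∃ (x : Lp ℂ p μ) (C : ℝ), x ≠ 0 ∧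
      ∀ n : ℕ, ‖((T - c • (1 : Lp ℂ p μ →L[ℂ] Lp ℂ p μ)) ^ n) x‖ ≤ C * ρ ^ n := by
  obtain ⟨g, g1, g2, g3, g4, g5⟩ := exists_mult (WW μ φ a b u) c ρ hρ
    (WW_meas L.hk.ma L.hk.mb L.hφ L.hu) one_le_WW
    (logW L.hk L.hφ L.hu L.haL L.hbL L.huL c ρ hρ)
  have hW0 : ∀ z, 0 ≤ WW μ φ a b u z := fun z => zero_le_one.trans (one_le_WW z)
  have H0 : Adm (WW μ φ a b u) c ρ 1 g := ⟨g1, g2, fun z hz => g3 z fun h => hz (An_sub c ρ h)⟩
  have H : ∀ n : ℕ, Adm (WW μ φ a b u) c ρ (ρ ^ n) (fun z => (z - c) ^ n * g z) := by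
    intro n
    induction n with
    | zero => simpa using H0
    | succ n ih =>
      have h1 := ih.mulz hρ.le hW0
      have h2 : (fun z => (z - c) * ((z - c) ^ n * g z)) = fun z => (z - c) ^ (n + 1) * g z := by
        ext z
        ring
      rw [h2] at h1
      rw [pow_succ']
      exact h1
  have Hm : Adm (WW μ φ a b u) c ρ (2 / ρ) (fun z => (z - c)⁻¹ * g z) := by
    refine ⟨(measurable_id.sub_const c).inv.mul g1, fun z => ?_, fun z hz => ?_⟩
    · by_cases hz : z ∈ An c ρ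
      · have h1 : ρ / 2 < ‖z - c‖ := hz.1
        have h2 : ‖z - c‖⁻¹ ≤ 2 / ρ := by
          rw [inv_le_comm₀ (by linarith) (by positivity), inv_div]
          exact h1.le
        rw [norm_mul, norm_inv, mul_assoc]
        calc ‖z - c‖⁻¹ * (‖g z‖ * WW μ φ a b u z) ≤ (2 / ρ) * 1 :=
              mul_le_mul h2 (g2 z) (mul_nonneg (norm_nonneg _) (hW0 z)) (by positivity)
          _ = 2 / ρ := mul_one _
      · rw [g3 z hz, mul_zero, norm_zero, zero_mul]
        positivity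
    · show (z - c)⁻¹ * g z = 0
      rw [g3 z fun h => hz (An_sub c ρ h), mul_zero]
  have hrec : ∀ n : ℕ, T (XS μ p φ k u (fun z => (z - c) ^ n * g z)) -
      c • XS μ p φ k u (fun z => (z - c) ^ n * g z) =
      XS μ p φ k u (fun z => (z - c) ^ (n + 1) * g z) := by
    intro n
    have h1 := eqn L hρ.le (H n) T hT
    rw [g4 n, zero_smul, sub_zero] at h1
    rw [h1]
    congr 1
    ext z
    ring
  refine ⟨XS μ p φ k u (fun z => (z - c) ^ 0 * g z), PP ρ * ∑' n, gg μ p a u n, ?_, fun n => ?_⟩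
  · intro h0
    have h1 := eqn L hρ.le Hm T hT
    have h2 : (fun z => (z - c) * ((z - c)⁻¹ * g z)) = fun z => (z - c) ^ 0 * g z := by
      ext z
      by_cases hz : z ∈ An c ρ
      · have h3 : z - c ≠ 0 := by
          intro h4
          have h5 : ρ / 2 < ‖z - c‖ := hz.1
          rw [h4, norm_zero] at h5
          linarith
        rw [pow_zero, one_mul, mul_inv_cancel_left₀ h3]
      · rw [g3 z hz]
        simp
    rw [h2, h0, zero_sub] at h1
    refine hu ((-(∫ z, (z - c)⁻¹ * g z)⁻¹) • XS μ p φ k u (fun z => (z - c)⁻¹ * g z)) ?_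
    rw [map_smul, smul_comm c, ← smul_sub, h1, neg_smul, smul_neg, neg_neg,
      smul_smul, inv_mul_cancel₀ g5, one_smul]
  · rw [pow_of_rec (X := fun n => XS μ p φ k u (fun z => (z - c) ^ n * g z)) hrec n]
    refine (XS_norm L hρ.le (H n)).trans (le_of_eq ?_)
    ring

theorem locv (hk : Ker τ a b k) (hφ : Measurable φ) (haL : MemLp a p μ) (hbL : MemLp b q μ)
    (T : Lp ℂ p μ →L[ℂ] Lp ℂ p μ) (hT : KForm μ φ k T) : LocV T := by
  intro c hc ε hε
  rcases spec_cases T c hc with ⟨x, hx0, hx⟩ | ⟨u, hu⟩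
  · exact local_of_eigen T c x hx0 hx ε hε
  · have huL : MemLp (u : Ω → ℂ) p μ := Lp.memLp u
    have hum : Measurable (u : Ω → ℂ) := (Lp.stronglyMeasurable u).measurable
    have hcls : cls μ p (u : Ω → ℂ) = u := by
      rw [cls_eq huL]
      exact Lp.toLp_coeFn u huL
    exact vec (u := (u : Ω → ℂ)) ⟨hk, hφ, hum, haL, hbL, huL⟩ T hT c (by rwa [hcls]) ε hε

end Pool.Agent.U555.VM
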