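import Pool.Agent.U555.VM.Vec

/-!
# Averages of the local resolvent in the Lebesgue space
-/

set_option autoImplicit false

open MeasureTheory Set Filter Topology Metric
open scoped ENNReal

namespace Pool.Agent.U555.VM

variable {Ω : Type} [MeasurableSpace Ω] {μ : Measure Ω} {τ : Ω → ℝ} {p q : ℝ≥0∞}
variable {a b : Ω → ℝ} {k : Ω → Ω → ℂ} {φ u : Ω → ℂ} {c : ℂ} {ρ C : ℝ} {h : ℂ → ℂ}

theorem GG_mem (haL : MemLp a p μ) (huL : MemLp u p μ) (n : ℕ) : MemLp (GG a u n) p μ := by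
  cases n with
  | zero => exact huL.norm
  | succ n => exact haL.const_mul _

theorem GG_fin [ENNReal.HolderTriple q p 1] (hk : Ker τ a b k)
    (haL : MemLp a p μ) (hbL : MemLp b q μ) (huL : MemLp u p μ) (n : ℕ) :
    ∫⁻ y, ENNReal.ofReal (b y) * ENNReal.ofReal (GG a u n y) ∂μ ≠ ∞ :=
  (lt_of_le_of_lt (holder_ab (GG a u n) b (GG_nonneg hk.a0 n) hk.b0 hbL (GG_mem haL huL n))
    (ENNReal.mul_lt_top hbL.2 (GG_mem haL huL n).2)).ne

/-- the norms of the majorants -/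
noncomputable def gg (μ : Measure Ω) (p : ℝ≥0∞) (a : Ω → ℝ) (u : Ω → ℂ) (n : ℕ) : ℝ :=
  (eLpNorm (GG a u n) p μ).toReal

theorem gg_succ (n : ℕ) : gg μ p a u (n + 1) = (1 / 2 : ℝ) ^ n * (eLpNorm a p μ).toReal := by
  unfold gg
  have h1 : GG a u (n + 1) = ((1 / 2 : ℝ) ^ n) • a := by
    ext x
    rfl
  rw [h1, eLpNorm_const_smul, ENNReal.toReal_mul]
  congr 1
  rw [toReal_enorm, Real.norm_of_nonneg (by positivity)]

theorem gg_nonneg (n : ℕ) : 0 ≤ gg μ p a u n := ENNReal.toReal_nonneg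

theorem gg_summable : Summable (gg μ p a u) := by
  rw [← summable_nat_add_iff 1]
  simp only [gg_succ]
  exact (summable_geometric_of_lt_one (by norm_num) (by norm_num)).mul_right _

theorem XX_mem [SFinite μ] (hk : Ker τ a b k) (hφ : Measurable φ) (hu : Measurable u)
    (haL : MemLp a p μ) (huL : MemLp u p μ)
    (hg : ∀ᵐ z : ℂ, KK μ φ a b z ≠ ∞ ∧ BB μ φ b u z ≠ ∞) (hρ : 0 ≤ ρ)
    (H : Adm (WW μ φ a b u) c ρ C h) (n : ℕ) : MemLp (XX μ φ k u n h) p μ := by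
  refine MemLp.of_le_mul (g := GG a u n) (c := C * PP ρ) (GG_mem haL huL n)
    (XX_meas hk hφ hu H.meas n).aestronglyMeasurable (Eventually.of_forall fun x => ?_)
  rw [Real.norm_of_nonneg (GG_nonneg hk.a0 n x)]
  exact XX_le hk hφ hg hρ H n x

theorem norm_toLp_le [Fact (1 ≤ p)] {f : Ω → ℂ} (hf : MemLp f p μ) {g : Ω → ℝ}
    (hg0 : ∀ x, 0 ≤ g x) (hg : MemLp g p μ) {D : ℝ} (hD : 0 ≤ D) (h : ∀ x, ‖f x‖ ≤ D * g x) :
    ‖hf.toLp f‖ ≤ D * (eLpNorm g p μ).toReal := by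
  rw [Lp.norm_toLp]
  have h1 : eLpNorm f p μ ≤ ENNReal.ofReal D * eLpNorm g p μ := by
    refine eLpNorm_le_mul_eLpNorm_of_ae_le_mul (Eventually.of_forall fun x => ?_) p
    rw [Real.norm_of_nonneg (hg0 x)]
    exact h x
  have h2 := ENNReal.toReal_mono (ENNReal.mul_lt_top ENNReal.ofReal_lt_top hg.2).ne h1
  rwa [ENNReal.toReal_mul, ENNReal.toReal_ofReal hD] at h2

theorem XX_norm [Fact (1 ≤ p)] [SFinite μ] (hk : Ker τ a b k) (hφ : Measurable φ)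
    (hu : Measurable u) (haL : MemLp a p μ) (huL : MemLp u p μ)
    (hg : ∀ᵐ z : ℂ, KK μ φ a b z ≠ ∞ ∧ BB μ φ b u z ≠ ∞) (hρ : 0 ≤ ρ)
    (H : Adm (WW μ φ a b u) c ρ C h) (n : ℕ) :
    ‖(XX_mem hk hφ hu haL huL hg hρ H n).toLp‖ ≤ C * PP ρ * gg μ p a u n :=
  norm_toLp_le _ (GG_nonneg hk.a0 n) (GG_mem haL huL n)
    (mul_nonneg (C_nonneg H) (PP_pos hρ).le) (XX_le hk hφ hg hρ H n)

/-- integral of the kernel against a function with a majorant -/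
theorem kint_real (hk : Ker τ a b k) {f : Ω → ℂ} {g : Ω → ℝ} {D : ℝ} (hD : 0 ≤ D)
    (hfg : ∀ x, ‖f x‖ ≤ D * g x)
    (hG : ∫⁻ y, ENNReal.ofReal (b y) * ENNReal.ofReal (g y) ∂μ ≠ ∞) (x : Ω) :
    ‖∫ y, k x y * f y ∂μ‖ ≤
      (D * (∫⁻ y, ENNReal.ofReal (b y) * ENNReal.ofReal (g y) ∂μ).toReal) * a x := by
  have h1 := (kint_le (μ := μ) hk f x).trans (mul_le_mul_right (JJ_le _ f x) _)
  have h2 : ∫⁻ y, ENNReal.ofReal (b y) * ‖f y‖ₑ ∂μ ≤
      ENNReal.ofReal D * ∫⁻ y, ENNReal.ofReal (b y) * ENNReal.ofReal (g y) ∂μ := by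
    rw [← lintegral_const_mul' _ _ ENNReal.ofReal_ne_top]
    refine lintegral_mono fun y => ?_
    rw [← mul_assoc, mul_comm (ENNReal.ofReal D), mul_assoc]
    gcongr
    rw [← ofReal_norm, ← ENNReal.ofReal_mul hD]
    exact ENNReal.ofReal_le_ofReal (hfg y)
  have h3 := h1.trans (mul_le_mul_right h2 _)
  rw [← ofReal_norm] at h3
  have h4 : ENNReal.ofReal (a x) *
      (ENNReal.ofReal D * ∫⁻ y, ENNReal.ofReal (b y) * ENNReal.ofReal (g y) ∂μ) =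
      ENNReal.ofReal
      ((D * (∫⁻ y, ENNReal.ofReal (b y) * ENNReal.ofReal (g y) ∂μ).toReal) * a x) := by
    rw [ENNReal.ofReal_mul (mul_nonneg hD ENNReal.toReal_nonneg), ENNReal.ofReal_mul hD,
      ENNReal.ofReal_toReal hG]
    ring
  rw [h4] at h3
  exact (ENNReal.ofReal_le_ofReal_iff
    (mul_nonneg (mul_nonneg hD ENNReal.toReal_nonneg) (hk.a0 x))).1 h3

theorem kint_meas [SFinite μ] (hk : Ker τ a b k) {f : Ω → ℂ} (hf : Measurable f) :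
    Measurable fun x => ∫ y, k x y * f y ∂μ := by
  have h1 : Measurable fun w : Ω × Ω => k w.1 w.2 * f w.2 :=
    (hk.meas).mul (hf.comp measurable_snd)
  exact (h1.stronglyMeasurable.integral_prod_right' (ν := μ)).measurable

theorem DD_mem [SFinite μ] [ENNReal.HolderTriple q p 1] (hk : Ker τ a b k) (hφ : Measurable φ)
    (hu : Measurable u)
    (haL : MemLp a p μ) (hbL : MemLp b q μ) (huL : MemLp u p μ)
    (hg : ∀ᵐ z : ℂ, KK μ φ a b z ≠ ∞ ∧ BB μ φ b u z ≠ ∞) (hρ : 0 ≤ ρ)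
    (H : Adm (WW μ φ a b u) c ρ C h) (n : ℕ) : MemLp (DD μ φ k u n h) p μ := by
  refine MemLp.of_le_mul (g := a) (c := (C * PP ρ) *
    (∫⁻ y, ENNReal.ofReal (b y) * ENNReal.ofReal (GG a u n y) ∂μ).toReal) haL
    (kint_meas hk (XX_meas hk hφ hu H.meas n)).aestronglyMeasurable
    (Eventually.of_forall fun x => ?_)
  rw [Real.norm_of_nonneg (hk.a0 x)]
  exact kint_real hk (mul_nonneg (C_nonneg H) (PP_pos hρ).le)
    (XX_le hk hφ hg hρ H n) (GG_fin hk haL hbL huL n) x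

theorem bg_le [ENNReal.HolderTriple q p 1] (hk : Ker τ a b k)
    (haL : MemLp a p μ) (hbL : MemLp b q μ) (huL : MemLp u p μ) (n : ℕ) :
    (∫⁻ y, ENNReal.ofReal (b y) * ENNReal.ofReal (GG a u n y) ∂μ).toReal ≤
      (eLpNorm b q μ).toReal * gg μ p a u n := by
  unfold gg
  rw [← ENNReal.toReal_mul]
  exact ENNReal.toReal_mono (ENNReal.mul_lt_top hbL.2 (GG_mem haL huL n).2).ne
    (holder_ab (GG a u n) b (GG_nonneg hk.a0 n) hk.b0 hbL (GG_mem haL huL n))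

theorem DD_norm [Fact (1 ≤ p)] [SFinite μ] [ENNReal.HolderTriple q p 1] (hk : Ker τ a b k)
    (hφ : Measurable φ) (hu : Measurable u)
    (haL : MemLp a p μ) (hbL : MemLp b q μ) (huL : MemLp u p μ)
    (hg : ∀ᵐ z : ℂ, KK μ φ a b z ≠ ∞ ∧ BB μ φ b u z ≠ ∞) (hρ : 0 ≤ ρ)
    (H : Adm (WW μ φ a b u) c ρ C h) (n : ℕ) :
    ‖(DD_mem hk hφ hu haL hbL huL hg hρ H n).toLp‖ ≤
      ((C * PP ρ) * ((eLpNorm b q μ).toReal * gg μ p a u n)) * (eLpNorm a p μ).toReal := by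
  have hCP : 0 ≤ C * PP ρ := mul_nonneg (C_nonneg H) (PP_pos hρ).le
  refine (norm_toLp_le _ hk.a0 haL (D := (C * PP ρ) *
    (∫⁻ y, ENNReal.ofReal (b y) * ENNReal.ofReal (GG a u n y) ∂μ).toReal)
    (mul_nonneg hCP ENNReal.toReal_nonneg)
    (fun x => kint_real hk hCP
    (XX_le hk hφ hg hρ H n) (GG_fin hk haL hbL huL n) x)).trans ?_
  gcongr
  exact bg_le hk haL hbL huL n

end Pool.Agent.U555.VM
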