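import Mathlib

/-!
# A product integral estimate for finite measures with a time function

For a finite measure `ν` and a measurable function `τ` let `N x = ν {τ < τ x}`. Then
`∫_{τ y < τ x} exp (2 N y) dν(y) ≤ exp (2 N x) / 2`.
-/

set_option autoImplicit false

open MeasureTheory Set Filter Topology

namespace Pool.Agent.U555.VM

variable {Ω : Type} [MeasurableSpace Ω] (ν : Measure Ω) (τ : Ω → ℝ)

/-- the mass before `x` -/
noncomputable def NN (x : Ω) : ℝ := ν.real {y | τ y < τ x}

variable {ν τ} [IsFiniteMeasure ν]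

omit [IsFiniteMeasure ν] in
theorem NN_nonneg (x : Ω) : 0 ≤ NN ν τ x := measureReal_nonneg

theorem NN_le (x : Ω) : NN ν τ x ≤ ν.real univ :=
  measureReal_mono (subset_univ _)

theorem NN_mono {x y : Ω} (h : τ x ≤ τ y) : NN ν τ x ≤ NN ν τ y := by
  refine measureReal_mono ?_
  intro w hw
  exact lt_of_lt_of_le hw h

theorem measurable_NN (hτ : Measurable τ) : Measurable (NN ν τ) := by
  have hmono : Monotone (fun t : ℝ => ν.real {y | τ y < t}) := by
    intro s t hst
    refine measureReal_mono ?_
    intro w hw
    exact lt_of_lt_of_le hw hst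
  exact hmono.measurable.comp hτ

/-- the mass of the points before `x` which have more than `s` before them -/
theorem dist_le (hτ : Measurable τ) (x : Ω) (s : ℝ) :
    ν {y | τ y < τ x ∧ s < NN ν τ y} ≤ ENNReal.ofReal (NN ν τ x - s) := by
  set B : Set Ω := {y | τ y < τ x ∧ s < NN ν τ y} with hB
  set L : Set Ω := {y | τ y < τ x} with hL
  have hLm : MeasurableSet L := measurableSet_lt hτ measurable_const
  have hBm : MeasurableSet B := hLm.inter (measurableSet_lt measurable_const (measurable_NN hτ))
  have hBL : B ⊆ L := fun y hy => hy.1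
  rcases B.eq_empty_or_nonempty with h0 | hne
  · rw [h0]; simp
  -- it is enough that `L \ B` has mass at least `s`
  have key : s ≤ ν.real (L \ B) := by
    have hτne : (τ '' B).Nonempty := hne.image τ
    by_cases hbd : BddBelow (τ '' B)
    · by_cases hatt : sInf (τ '' B) ∈ τ '' B
      · obtain ⟨y, hy, hyi⟩ := hatt
        have h1 : {w | τ w < τ y} ⊆ L \ B := by
          intro w hw
          refine ⟨lt_trans hw hy.1, fun hwB => ?_⟩
          have := csInf_le hbd (mem_image_of_mem τ hwB)
          rw [← hyi] at this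
          exact absurd hw (not_lt.2 this)
        exact hy.2.le.trans (measureReal_mono h1)
      · obtain ⟨u, hu1, hu2, hu3⟩ := exists_seq_tendsto_sInf hτne hbd
        have hgt : ∀ n, sInf (τ '' B) < u n := by
          intro n
          refine lt_of_le_of_ne (csInf_le hbd (hu3 n)) ?_
          intro h
          rw [h] at hatt
          exact hatt (hu3 n)
        have h1 : {w | τ w ≤ sInf (τ '' B)} ⊆ L \ B := by
          intro w hw
          obtain ⟨y, hy⟩ := hne
          refine ⟨?_, fun hwB => ?_⟩
          · have h2 : sInf (τ '' B) ≤ τ y := csInf_le hbd (mem_image_of_mem τ hy)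
            exact lt_of_le_of_lt (hw.trans h2) hy.1
          · have h2 := csInf_le hbd (mem_image_of_mem τ hwB)
            have h3 : τ w = sInf (τ '' B) := le_antisymm hw h2
            exact hatt (h3 ▸ mem_image_of_mem τ hwB)
        refine le_trans ?_ (measureReal_mono h1)
        have h4 : {w | τ w ≤ sInf (τ '' B)} = ⋂ n, {w | τ w < u n} := by
          ext w
          simp only [mem_ofPred_eq, mem_iInter]
          constructor
          · intro hw n
            exact lt_of_le_of_lt hw (hgt n)
          · intro hw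
            exact ge_of_tendsto' hu2 fun n => (hw n).le
        have h5 : Tendsto (fun n => ν {w | τ w < u n}) atTop (𝓝 (ν (⋂ n, {w | τ w < u n}))) := by
          refine tendsto_measure_iInter_atTop (fun n => ?_) ?_ ⟨0, measure_ne_top _ _⟩
          · exact (measurableSet_lt hτ measurable_const).nullMeasurableSet
          · intro m n hmn w hw
            exact lt_of_lt_of_le hw (hu1 hmn)
        rw [← h4] at h5
        have h6 : Tendsto (fun n => ν.real {w | τ w < u n}) atTop
            (𝓝 (ν.real {w | τ w ≤ sInf (τ '' B)})) :=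
          (ENNReal.tendsto_toReal (measure_ne_top _ _)).comp h5
        refine ge_of_tendsto' h6 fun n => ?_
        obtain ⟨y, hy, hyu⟩ := hu3 n
        rw [← hyu]
        exact hy.2.le
    · -- unbounded below: all masses are larger than `s`, which forces `s ≤ 0`
      rw [not_bddBelow_iff] at hbd
      have h7 : ∀ n : ℕ, ∃ y ∈ B, τ y < -(n : ℝ) := by
        intro n
        obtain ⟨t, ⟨y, hy, rfl⟩, ht⟩ := hbd (-(n : ℝ))
        exact ⟨y, hy, ht⟩
      have h8 : Tendsto (fun n : ℕ => ν {w | τ w < -(n : ℝ)}) atTop
          (𝓝 (ν (⋂ n : ℕ, {w | τ w < -(n : ℝ)}))) := by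
        refine tendsto_measure_iInter_atTop (fun n => ?_) ?_ ⟨0, measure_ne_top _ _⟩
        · exact (measurableSet_lt hτ measurable_const).nullMeasurableSet
        · intro m n hmn w hw
          have : (m : ℝ) ≤ n := by exact_mod_cast hmn
          simp only [mem_ofPred_eq] at hw ⊢
          linarith
      have h9 : (⋂ n : ℕ, {w | τ w < -(n : ℝ)}) = ∅ := by
        rw [eq_empty_iff_forall_notMem]
        intro w hw
        rw [mem_iInter] at hw
        obtain ⟨n, hn⟩ := exists_nat_gt (-(τ w))
        have := hw n
        simp only [mem_ofPred_eq] at this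
        linarith
      rw [h9, measure_empty] at h8
      have h10 : Tendsto (fun n : ℕ => ν.real {w | τ w < -(n : ℝ)}) atTop (𝓝 0) := by
        have h12 := (ENNReal.tendsto_toReal ENNReal.zero_ne_top).comp h8
        rw [ENNReal.toReal_zero] at h12
        exact h12
      have h11 : s ≤ 0 := by
        refine ge_of_tendsto' h10 fun n => ?_
        obtain ⟨y, hy, hyn⟩ := h7 n
        refine hy.2.le.trans (measureReal_mono ?_)
        intro w hw
        exact lt_trans hw hyn
      exact h11.trans measureReal_nonneg
  have h2 : ν.real B + ν.real (L \ B) = ν.real L := by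
    have := measureReal_sdiff_add_inter (μ := ν) (s := L) hBm
    rw [inter_eq_self_of_subset_right hBL] at this
    linarith
  have h3 : ν.real B ≤ NN ν τ x - s := by
    have : NN ν τ x = ν.real L := rfl
    rw [this]
    linarith
  rw [← ofReal_measureReal (μ := ν) (s := B)]
  exact ENNReal.ofReal_le_ofReal h3

theorem int_aux (M : ℝ) (hM : 0 ≤ M) :
    ∫ t in (0:ℝ)..M, (M - t) * (2 * Real.exp (2 * t)) = (Real.exp (2 * M) - 1) / 2 - M := by
  have h : ∀ t ∈ uIcc (0:ℝ) M, HasDerivAt (fun t : ℝ => (M - t) * Real.exp (2 * t)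
      + Real.exp (2 * t) / 2) ((M - t) * (2 * Real.exp (2 * t))) t := by
    intro t _
    have h1 : HasDerivAt (fun t : ℝ => Real.exp (2 * t)) (Real.exp (2 * t) * (2 * 1)) t :=
      ((hasDerivAt_id t).const_mul 2).exp
    have h2 : HasDerivAt (fun t : ℝ => M - t) (-1) t := by
      simpa using (hasDerivAt_id t).const_sub M
    have h3 := (h2.mul h1).add (h1.div_const 2)
    refine h3.congr_deriv ?_
    ring
  rw [intervalIntegral.integral_eq_sub_of_hasDerivAt h]
  · rw [mul_zero, Real.exp_zero]
    ring
  · apply Continuous.intervalIntegrable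
    fun_prop

/-- the product integral estimate -/
theorem exp_le (hτ : Measurable τ) (x : Ω) :
    ∫⁻ y in {y | τ y < τ x}, ENNReal.ofReal (Real.exp (2 * NN ν τ y)) ∂ν ≤
      ENNReal.ofReal (Real.exp (2 * NN ν τ x) / 2) := by
  set L : Set Ω := {y | τ y < τ x} with hL
  have hLm : MeasurableSet L := measurableSet_lt hτ measurable_const
  have hNm : Measurable (NN ν τ) := measurable_NN hτ
  set M : ℝ := NN ν τ x with hM
  have hM0 : 0 ≤ M := NN_nonneg x
  have h1 : ∀ y : Ω, ENNReal.ofReal (Real.exp (2 * NN ν τ y)) =
      ENNReal.ofReal (∫ t in (0:ℝ)..NN ν τ y, 2 * Real.exp (2 * t)) + 1 := by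
    intro y
    have h2 : ∫ t in (0:ℝ)..NN ν τ y, 2 * Real.exp (2 * t) = Real.exp (2 * NN ν τ y) - 1 := by
      have h : ∀ t ∈ uIcc (0:ℝ) (NN ν τ y), HasDerivAt (fun t : ℝ => Real.exp (2 * t))
          (2 * Real.exp (2 * t)) t := by
        intro t _
        have h1 : HasDerivAt (fun t : ℝ => Real.exp (2 * t)) (Real.exp (2 * t) * (2 * 1)) t :=
          ((hasDerivAt_id t).const_mul 2).exp
        convert h1 using 1
        ring
      rw [intervalIntegral.integral_eq_sub_of_hasDerivAt h]
      · simp
      · apply Continuous.intervalIntegrable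
        fun_prop
    have h3 : 0 ≤ Real.exp (2 * NN ν τ y) - 1 := by
      have := Real.add_one_le_exp (2 * NN ν τ y)
      have := NN_nonneg (ν := ν) (τ := τ) y
      linarith
    rw [h2, ← ENNReal.ofReal_one, ← ENNReal.ofReal_add h3 zero_le_one]
    congr 1
    ring
  have h4 : ∫⁻ y in L, ENNReal.ofReal (∫ t in (0:ℝ)..NN ν τ y, 2 * Real.exp (2 * t)) ∂ν ≤
      ENNReal.ofReal ((Real.exp (2 * M) - 1) / 2 - M) := by
    rw [lintegral_comp_eq_lintegral_meas_lt_mul (ν.restrict L)
      (Eventually.of_forall fun y => NN_nonneg y) hNm.aemeasurable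
      (fun t _ => by apply Continuous.intervalIntegrable; fun_prop)
      (Eventually.of_forall fun t => by positivity)]
    have h5 : ∀ t ∈ Ioi (0:ℝ), (ν.restrict L) {a | t < NN ν τ a} *
        ENNReal.ofReal (2 * Real.exp (2 * t)) ≤
        (Ioc (0:ℝ) M).indicator (fun t => ENNReal.ofReal ((M - t) * (2 * Real.exp (2 * t)))) t := by
      intro t ht
      have h6 : (ν.restrict L) {a | t < NN ν τ a} ≤ ENNReal.ofReal (M - t) := by
        rw [Measure.restrict_apply (measurableSet_lt measurable_const hNm)]
        refine le_trans (measure_mono ?_) (dist_le hτ x t)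
        rintro y ⟨hy1, hy2⟩
        exact ⟨hy2, hy1⟩
      by_cases htM : t ≤ M
      · have hmem : t ∈ Ioc (0:ℝ) M := ⟨ht, htM⟩
        have hind : (Ioc (0:ℝ) M).indicator
            (fun t => ENNReal.ofReal ((M - t) * (2 * Real.exp (2 * t)))) t =
            ENNReal.ofReal ((M - t) * (2 * Real.exp (2 * t))) := Set.indicator_of_mem hmem _
        rw [hind, ENNReal.ofReal_mul (by linarith : (0:ℝ) ≤ M - t)]
        gcongr
      · have h7 : ENNReal.ofReal (M - t) = 0 := ENNReal.ofReal_of_nonpos (by linarith)
        rw [h7] at h6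
        have h8 : (ν.restrict L) {a | t < NN ν τ a} = 0 := le_antisymm h6 zero_le
        rw [h8, zero_mul]
        exact zero_le
    refine (setLIntegral_mono' measurableSet_Ioi h5).trans ?_
    refine (lintegral_mono' Measure.restrict_le_self le_rfl).trans ?_
    rw [lintegral_indicator measurableSet_Ioc]
    rw [← int_aux M hM0, intervalIntegral.integral_of_le hM0]
    refine le_of_eq ?_
    rw [ofReal_integral_eq_lintegral_ofReal]
    · have : Continuous fun t : ℝ => (M - t) * (2 * Real.exp (2 * t)) := by fun_prop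
      exact (this.integrableOn_Icc).mono_set Ioc_subset_Icc_self
    · filter_upwards [ae_restrict_mem measurableSet_Ioc] with t ht
      have : 0 ≤ M - t := by linarith [ht.2]
      positivity
  calc ∫⁻ y in L, ENNReal.ofReal (Real.exp (2 * NN ν τ y)) ∂ν
      = ∫⁻ y in L, (ENNReal.ofReal (∫ t in (0:ℝ)..NN ν τ y, 2 * Real.exp (2 * t)) + 1) ∂ν := by
        simp only [h1]
    _ = (∫⁻ y in L, ENNReal.ofReal (∫ t in (0:ℝ)..NN ν τ y, 2 * Real.exp (2 * t)) ∂ν) + ν L := by
        rw [lintegral_add_right _ measurable_const]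
        simp
    _ ≤ ENNReal.ofReal ((Real.exp (2 * M) - 1) / 2 - M) + ENNReal.ofReal M := by
        gcongr
        have : M = ν.real L := rfl
        rw [this, ofReal_measureReal]
    _ = ENNReal.ofReal ((Real.exp (2 * M) - 1) / 2) := by
        have h9 : 0 ≤ (Real.exp (2 * M) - 1) / 2 - M := by
          have := Real.add_one_le_exp (2 * M)
          linarith
        rw [← ENNReal.ofReal_add h9 hM0]
        congr 1
        ring
    _ ≤ ENNReal.ofReal (Real.exp (2 * M) / 2) := by
        apply ENNReal.ofReal_le_ofReal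
        linarith

end Pool.Agent.U555.VM
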