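import Pool.Agent.U555.VM.Ab

/-!
# Finite rank perturbations: local spectra
-/

set_option autoImplicit false

open MeasureTheory Set Filter Topology Metric
open scoped ENNReal
open Pool.Agent.R277.SP (LocV)
open Pool.Agent.R276.CP (lm)

namespace Pool.Agent.U555.VM

section mx

variable {m : ℕ}

theorem det_meas (A : ℂ → Matrix (Fin m) (Fin m) ℂ) (hA : ∀ i j, Measurable fun z => A z i j) :
    Measurable fun z => (A z).det := by
  simp only [Matrix.det_apply]
  refine Finset.measurable_sum _ fun σ _ => ?_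
  refine Measurable.const_smul ?_ _
  exact Finset.measurable_prod _ fun i _ => hA _ _

theorem adj_meas (A : ℂ → Matrix (Fin m) (Fin m) ℂ) (hA : ∀ i j, Measurable fun z => A z i j)
    (i j : Fin m) : Measurable fun z => (A z).adjugate i j := by
  simp only [Matrix.adjugate_apply]
  refine det_meas _ fun i' j' => ?_
  by_cases h : i' = j
  · subst h
    simp only [Matrix.updateRow_self]
    exact measurable_const
  · simp only [Matrix.updateRow_ne h]
    exact hA i' j'

theorem det_bd (A : Matrix (Fin m) (Fin m) ℂ) (Q : ℝ) (hA : ∀ i j, ‖A i j‖ ≤ Q) :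
    ‖A.det‖ ≤ (m.factorial : ℝ) * Q ^ m := by
  have h := Matrix.det_le (A := A) (abv := NormedField.toAbsoluteValue ℂ) (x := Q) hA
  rw [Fintype.card_fin, nsmul_eq_mul] at h
  exact h

theorem adj_bd (A : Matrix (Fin m) (Fin m) ℂ) (Q : ℝ) (hQ : 1 ≤ Q) (hA : ∀ i j, ‖A i j‖ ≤ Q)
    (i j : Fin m) : ‖A.adjugate i j‖ ≤ (m.factorial : ℝ) * Q ^ m := by
  rw [Matrix.adjugate_apply]
  refine det_bd _ Q fun i' j' => ?_
  by_cases h : i' = j
  · subst h
    rw [Matrix.updateRow_self, Pi.single_apply]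
    split_ifs
    · rw [norm_one]
      exact hQ
    · rw [norm_zero]
      linarith
  · rw [Matrix.updateRow_ne h]
    exact hA i' j'

/-- the solution of the linear system -/
noncomputable def sol (A : Matrix (Fin m) (Fin m) ℂ) (b : Fin m → ℂ) (i : Fin m) : ℂ :=
  A.det⁻¹ * ∑ j, A.adjugate i j * b j

theorem sol_bd (A : Matrix (Fin m) (Fin m) ℂ) (b : Fin m → ℂ) (Q B : ℝ) (hQ : 1 ≤ Q)
    (hA : ∀ i j, ‖A i j‖ ≤ Q) (hb : ∀ i, ‖b i‖ ≤ B) (i : Fin m) :
    ‖sol A b i‖ ≤ ‖A.det‖⁻¹ * (m * ((m.factorial : ℝ) * Q ^ m * B)) := by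
  unfold sol
  rw [norm_mul, norm_inv]
  refine mul_le_mul_of_nonneg_left ?_ (by positivity)
  refine (norm_sum_le _ _).trans ?_
  calc ∑ j, ‖A.adjugate i j * b j‖ ≤ ∑ _j : Fin m, (m.factorial : ℝ) * Q ^ m * B := by
        refine Finset.sum_le_sum fun j _ => ?_
        rw [norm_mul]
        exact mul_le_mul (adj_bd A Q hQ hA i j) (hb j) (norm_nonneg _) (by positivity)
    _ = m * ((m.factorial : ℝ) * Q ^ m * B) := by
        rw [Finset.sum_const, Finset.card_univ, Fintype.card_fin, nsmul_eq_mul]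

theorem sol_eq (A : Matrix (Fin m) (Fin m) ℂ) (b : Fin m → ℂ) (hA : A.det ≠ 0) (i : Fin m) :
    ∑ j, A i j * sol A b j = b i := by
  have h1 : (fun j => sol A b j) = A.det⁻¹ • (A.adjugate.mulVec b) := by
    ext j
    rw [Pi.smul_apply, smul_eq_mul]
    rfl
  have h2 : A.mulVec (A.det⁻¹ • (A.adjugate.mulVec b)) = b := by
    rw [Matrix.mulVec_smul, Matrix.mulVec_mulVec, Matrix.mul_adjugate, Matrix.smul_mulVec,
      Matrix.one_mulVec, smul_smul, inv_mul_cancel₀ hA, one_smul]
  have h3 := congrFun h2 i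
  rw [← h1] at h3
  exact h3

end mx

section thm

variable {E : Type} [NormedAddCommGroup E] [NormedSpace ℂ E] {m : ℕ}

/-- the matrix `1 - κ v i (R(z) u j)` -/
noncomputable def MM (f : Fin m → Fin m → ℂ → ℂ) (κ z : ℂ) : Matrix (Fin m) (Fin m) ℂ :=
  Matrix.of fun i j => (if i = j then 1 else 0) - κ * f j i z

theorem MM_apply (f : Fin m → Fin m → ℂ → ℂ) (κ z : ℂ) (i j : Fin m) :
    MM f κ z i j = (if i = j then 1 else 0) - κ * f j i z := rfl

theorem MM_meas (f : Fin m → Fin m → ℂ → ℂ) (hf : ∀ i j, Measurable (f i j)) (κ : ℂ) (i j : Fin m) :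
    Measurable fun z => MM f κ z i j := by
  simp only [MM_apply]
  exact measurable_const.sub ((hf j i).const_mul κ)

theorem lm_zero' : lm 0 = ∞ := if_pos rfl

theorem lm_meas : Measurable lm := by
  unfold lm
  refine Measurable.ite (measurableSet_singleton 0) measurable_const ?_
  refine ENNReal.measurable_ofReal.comp ?_
  have : Measurable Real.posLog := by
    unfold Real.posLog
    exact measurable_const.max Real.measurable_log
  exact this.comp measurable_inv

theorem pert_locv [CompleteSpace E] (T₀ T : E →L[ℂ] E) (v : Fin m → (E →L[ℂ] ℂ)) (u : Fin m → E)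
    (κ : ℂ) (hT : ∀ x, T x = T₀ x + κ • ∑ j, v j x • u j)
    (W : Fin m → ℂ → ℝ) (X : Fin m → (ℂ → ℂ) → E) (f : Fin m → Fin m → ℂ → ℂ)
    (hB : ∀ j, Bas T₀ v (u j) (W j) (X j) (f j))
    (hall : ∀ w : E, ∃ (Ww : ℂ → ℝ) (Xw : (ℂ → ℂ) → E) (fw : Fin m → ℂ → ℂ),
      Bas T₀ v w Ww Xw fw)
    (hdet : ∀ (c : ℂ) (ρ : ℝ), 0 < ρ → ∫⁻ z in closedBall c ρ, lm ‖(MM f κ z).det‖ ≠ ∞) :
    LocV T := by
  intro c hc ε hε
  rcases spec_cases T c hc with ⟨x, hx0, hx⟩ | ⟨w, hwr⟩
  · exact local_of_eigen T c x hx0 hx ε hε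
  obtain ⟨Ww, Xw, fw, hw⟩ := hall w
  have hMm := MM_meas f (fun i j => (hB i).fm j) κ
  have hDm : Measurable fun z => (MM f κ z).det := det_meas _ hMm
  have hlmm : Measurable fun z => lm ‖(MM f κ z).det‖ := lm_meas.comp hDm.norm
  -- the determinant does not vanish
  have hD0 : ∀ᵐ z : ℂ, (MM f κ z).det ≠ 0 := by
    have h1 : ∀ n : ℕ, ∀ᵐ z : ℂ, z ∈ closedBall (0:ℂ) ((n : ℝ) + 1) → (MM f κ z).det ≠ 0 := by
      intro n
      have h2 := ae_lt_top hlmm (hdet 0 ((n : ℝ) + 1) (by positivity))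
      rw [ae_restrict_iff' isClosed_closedBall.measurableSet] at h2
      filter_upwards [h2] with z hz hzb h3
      have h4 := hz hzb
      rw [h3, norm_zero, lm_zero'] at h4
      exact lt_irrefl _ h4
    filter_upwards [ae_all_iff.2 h1] with z hz
    obtain ⟨n, hn⟩ := exists_nat_gt ‖z‖
    refine hz n ?_
    rw [mem_closedBall_zero_iff]
    linarith
  set s : Fin m → ℂ → ℂ := fun i z => sol (MM f κ z) (fun j => fw j z) i with hs
  have hsm : ∀ j, Measurable (s j) := by
    intro j
    have h1 : Measurable fun z => ∑ i, (MM f κ z).adjugate j i * fw i z :=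
      Finset.measurable_sum _ fun i _ => (adj_meas _ hMm j i).mul (hw.fm i)
    exact hDm.inv.mul h1
  set L : ℂ → ℝ := fun z => Real.log (Ww z) + ∑ j, Real.log (W j z) with hL
  have hlw : ∀ z, 0 ≤ Real.log (Ww z) := fun z => Real.log_nonneg (hw.W1 z)
  have hlj : ∀ j z, 0 ≤ Real.log (W j z) := fun j z => Real.log_nonneg ((hB j).W1 z)
  have hL0 : ∀ z, 0 ≤ L z := fun z => add_nonneg (hlw z) (Finset.sum_nonneg fun j _ => hlj j z)
  have hLm : Measurable L := (Real.measurable_log.comp hw.Wm).add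
    (Finset.measurable_sum _ fun j _ => Real.measurable_log.comp (hB j).Wm)
  have hWwL : ∀ z, Ww z ≤ Real.exp (L z) := by
    intro z
    have h1 : Real.log (Ww z) ≤ L z :=
      le_add_of_nonneg_right (Finset.sum_nonneg fun j _ => hlj j z)
    calc Ww z = Real.exp (Real.log (Ww z)) :=
          (Real.exp_log (lt_of_lt_of_le one_pos (hw.W1 z))).symm
      _ ≤ _ := Real.exp_le_exp.2 h1
  have hWjL : ∀ j z, W j z ≤ Real.exp (L z) := by
    intro j z
    have h1 : Real.log (W j z) ≤ L z := by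
      have h2 : Real.log (W j z) ≤ ∑ i, Real.log (W i z) :=
        Finset.single_le_sum (f := fun i => Real.log (W i z)) (fun i _ => hlj i z)
          (Finset.mem_univ j)
      exact h2.trans (le_add_of_nonneg_left (hlw z))
    calc W j z = Real.exp (Real.log (W j z)) :=
          (Real.exp_log (lt_of_lt_of_le one_pos ((hB j).W1 z))).symm
      _ ≤ _ := Real.exp_le_exp.2 h1
  set c₀ : ℝ := 1 + m * (m.factorial : ℝ) * (1 + ‖κ‖) ^ m with hc₀
  have hc₀1 : 1 ≤ c₀ := by
    rw [hc₀]
    have : 0 ≤ m * (m.factorial : ℝ) * (1 + ‖κ‖) ^ m := by positivity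
    linarith
  set W' : ℂ → ℝ := fun z => c₀ * Real.exp ((m + 2) * L z) * (1 + ‖(MM f κ z).det‖⁻¹) with hW'
  have hW'm : Measurable W' :=
    ((Real.measurable_exp.comp (hLm.const_mul _)).const_mul _).mul
      ((hDm.norm.inv).const_add 1)
  have hexp1 : ∀ z, Real.exp (L z) ≤ Real.exp ((m + 2) * L z) := by
    intro z
    refine Real.exp_le_exp.2 ?_
    have h1 := hL0 z
    have h2 : (0:ℝ) ≤ m := m.cast_nonneg
    nlinarith
  have hinv0 : ∀ z, 0 ≤ ‖(MM f κ z).det‖⁻¹ := fun z => by positivity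
  have hbig : ∀ z, Real.exp ((m + 2) * L z) ≤ W' z := by
    intro z
    have h1 : 0 < Real.exp ((m + 2) * L z) := Real.exp_pos _
    calc Real.exp ((m + 2) * L z) = 1 * Real.exp ((m + 2) * L z) * 1 := by ring
      _ ≤ c₀ * Real.exp ((m + 2) * L z) * (1 + ‖(MM f κ z).det‖⁻¹) := by
        gcongr
        have := hinv0 z
        linarith
  have hW'w : ∀ z, Ww z ≤ W' z := fun z => (hWwL z).trans ((hexp1 z).trans (hbig z))
  have hW'1 : ∀ z, 1 ≤ W' z := fun z => (hw.W1 z).trans (hW'w z)
  have hW's : ∀ j z, ‖s j z‖ * W j z ≤ W' z := by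
    intro j z
    have hE1 : 1 ≤ Real.exp (L z) := Real.one_le_exp (hL0 z)
    have hκ0 : 0 ≤ ‖κ‖ := norm_nonneg κ
    have hQ1 : 1 ≤ (1 + ‖κ‖) * Real.exp (L z) := by nlinarith
    have hent : ∀ i j, ‖MM f κ z i j‖ ≤ (1 + ‖κ‖) * Real.exp (L z) := by
      intro i j
      rw [MM_apply]
      refine (norm_sub_le _ _).trans ?_
      have h1 : ‖(if i = j then (1:ℂ) else 0)‖ ≤ 1 := by
        split_ifs <;> simp
      have h2 : ‖κ * f j i z‖ ≤ ‖κ‖ * Real.exp (L z) := by
        rw [norm_mul]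
        exact mul_le_mul_of_nonneg_left (((hB j).fW i z).trans (hWjL j z)) hκ0
      nlinarith
    have h3 := sol_bd (MM f κ z) (fun j => fw j z) _ (Real.exp (L z)) hQ1 hent
      (fun i => (hw.fW i z).trans (hWwL z)) j
    calc ‖s j z‖ * W j z
        ≤ (‖(MM f κ z).det‖⁻¹ * (m * ((m.factorial : ℝ) * ((1 + ‖κ‖) * Real.exp (L z)) ^ m *
            Real.exp (L z)))) * Real.exp (L z) := by
          have hW0 : 0 ≤ W j z := zero_le_one.trans ((hB j).W1 z)
          exact mul_le_mul h3 (hWjL j z) hW0 (by positivity)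
      _ = (m * (m.factorial : ℝ) * (1 + ‖κ‖) ^ m) * Real.exp ((m + 2) * L z) *
            ‖(MM f κ z).det‖⁻¹ := by
          have h4 : Real.exp ((m + 2) * L z) = Real.exp (L z) ^ m * Real.exp (L z) *
              Real.exp (L z) := by
            rw [← Real.exp_nat_mul, ← Real.exp_add, ← Real.exp_add]
            congr 1
            ring
          rw [h4, mul_pow]
          ring
      _ ≤ c₀ * Real.exp ((m + 2) * L z) * (1 + ‖(MM f κ z).det‖⁻¹) := by
          have h5 := hinv0 z
          gcongr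
          · rw [hc₀]
            linarith
          · linarith
  have hW'l : ∀ (c : ℂ) (ρ : ℝ), 0 < ρ →
      ∫⁻ z in closedBall c ρ, ENNReal.ofReal (Real.log (W' z)) ≠ ∞ := by
    intro c ρ hρ
    have hpt : ∀ z, ENNReal.ofReal (Real.log (W' z)) ≤ ENNReal.ofReal (Real.log c₀ + Real.log 2) +
        (ENNReal.ofReal (m + 2) * ENNReal.ofReal (Real.log (Ww z)) +
        ENNReal.ofReal (m + 2) * ∑ j, ENNReal.ofReal (Real.log (W j z))) +
        lm ‖(MM f κ z).det‖ := by
      intro z
      by_cases hd : (MM f κ z).det = 0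
      · rw [hd, norm_zero, lm_zero', add_top]
        exact le_top
      · have hdn : 0 < ‖(MM f κ z).det‖ := norm_pos_iff.2 hd
        have hlm : lm ‖(MM f κ z).det‖ = ENNReal.ofReal (Real.posLog ‖(MM f κ z).det‖⁻¹) :=
          if_neg hdn.ne'
        rw [hlm, ← ENNReal.ofReal_sum_of_nonneg fun j _ => hlj j z,
          ← ENNReal.ofReal_mul (by positivity), ← ENNReal.ofReal_mul (by positivity),
          ← ENNReal.ofReal_add (mul_nonneg (by positivity) (hlw z))
            (mul_nonneg (by positivity) (Finset.sum_nonneg fun j _ => hlj j z)),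
          ← ENNReal.ofReal_add (add_nonneg (Real.log_nonneg hc₀1) (Real.log_nonneg one_le_two))
            (add_nonneg (mul_nonneg (by positivity) (hlw z))
            (mul_nonneg (by positivity) (Finset.sum_nonneg fun j _ => hlj j z))),
          ← ENNReal.ofReal_add (add_nonneg
            (add_nonneg (Real.log_nonneg hc₀1) (Real.log_nonneg one_le_two))
            (add_nonneg (mul_nonneg (by positivity) (hlw z))
            (mul_nonneg (by positivity) (Finset.sum_nonneg fun j _ => hlj j z))))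
            Real.posLog_nonneg]
        apply ENNReal.ofReal_le_ofReal
        have h1 : Real.log (W' z) = Real.log c₀ + (m + 2) * L z +
            Real.log (1 + ‖(MM f κ z).det‖⁻¹) := by
          rw [hW']
          simp only
          rw [Real.log_mul (by positivity) (by have := hinv0 z; positivity),
            Real.log_mul (by positivity) (Real.exp_pos _).ne', Real.log_exp]
        have h2 : Real.log (1 + ‖(MM f κ z).det‖⁻¹) ≤
            Real.log 2 + Real.posLog ‖(MM f κ z).det‖⁻¹ := by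
          have h3 : 1 + ‖(MM f κ z).det‖⁻¹ ≤ 2 * max 1 ‖(MM f κ z).det‖⁻¹ := by
            have h4 := le_max_left 1 ‖(MM f κ z).det‖⁻¹
            have h5 := le_max_right 1 ‖(MM f κ z).det‖⁻¹
            linarith
          have h6 : (0:ℝ) < 1 + ‖(MM f κ z).det‖⁻¹ := by
            have := hinv0 z
            linarith
          have h7 : (0:ℝ) < max 1 ‖(MM f κ z).det‖⁻¹ := lt_of_lt_of_le one_pos (le_max_left _ _)
          have h8 := Real.log_le_log h6 h3
          rw [Real.log_mul two_ne_zero h7.ne'] at h8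
          have h9 : Real.log (max 1 ‖(MM f κ z).det‖⁻¹) = Real.posLog ‖(MM f κ z).det‖⁻¹ := by
            rw [Real.posLog_eq_log_max_one (hinv0 z)]
          linarith
        rw [h1, hL]
        simp only
        nlinarith
    refine ne_of_lt (lt_of_le_of_lt (lintegral_mono hpt) ?_)
    have hm1 : Measurable fun z => ENNReal.ofReal (Real.log (Ww z)) :=
      ENNReal.measurable_ofReal.comp (Real.measurable_log.comp hw.Wm)
    have hm2 : ∀ j, Measurable fun z => ENNReal.ofReal (Real.log (W j z)) := fun j =>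
      ENNReal.measurable_ofReal.comp (Real.measurable_log.comp (hB j).Wm)
    have hm3 : Measurable fun z => ∑ j, ENNReal.ofReal (Real.log (W j z)) :=
      Finset.measurable_sum _ fun j _ => hm2 j
    rw [lintegral_add_right _ hlmm, lintegral_add_left measurable_const,
      lintegral_add_left (hm1.const_mul _), lintegral_const_mul _ hm1, lintegral_const_mul _ hm3,
      lintegral_finsetSum _ fun j _ => hm2 j, lintegral_const]
    refine ENNReal.add_lt_top.2 ⟨ENNReal.add_lt_top.2 ⟨?_, ENNReal.add_lt_top.2 ⟨?_, ?_⟩⟩, ?_⟩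
    · refine ENNReal.mul_lt_top ENNReal.ofReal_lt_top ?_
      rw [Measure.restrict_apply_univ]
      exact measure_closedBall_lt_top
    · exact ENNReal.mul_lt_top ENNReal.ofReal_lt_top (lt_top_iff_ne_top.2 (hw.Wl c ρ hρ))
    · refine ENNReal.mul_lt_top ENNReal.ofReal_lt_top ?_
      exact ENNReal.sum_lt_top.2 fun j _ => lt_top_iff_ne_top.2 ((hB j).Wl c ρ hρ)
    · exact lt_top_iff_ne_top.2 (hdet c ρ hρ)
  have hsys : ∀ i, ∀ᵐ z : ℂ, s i z = fw i z + κ * ∑ j, f j i z * s j z := by
    intro i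
    filter_upwards [hD0] with z hz
    have h1 := sol_eq (MM f κ z) (fun j => fw j z) hz i
    simp only [MM_apply, sub_mul, Finset.sum_sub_distrib, ite_mul, one_mul, zero_mul,
      Finset.sum_ite_eq, Finset.mem_univ, if_true] at h1
    have h2 : ∑ x, κ * f x i z * sol (MM f κ z) (fun j => fw j z) x =
        κ * ∑ j, f j i z * s j z := by
      rw [Finset.mul_sum]
      exact Finset.sum_congr rfl fun j _ => by rw [hs]; ring
    rw [h2] at h1
    linear_combination h1
  refine vec_abs T W' hW'm hW'1 hW'l w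
    (fun h => Xw h + κ • ∑ j, X j (fun z => h z * s j z)) ?_ ?_ c hwr ε hε
  · intro c ρ C h hρ H
    exact pert_eqn T₀ T v u κ hT W X f hB w Ww Xw fw hw s hsm hsys W' hW'w hW's c ρ C h hρ H
  · intro c ρ hρ
    obtain ⟨Bw, hBw⟩ := hw.bdd c ρ hρ
    choose Bj hBj using fun j => (hB j).bdd c ρ hρ
    refine ⟨Bw + ‖κ‖ * ∑ j, Bj j, fun C h H => ?_⟩
    refine (norm_add_le _ _).trans ?_
    rw [norm_smul, mul_add]
    refine add_le_add (hBw C h (adm_mono H hW'w)) ?_
    have h1 : ‖∑ j, X j (fun z => h z * s j z)‖ ≤ ∑ j, C * Bj j :=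
      (norm_sum_le _ _).trans (Finset.sum_le_sum fun j _ =>
        hBj j C _ (adm_mul H (hsm j) (hW's j)))
    rw [← Finset.mul_sum] at h1
    calc ‖κ‖ * ‖∑ j, X j (fun z => h z * s j z)‖ ≤ ‖κ‖ * (C * ∑ j, Bj j) :=
          mul_le_mul_of_nonneg_left h1 (norm_nonneg _)
      _ = C * (‖κ‖ * ∑ j, Bj j) := by ring

end thm

end Pool.Agent.U555.VM
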