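import Pool.Agent.U555.VM.Mono

/-!
# Multiplication operators and causal operators on `L^p`
-/

set_option autoImplicit false

open MeasureTheory Set Filter Topology
open scoped ENNReal

namespace Pool.Agent.U555.VM

variable {Ω : Type} [MeasurableSpace Ω] {μ : Measure Ω} {τ : Ω → ℝ} {p q : ℝ≥0∞}

/-- multiplication by a bounded function -/
theorem exists_mul [Fact (1 ≤ p)] (h : Ω → ℂ) (hm : AEStronglyMeasurable h μ) (C : ℝ)
    (hC0 : 0 ≤ C) (hC : ∀ᵐ x ∂μ, ‖h x‖ ≤ C) :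
    ∃ M : Lp ℂ p μ →L[ℂ] Lp ℂ p μ, (∀ f : Lp ℂ p μ, ∀ᵐ x ∂μ, (M f) x = h x * f x) ∧ ‖M‖ ≤ C := by
  have hL : MemLp h ∞ μ := memLp_top_of_bound hm C hC
  let M : Lp ℂ p μ →L[ℂ] Lp ℂ p μ :=
    (ContinuousLinearMap.mul ℂ ℂ).holderL μ ∞ p p (hL.toLp h)
  have hM : ∀ f : Lp ℂ p μ, ∀ᵐ x ∂μ, (M f) x = h x * f x := by
    intro f
    have h1 := ContinuousLinearMap.coeFn_holder (r := p) (ContinuousLinearMap.mul ℂ ℂ)
      (hL.toLp h) f
    filter_upwards [h1, hL.coeFn_toLp] with x hx1 hx2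
    have h2 : (M f) x = ((ContinuousLinearMap.mul ℂ ℂ).holder p (hL.toLp h) f) x := rfl
    rw [h2, hx1, hx2]
    rfl
  refine ⟨M, hM, ?_⟩
  refine ContinuousLinearMap.opNorm_le_bound _ hC0 fun f => ?_
  refine Lp.norm_le_mul_norm_of_ae_le_mul ?_
  filter_upwards [hM f, hC] with x hx1 hx2
  rw [hx1, norm_mul]
  gcongr

/-- the part of `b |f|` before `x` -/
noncomputable def JJ (μ : Measure Ω) (τ : Ω → ℝ) (b : Ω → ℝ≥0∞) (f : Ω → ℂ) (x : Ω) : ℝ≥0∞ :=
  ∫⁻ y in {y | τ y < τ x}, b y * ‖f y‖ₑ ∂μ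

theorem JJ_le (b : Ω → ℝ≥0∞) (f : Ω → ℂ) (x : Ω) : JJ μ τ b f x ≤ ∫⁻ y, b y * ‖f y‖ₑ ∂μ :=
  setLIntegral_le_lintegral _ _

/-- the iterates of an operator with a causal bound -/
theorem iterate_le [Fact (1 ≤ p)] (hτ : Measurable τ) (b c : Ω → ℝ≥0∞) (hb : Measurable b)
    (hc : Measurable c) (hfin : IsFiniteMeasure (μ.withDensity fun x => b x * c x))
    (W : Lp ℂ p μ →L[ℂ] Lp ℂ p μ)
    (hW : ∀ f : Lp ℂ p μ, ∀ᵐ x ∂μ, ‖(W f) x‖ₑ ≤ c x * JJ μ τ b f x) (g : Lp ℂ p μ) (k : ℕ) :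
    ∀ᵐ x ∂μ, ‖((W ^ (k + 1)) g) x‖ₑ ≤ c x * ((∫⁻ y, b y * ‖g y‖ₑ ∂μ) *
      (ENNReal.ofReal ((1 / 2 : ℝ) ^ k) *
        ENNReal.ofReal (Real.exp (2 * NN (μ.withDensity fun x => b x * c x) τ x)))) := by
  set ν : Measure Ω := μ.withDensity fun x => b x * c x with hν
  have hbc : Measurable fun x => b x * c x := hb.mul hc
  have hNm : Measurable (NN ν τ) := measurable_NN hτ
  have hem : Measurable fun x => ENNReal.ofReal (Real.exp (2 * NN ν τ x)) :=
    ENNReal.measurable_ofReal.comp (Real.measurable_exp.comp (hNm.const_mul 2))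
  induction k with
  | zero =>
    filter_upwards [hW g] with x hx
    rw [zero_add, pow_one]
    refine hx.trans ?_
    gcongr
    refine (JJ_le b g x).trans ?_
    rw [pow_zero, ENNReal.ofReal_one, one_mul]
    refine le_mul_of_one_le_right zero_le ?_
    rw [← ENNReal.ofReal_one]
    apply ENNReal.ofReal_le_ofReal
    have := NN_nonneg (ν := ν) (τ := τ) x
    exact Real.one_le_exp (by linarith)
  | succ k ih =>
    filter_upwards [hW ((W ^ (k + 1)) g)] with x hx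
    have h1 : (W ^ (k + 1 + 1)) g = W ((W ^ (k + 1)) g) := by
      rw [pow_succ' W (k + 1)]
      rfl
    rw [h1]
    refine hx.trans ?_
    gcongr
    unfold JJ
    set B : ℝ≥0∞ := ∫⁻ y, b y * ‖g y‖ₑ ∂μ with hB
    calc ∫⁻ y in {y | τ y < τ x}, b y * ‖((W ^ (k + 1)) g) y‖ₑ ∂μ
        ≤ ∫⁻ y in {y | τ y < τ x}, (B * ENNReal.ofReal ((1 / 2 : ℝ) ^ k)) *
            ((b y * c y) * ENNReal.ofReal (Real.exp (2 * NN ν τ y))) ∂μ := by
          refine lintegral_mono_ae (ae_restrict_of_ae ?_)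
          filter_upwards [ih] with y hy
          calc b y * ‖((W ^ (k + 1)) g) y‖ₑ
              ≤ b y * (c y * (B * (ENNReal.ofReal ((1 / 2 : ℝ) ^ k) *
                ENNReal.ofReal (Real.exp (2 * NN ν τ y))))) := by gcongr
            _ = _ := by ring
      _ = (B * ENNReal.ofReal ((1 / 2 : ℝ) ^ k)) *
            ∫⁻ y in {y | τ y < τ x}, (b y * c y) *
              ENNReal.ofReal (Real.exp (2 * NN ν τ y)) ∂μ := by
          rw [lintegral_const_mul]
          exact hbc.mul hem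
      _ = (B * ENNReal.ofReal ((1 / 2 : ℝ) ^ k)) *
            ∫⁻ y in {y | τ y < τ x}, ENNReal.ofReal (Real.exp (2 * NN ν τ y)) ∂ν := by
          congr 1
          rw [hν, setLIntegral_withDensity_eq_setLIntegral_mul _ hbc hem
            (measurableSet_lt hτ measurable_const)]
          rfl
      _ ≤ (B * ENNReal.ofReal ((1 / 2 : ℝ) ^ k)) *
            ENNReal.ofReal (Real.exp (2 * NN ν τ x) / 2) := by
          gcongr
          exact exp_le hτ x
      _ = B * (ENNReal.ofReal ((1 / 2 : ℝ) ^ (k + 1)) *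
            ENNReal.ofReal (Real.exp (2 * NN ν τ x))) := by
          rw [mul_assoc, ← ENNReal.ofReal_mul (by positivity), ← ENNReal.ofReal_mul (by positivity)]
          congr 2
          ring

/-- Hölder's inequality -/
theorem holder_le [hpq : ENNReal.HolderTriple q p 1] (b : Ω → ℝ) (hb0 : ∀ x, 0 ≤ b x)
    (hb : MemLp b q μ) (g : Lp ℂ p μ) :
    ∫⁻ y, ENNReal.ofReal (b y) * ‖g y‖ₑ ∂μ ≤ eLpNorm b q μ * ‖g‖ₑ := by
  have h1 := eLpNorm_smul_le_mul_eLpNorm (p := q) (q := p) (r := 1) (μ := μ)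
    (Lp.aestronglyMeasurable g) hb.1
  rw [eLpNorm_one_eq_lintegral_enorm, ← Lp.enorm_def] at h1
  refine le_trans (le_of_eq ?_) h1
  refine lintegral_congr fun y => ?_
  simp only [Pi.smul_apply', Real.enorm_eq_ofReal (hb0 y), enorm_smul]

end Pool.Agent.U555.VM
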