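import Pool.Agent.U555.VM.Ker
import Pool.Agent.H136R3.Dom

/-!
# Potentials with the kernel `1 / |z|`
-/

set_option autoImplicit false

open MeasureTheory Set Filter Topology Metric
open scoped ENNReal

namespace Pool.Agent.U555.VM

variable {Ω : Type} [MeasurableSpace Ω] {μ : Measure Ω} {τ : Ω → ℝ} {p q : ℝ≥0∞}

theorem inv_int (w c : ℂ) (R : ℝ) (hR : 0 < R) :
    ∫⁻ z in ball c R, ‖(z - w)⁻¹‖ₑ ≤ ENNReal.ofReal (3 * Real.pi * R) := by
  refine le_trans (lintegral_mono fun z => ?_) (Pool.Agent.H136R3.lint_inv w c R hR)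
  by_cases hz : z - w = 0
  · rw [hz, inv_zero, enorm_zero]
    exact zero_le
  · rw [enorm_inv hz, ← neg_sub, enorm_neg]

theorem pot_lt [SFinite μ] (φ : Ω → ℂ) (hφ : Measurable φ) (g : Ω → ℝ≥0∞) (hg : Measurable g)
    (hgi : ∫⁻ x, g x ∂μ ≠ ∞) (c : ℂ) (R : ℝ) (hR : 0 < R) :
    ∫⁻ z in ball c R, ∫⁻ x, g x * ‖(z - φ x)⁻¹‖ₑ ∂μ < ∞ := by
  have hmeas : Measurable (Function.uncurry fun (z : ℂ) (x : Ω) => g x * ‖(z - φ x)⁻¹‖ₑ) := by
    change Measurable (fun w : ℂ × Ω => g w.2 * ‖(w.1 - φ w.2)⁻¹‖ₑ)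
    have h1 : Measurable fun w : ℂ × Ω => g w.2 := hg.comp measurable_snd
    have h2 : Measurable fun w : ℂ × Ω => ‖(w.1 - φ w.2)⁻¹‖ₑ :=
      ((measurable_fst.sub (hφ.comp measurable_snd)).inv).enorm
    exact h1.mul h2
  rw [lintegral_lintegral_swap hmeas.aemeasurable]
  have h1 : ∀ x : Ω, ∫⁻ z in ball c R, g x * ‖(z - φ x)⁻¹‖ₑ ≤
      g x * ENNReal.ofReal (3 * Real.pi * R) := by
    intro x
    have h2 : Measurable fun z : ℂ => ‖(z - φ x)⁻¹‖ₑ := (measurable_id.sub_const _).inv.enorm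
    rw [lintegral_const_mul _ h2]
    gcongr
    exact inv_int (φ x) c R hR
  refine lt_of_le_of_lt (lintegral_mono h1) ?_
  rw [lintegral_mul_const' _ _ ENNReal.ofReal_ne_top]
  exact ENNReal.mul_lt_top (lt_top_iff_ne_top.2 hgi) ENNReal.ofReal_lt_top

theorem pot_ae [SFinite μ] (φ : Ω → ℂ) (hφ : Measurable φ) (g : Ω → ℝ≥0∞) (hg : Measurable g)
    (hgi : ∫⁻ x, g x ∂μ ≠ ∞) : ∀ᵐ z : ℂ, ∫⁻ x, g x * ‖(z - φ x)⁻¹‖ₑ ∂μ ≠ ∞ := by
  have hm : Measurable fun z : ℂ => ∫⁻ x, g x * ‖(z - φ x)⁻¹‖ₑ ∂μ := by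
    have h1 : Measurable fun w : ℂ × Ω => g w.2 := hg.comp measurable_snd
    have h2 : Measurable fun w : ℂ × Ω => ‖(w.1 - φ w.2)⁻¹‖ₑ :=
      ((measurable_fst.sub (hφ.comp measurable_snd)).inv).enorm
    exact (h1.mul h2).lintegral_prod_right' (ν := μ)
  have h1 : ∀ n : ℕ, ∀ᵐ z : ℂ, z ∈ ball (0:ℂ) ((n : ℝ) + 1) →
      ∫⁻ x, g x * ‖(z - φ x)⁻¹‖ₑ ∂μ ≠ ∞ := by
    intro n
    have h2 := ae_lt_top hm (pot_lt φ hφ g hg hgi 0 ((n : ℝ) + 1) (by positivity)).ne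
    rw [ae_restrict_iff' isOpen_ball.measurableSet] at h2
    filter_upwards [h2] with z hz hzb
    exact (hz hzb).ne
  filter_upwards [ae_all_iff.2 h1] with z hz
  obtain ⟨n, hn⟩ := exists_nat_gt ‖z‖
  refine hz n ?_
  rw [mem_ball_zero_iff]
  linarith

/-- Hölder's inequality -/
theorem holder_fun [ENNReal.HolderTriple q p 1] (b : Ω → ℝ) (hb0 : ∀ x, 0 ≤ b x)
    (hb : MemLp b q μ) (u : Ω → ℂ) (hu : MemLp u p μ) :
    ∫⁻ y, ENNReal.ofReal (b y) * ‖u y‖ₑ ∂μ ≤ eLpNorm b q μ * eLpNorm u p μ := by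
  have h1 := eLpNorm_smul_le_mul_eLpNorm (p := q) (q := p) (r := 1) (μ := μ) hu.1 hb.1
  rw [eLpNorm_one_eq_lintegral_enorm] at h1
  refine le_trans (le_of_eq ?_) h1
  refine lintegral_congr fun y => ?_
  simp only [Pi.smul_apply', Real.enorm_eq_ofReal (hb0 y), enorm_smul]

theorem holder_ab [ENNReal.HolderTriple q p 1] (a b : Ω → ℝ) (ha0 : ∀ x, 0 ≤ a x)
    (hb0 : ∀ x, 0 ≤ b x) (hb : MemLp b q μ) (ha : MemLp a p μ) :
    ∫⁻ y, ENNReal.ofReal (b y) * ENNReal.ofReal (a y) ∂μ ≤ eLpNorm b q μ * eLpNorm a p μ := by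
  have h1 := eLpNorm_smul_le_mul_eLpNorm (p := q) (q := p) (r := 1) (μ := μ) ha.1 hb.1
  rw [eLpNorm_one_eq_lintegral_enorm] at h1
  refine le_trans (le_of_eq ?_) h1
  refine lintegral_congr fun y => ?_
  simp only [Pi.smul_apply', Real.enorm_eq_ofReal (hb0 y), Real.enorm_eq_ofReal (ha0 y),
    enorm_smul]

variable {a b : Ω → ℝ} {k : Ω → Ω → ℂ} {φ u : Ω → ℂ}

theorem BB_eq (z : ℂ) : BB μ φ b u z =
    ∫⁻ x, (ENNReal.ofReal (b x) * ‖u x‖ₑ) * ‖(z - φ x)⁻¹‖ₑ ∂μ := by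
  refine lintegral_congr fun x => ?_
  ring

theorem KK_eq (z : ℂ) : KK μ φ a b z =
    ∫⁻ x, (ENNReal.ofReal (b x) * ENNReal.ofReal (a x)) * ‖(z - φ x)⁻¹‖ₑ ∂μ := by
  refine lintegral_congr fun x => ?_
  ring

theorem good_ae [SFinite μ] [ENNReal.HolderTriple q p 1] (hk : Ker τ a b k) (hφ : Measurable φ)
    (hu : Measurable u) (haL : MemLp a p μ) (hbL : MemLp b q μ) (huL : MemLp u p μ) :
    ∀ᵐ z : ℂ, KK μ φ a b z ≠ ∞ ∧ BB μ φ b u z ≠ ∞ := by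
  have h1 := pot_ae (μ := μ) φ hφ (fun x => ENNReal.ofReal (b x) * ENNReal.ofReal (a x))
    ((ENNReal.measurable_ofReal.comp hk.mb).mul (ENNReal.measurable_ofReal.comp hk.ma))
    (lt_of_le_of_lt (holder_ab a b hk.a0 hk.b0 hbL haL) (ENNReal.mul_lt_top hbL.2 haL.2)).ne
  have h2 := pot_ae (μ := μ) φ hφ (fun x => ENNReal.ofReal (b x) * ‖u x‖ₑ)
    ((ENNReal.measurable_ofReal.comp hk.mb).mul hu.enorm)
    (lt_of_le_of_lt (holder_fun b hk.b0 hbL u huL) (ENNReal.mul_lt_top hbL.2 huL.2)).ne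
  filter_upwards [h1, h2] with z hz1 hz2
  rw [KK_eq, BB_eq]
  exact ⟨hz1, hz2⟩

theorem logW [SFinite μ] [ENNReal.HolderTriple q p 1] (hk : Ker τ a b k) (hφ : Measurable φ)
    (hu : Measurable u) (haL : MemLp a p μ) (hbL : MemLp b q μ) (huL : MemLp u p μ) (c : ℂ)
    (R : ℝ) (hR : 0 < R) :
    ∫⁻ z in closedBall c R, ENNReal.ofReal (Real.log (WW μ φ a b u z)) ≠ ∞ := by
  have h1 := pot_lt (μ := μ) φ hφ (fun x => ENNReal.ofReal (b x) * ENNReal.ofReal (a x))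
    ((ENNReal.measurable_ofReal.comp hk.mb).mul (ENNReal.measurable_ofReal.comp hk.ma))
    (lt_of_le_of_lt (holder_ab a b hk.a0 hk.b0 hbL haL) (ENNReal.mul_lt_top hbL.2 haL.2)).ne
    c (R + 1) (by linarith)
  have h2 := pot_lt (μ := μ) φ hφ (fun x => ENNReal.ofReal (b x) * ‖u x‖ₑ)
    ((ENNReal.measurable_ofReal.comp hk.mb).mul hu.enorm)
    (lt_of_le_of_lt (holder_fun b hk.b0 hbL u huL) (ENNReal.mul_lt_top hbL.2 huL.2)).ne
    c (R + 1) (by linarith)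
  simp only [← KK_eq] at h1
  simp only [← BB_eq] at h2
  have hpt : ∀ z, ENNReal.ofReal (Real.log (WW μ φ a b u z)) ≤
      BB μ φ b u z + 2 * KK μ φ a b z := by
    intro z
    have h3 : (0:ℝ) ≤ (BB μ φ b u z).toReal := ENNReal.toReal_nonneg
    have h4 : (0:ℝ) ≤ (KK μ φ a b z).toReal := ENNReal.toReal_nonneg
    have h5 : Real.log (WW μ φ a b u z) ≤ (BB μ φ b u z).toReal + 2 * (KK μ φ a b z).toReal := by
      unfold WW
      rw [Real.log_mul (by positivity) (Real.exp_pos _).ne', Real.log_exp]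
      have h6 := Real.log_le_sub_one_of_pos (by linarith : 0 < 1 + (BB μ φ b u z).toReal)
      linarith
    refine (ENNReal.ofReal_le_ofReal h5).trans ?_
    rw [ENNReal.ofReal_add h3 (by positivity), ENNReal.ofReal_mul zero_le_two,
      ENNReal.ofReal_ofNat]
    gcongr
    · exact ENNReal.ofReal_toReal_le
    · exact ENNReal.ofReal_toReal_le
  refine ne_of_lt (lt_of_le_of_lt (lintegral_mono hpt) ?_)
  refine lt_of_le_of_lt (lintegral_mono_set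
    (closedBall_subset_ball (by linarith : R < R + 1))) ?_
  rw [lintegral_add_left (BB_meas hk.mb hφ hu), lintegral_const_mul _ (KK_meas hk.ma hk.mb hφ)]
  exact ENNReal.add_lt_top.2 ⟨h2, ENNReal.mul_lt_top (by norm_num) h1⟩

end Pool.Agent.U555.VM
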