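import Pool.Agent.U555.VM.Op

/-!
# Resolvents of multiplication operators with a causal perturbation
-/

set_option autoImplicit false

open MeasureTheory Set Filter Topology
open scoped ENNReal

namespace Pool.Agent.U555.VM

variable {Ω : Type} [MeasurableSpace Ω] {μ : Measure Ω} {τ : Ω → ℝ} {p q : ℝ≥0∞}

/-- the causal bound -/
def Causal (μ : Measure Ω) (τ : Ω → ℝ) (a b : Ω → ℝ) (φ : Ω → ℂ) [Fact (1 ≤ p)]
    (T : Lp ℂ p μ →L[ℂ] Lp ℂ p μ) : Prop :=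
  ∀ f : Lp ℂ p μ, ∀ᵐ x ∂μ, ‖(T f) x - φ x * f x‖ₑ ≤
    ENNReal.ofReal (a x) * JJ μ τ (fun y => ENNReal.ofReal (b y)) f x

theorem integrable_mul' [ENNReal.HolderTriple q p 1] (a b : Ω → ℝ)
    (ha : MemLp a p μ) (hb : MemLp b q μ) : Integrable (fun x => b x * a x) μ := by
  have h := ha.mul (p := q) (q := p) (r := 1) hb
  rw [memLp_one_iff_integrable] at h
  exact h

theorem integrable_m [ENNReal.HolderTriple q p 1] (a b : Ω → ℝ)
    (ha : MemLp a p μ) (hb : MemLp b q μ) (m : Ω → ℝ) (hm : Measurable m)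
    (hm0 : ∀ x, 0 ≤ m x) (δ : ℝ) (hmδ : ∀ᵐ x ∂μ, m x ≤ δ) :
    Integrable (fun x => b x * (m x * a x)) μ := by
  have h := integrable_mul' a b ha hb
  have h2 : Integrable (fun x => m x * (b x * a x)) μ := by
    refine h.bdd_mul (c := δ) hm.aestronglyMeasurable ?_
    filter_upwards [hmδ] with x hx
    rw [Real.norm_eq_abs, abs_of_nonneg (hm0 x)]
    exact hx
  refine h2.congr (Eventually.of_forall fun x => ?_)
  simp only
  ring

theorem mass_eq (a b : Ω → ℝ) (ha0 : ∀ x, 0 ≤ a x) (hb0 : ∀ x, 0 ≤ b x) (m : Ω → ℝ)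
    (hm0 : ∀ x, 0 ≤ m x) (hint : Integrable (fun x => b x * (m x * a x)) μ) :
    (μ.withDensity fun x => ENNReal.ofReal (b x) * ENNReal.ofReal (m x * a x)) univ =
      ENNReal.ofReal (∫ x, b x * (m x * a x) ∂μ) := by
  rw [withDensity_apply _ MeasurableSet.univ, Measure.restrict_univ,
    ofReal_integral_eq_lintegral_ofReal hint
      (Eventually.of_forall fun x => mul_nonneg (hb0 x) (mul_nonneg (hm0 x) (ha0 x)))]
  refine lintegral_congr fun x => ?_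
  rw [ENNReal.ofReal_mul (hb0 x)]

/-- norm bound of the iterates -/
theorem pow_norm_le [Fact (1 ≤ p)] [ENNReal.HolderTriple q p 1] (hτ : Measurable τ)
    (a b : Ω → ℝ) (ha : Measurable a) (hb : Measurable b) (ha0 : ∀ x, 0 ≤ a x)
    (hb0 : ∀ x, 0 ≤ b x) (haL : MemLp a p μ) (hbL : MemLp b q μ)
    (m : Ω → ℝ) (hm : Measurable m) (hm0 : ∀ x, 0 ≤ m x) (δ : ℝ) (hδ : 0 ≤ δ)
    (hmδ : ∀ᵐ x ∂μ, m x ≤ δ) (W : Lp ℂ p μ →L[ℂ] Lp ℂ p μ)
    (hW : ∀ f : Lp ℂ p μ, ∀ᵐ x ∂μ, ‖(W f) x‖ₑ ≤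
      ENNReal.ofReal (m x * a x) * JJ μ τ (fun y => ENNReal.ofReal (b y)) f x) (k : ℕ) :
    ‖W ^ (k + 1)‖ ≤ (1 / 2 : ℝ) ^ k * (δ * (eLpNorm a p μ).toReal * (eLpNorm b q μ).toReal *
      Real.exp (2 * ∫ x, b x * (m x * a x) ∂μ)) := by
  have hint := integrable_m a b haL hbL m hm hm0 δ hmδ
  have hmass := mass_eq (μ := μ) a b ha0 hb0 m hm0 hint
  set ν : Measure Ω := μ.withDensity fun x => ENNReal.ofReal (b x) * ENNReal.ofReal (m x * a x)
    with hν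
  have hfin : IsFiniteMeasure ν := ⟨by rw [hmass]; exact ENNReal.ofReal_lt_top⟩
  have hI0 : 0 ≤ ∫ x, b x * (m x * a x) ∂μ :=
    integral_nonneg fun x => mul_nonneg (hb0 x) (mul_nonneg (hm0 x) (ha0 x))
  have hreal : ν.real univ = ∫ x, b x * (m x * a x) ∂μ := by
    rw [measureReal_def, hmass, ENNReal.toReal_ofReal hI0]
  set I : ℝ := ∫ x, b x * (m x * a x) ∂μ with hI
  set A : ℝ := (eLpNorm a p μ).toReal with hA
  set B : ℝ := (eLpNorm b q μ).toReal with hB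
  refine ContinuousLinearMap.opNorm_le_bound _ (by positivity) fun g => ?_
  have h1 := iterate_le hτ (fun x => ENNReal.ofReal (b x)) (fun x => ENNReal.ofReal (m x * a x))
    (ENNReal.measurable_ofReal.comp hb) (ENNReal.measurable_ofReal.comp (hm.mul ha)) hfin W hW g k
  have h2 : ∀ᵐ x ∂μ, ‖((W ^ (k + 1)) g) x‖ ≤
      (δ * (B * ‖g‖ * ((1 / 2 : ℝ) ^ k * Real.exp (2 * I)))) * ‖(haL.toLp a : Lp ℝ p μ) x‖ := by
    filter_upwards [h1, hmδ, haL.coeFn_toLp] with x hx1 hx2 hx3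
    rw [hx3]
    have h3 : ‖((W ^ (k + 1)) g) x‖ₑ ≤ ENNReal.ofReal (δ * a x) *
        (ENNReal.ofReal (B * ‖g‖) * (ENNReal.ofReal ((1 / 2 : ℝ) ^ k) *
          ENNReal.ofReal (Real.exp (2 * I)))) := by
      refine hx1.trans ?_
      gcongr
      · exact ha0 x
      · refine (holder_le b hb0 hbL g).trans (le_of_eq ?_)
        rw [ENNReal.ofReal_mul ENNReal.toReal_nonneg, ENNReal.ofReal_toReal hbL.2.ne,
          ofReal_norm]
      · rw [← hreal]
        exact NN_le x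
    rw [← ENNReal.ofReal_mul (by positivity), ← ENNReal.ofReal_mul (by positivity),
      ← ENNReal.ofReal_mul (mul_nonneg hδ (ha0 x)), ← ofReal_norm,
      ENNReal.ofReal_le_ofReal_iff (mul_nonneg (mul_nonneg hδ (ha0 x)) (by positivity))] at h3
    rw [Real.norm_eq_abs, abs_of_nonneg (ha0 x)]
    refine h3.trans (le_of_eq ?_)
    ring
  have h4 := Lp.norm_le_mul_norm_of_ae_le_mul h2
  rw [Lp.norm_toLp] at h4
  refine h4.trans (le_of_eq ?_)
  rw [← hA]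
  ring

variable {X : Type} [NormedAddCommGroup X] [NormedSpace ℂ X] [CompleteSpace X]

/-- Neumann series -/
theorem neumann (W : X →L[ℂ] X) (K : ℝ)
    (h : ∀ k : ℕ, ‖W ^ (k + 1)‖ ≤ (1 / 2 : ℝ) ^ k * K) :
    ∃ S : X →L[ℂ] X, (1 - W) * S = 1 ∧ S * (1 - W) = 1 ∧ ‖S‖ ≤ 1 + 2 * K := by
  have hg : HasSum (fun k : ℕ => (1 / 2 : ℝ) ^ k) 2 := hasSum_geometric_two
  have hg2 : HasSum (fun k : ℕ => (1 / 2 : ℝ) ^ k * K) (2 * K) := hg.mul_right K
  have hs1 : Summable (fun k : ℕ => W ^ (k + 1)) := Summable.of_norm_bounded hg2.summable h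
  have hs : Summable (fun k : ℕ => W ^ k) := (summable_nat_add_iff 1).1 hs1
  have h0 : ∑' k : ℕ, W ^ k = 1 + ∑' k : ℕ, W ^ (k + 1) := by
    rw [hs.tsum_eq_zero_add, pow_zero]
  have hl : W * ∑' k : ℕ, W ^ k = ∑' k : ℕ, W ^ (k + 1) := by
    rw [← hs.tsum_mul_left]
    exact tsum_congr fun k => (pow_succ' W k).symm
  have hr : (∑' k : ℕ, W ^ k) * W = ∑' k : ℕ, W ^ (k + 1) := by
    rw [← hs.tsum_mul_right]
    exact tsum_congr fun k => (pow_succ W k).symm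
  refine ⟨∑' k : ℕ, W ^ k, ?_, ?_, ?_⟩
  · rw [sub_mul, one_mul, hl]
    conv_lhs => rw [h0]
    rw [add_sub_cancel_right]
  · rw [mul_sub, mul_one, hr]
    conv_lhs => rw [h0]
    rw [add_sub_cancel_right]
  · rw [h0]
    refine (norm_add_le _ _).trans ?_
    gcongr
    · exact ContinuousLinearMap.norm_id_le
    · exact tsum_of_norm_bounded hg2 h

end Pool.Agent.U555.VM
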