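import Pool.Agent.U555.VM.Res

/-!
# Resolvents of multiplication operators with a causal perturbation
-/

set_option autoImplicit false

open MeasureTheory Set Filter Topology
open scoped ENNReal

namespace Pool.Agent.U555.VM

variable {Ω : Type} [MeasurableSpace Ω] {μ : Measure Ω} {τ : Ω → ℝ} {p q : ℝ≥0∞}

/-- the resolvent at a point `z` with `|z - φ| ≥ d` -/
theorem resolvent_le [Fact (1 ≤ p)] [ENNReal.HolderTriple q p 1] (hτ : Measurable τ)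
    (a b : Ω → ℝ) (ha : Measurable a) (hb : Measurable b) (ha0 : ∀ x, 0 ≤ a x)
    (hb0 : ∀ x, 0 ≤ b x) (haL : MemLp a p μ) (hbL : MemLp b q μ)
    (φ : Ω → ℂ) (hφ : Measurable φ) (Cφ : ℝ) (hCφ0 : 0 ≤ Cφ) (hCφ : ∀ᵐ x ∂μ, ‖φ x‖ ≤ Cφ)
    (T : Lp ℂ p μ →L[ℂ] Lp ℂ p μ) (hT : Causal μ τ a b φ T)
    (z : ℂ) (d : ℝ) (hd : 0 < d) (hz : ∀ᵐ x ∂μ, d ≤ ‖z - φ x‖) :
    z ∈ resolventSet ℂ T ∧ ‖resolvent T z‖ ≤ (1 + 2 * (d⁻¹ * (eLpNorm a p μ).toReal *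
      (eLpNorm b q μ).toReal * Real.exp (2 * ∫ x, b x * (‖(z - φ x)⁻¹‖ * a x) ∂μ))) * d⁻¹ := by
  have hhm : Measurable fun x => (z - φ x)⁻¹ := (measurable_const.sub hφ).inv
  have hhb : ∀ᵐ x ∂μ, ‖(z - φ x)⁻¹‖ ≤ d⁻¹ := by
    filter_upwards [hz] with x hx
    rw [norm_inv]
    exact inv_anti₀ hd hx
  obtain ⟨Mφ, hMφ, -⟩ := exists_mul (μ := μ) (p := p) φ hφ.aestronglyMeasurable Cφ hCφ0 hCφ
  obtain ⟨Mh, hMh, hMhn⟩ := exists_mul (μ := μ) (p := p) (fun x => (z - φ x)⁻¹)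
    hhm.aestronglyMeasurable d⁻¹ (inv_nonneg.2 hd.le) hhb
  set D : Lp ℂ p μ →L[ℂ] Lp ℂ p μ := algebraMap ℂ (Lp ℂ p μ →L[ℂ] Lp ℂ p μ) z - Mφ with hD
  have hDx : ∀ f : Lp ℂ p μ, D f = z • f - Mφ f := by
    intro f
    rw [hD, ContinuousLinearMap.sub_apply, Algebra.algebraMap_eq_smul_one]
    rfl
  have hDae : ∀ f : Lp ℂ p μ, ∀ᵐ x ∂μ, (D f) x = (z - φ x) * f x := by
    intro f
    rw [hDx]
    filter_upwards [Lp.coeFn_sub (z • f) (Mφ f), Lp.coeFn_smul z f, hMφ f] with x h1 h2 h3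
    rw [h1, Pi.sub_apply, h2, h3, Pi.smul_apply, smul_eq_mul]
    ring
  have hMD : Mh * D = 1 := by
    ext1 f
    refine Lp.ext ?_
    have h1 : (Mh * D) f = Mh (D f) := rfl
    have h2 : (1 : Lp ℂ p μ →L[ℂ] Lp ℂ p μ) f = f := rfl
    rw [h1, h2]
    filter_upwards [hMh (D f), hDae f, hz] with x h3 h4 h5
    rw [h3, h4]
    have h6 : z - φ x ≠ 0 := by
      intro h
      rw [h, norm_zero] at h5
      linarith
    field_simp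
  have hDM : D * Mh = 1 := by
    ext1 f
    refine Lp.ext ?_
    have h1 : (D * Mh) f = D (Mh f) := rfl
    have h2 : (1 : Lp ℂ p μ →L[ℂ] Lp ℂ p μ) f = f := rfl
    rw [h1, h2]
    filter_upwards [hDae (Mh f), hMh f, hz] with x h3 h4 h5
    rw [h3, h4]
    have h6 : z - φ x ≠ 0 := by
      intro h
      rw [h, norm_zero] at h5
      linarith
    field_simp
  set V : Lp ℂ p μ →L[ℂ] Lp ℂ p μ := T - Mφ with hV
  set W : Lp ℂ p μ →L[ℂ] Lp ℂ p μ := Mh * V with hWdef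
  have hW : ∀ f : Lp ℂ p μ, ∀ᵐ x ∂μ, ‖(W f) x‖ₑ ≤
      ENNReal.ofReal (‖(z - φ x)⁻¹‖ * a x) * JJ μ τ (fun y => ENNReal.ofReal (b y)) f x := by
    intro f
    have h1 : W f = Mh (V f) := rfl
    have h2 : V f = T f - Mφ f := rfl
    rw [h1]
    filter_upwards [hMh (V f), Lp.coeFn_sub (T f) (Mφ f), hMφ f, hT f] with x h3 h4 h5 h6
    rw [h3, h2, h4, Pi.sub_apply, h5, enorm_mul, ENNReal.ofReal_mul (norm_nonneg _),
      ofReal_norm, mul_assoc]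
    gcongr
  have hpow := pow_norm_le hτ a b ha hb ha0 hb0 haL hbL (fun x => ‖(z - φ x)⁻¹‖) hhm.norm
    (fun x => norm_nonneg _) d⁻¹ (inv_nonneg.2 hd.le) hhb W hW
  obtain ⟨S, hS1, hS2, hS3⟩ := neumann W _ hpow
  have hfac : algebraMap ℂ (Lp ℂ p μ →L[ℂ] Lp ℂ p μ) z - T = D * (1 - W) := by
    rw [mul_sub, mul_one, hWdef, ← mul_assoc, hDM, one_mul, hV, hD]
    abel
  have h1 : (algebraMap ℂ (Lp ℂ p μ →L[ℂ] Lp ℂ p μ) z - T) * (S * Mh) = 1 := by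
    rw [hfac]
    calc D * (1 - W) * (S * Mh) = D * ((1 - W) * S) * Mh := by simp only [mul_assoc]
      _ = 1 := by rw [hS1, mul_one, hDM]
  have h2 : (S * Mh) * (algebraMap ℂ (Lp ℂ p μ →L[ℂ] Lp ℂ p μ) z - T) = 1 := by
    rw [hfac]
    calc S * Mh * (D * (1 - W)) = S * (Mh * D) * (1 - W) := by simp only [mul_assoc]
      _ = 1 := by rw [hMD, mul_one, hS2]
  have hu : IsUnit (algebraMap ℂ (Lp ℂ p μ →L[ℂ] Lp ℂ p μ) z - T) :=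
    ⟨⟨_, S * Mh, h1, h2⟩, rfl⟩
  refine ⟨hu, ?_⟩
  have h3 : resolvent T z = S * Mh := by
    unfold resolvent
    have h4 := Ring.inverse_mul_cancel _ hu
    calc Ring.inverse (algebraMap ℂ (Lp ℂ p μ →L[ℂ] Lp ℂ p μ) z - T)
        = Ring.inverse (algebraMap ℂ (Lp ℂ p μ →L[ℂ] Lp ℂ p μ) z - T) *
          ((algebraMap ℂ (Lp ℂ p μ →L[ℂ] Lp ℂ p μ) z - T) * (S * Mh)) := by rw [h1, mul_one]
      _ = S * Mh := by rw [← mul_assoc, h4, one_mul]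
  rw [h3]
  refine (norm_mul_le _ _).trans ?_
  have h5 : 0 ≤ ‖Mh‖ := norm_nonneg _
  gcongr

end Pool.Agent.U555.VM
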