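import Pool.Agent.U555.VM.Res2

/-!
# The essential range is in the spectrum
-/

set_option autoImplicit false

open MeasureTheory Set Filter Topology
open scoped ENNReal

namespace Pool.Agent.U555.VM

variable {Ω : Type} [MeasurableSpace Ω] {μ : Measure Ω} {τ : Ω → ℝ} {p q : ℝ≥0∞}

/-- small sets of positive measure in the time variable -/
theorem exists_small (hτ : Measurable τ) (hat : ∀ t : ℝ, μ {x | τ x = t} = 0) (D : Set Ω)
    (hD : MeasurableSet D) (hD0 : μ D ≠ 0) (hD1 : μ D ≠ ∞) (δ : ℝ≥0∞) (hδ : 0 < δ) :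
    ∃ A ⊆ D, MeasurableSet A ∧ μ A ≠ 0 ∧ μ A < δ := by
  have hm : (Measure.map τ (μ.restrict D)) univ ≠ 0 := by
    rw [Measure.map_apply hτ MeasurableSet.univ, preimage_univ, Measure.restrict_apply_univ]
    exact hD0
  obtain ⟨t, -, ht⟩ := exists_mem_forall_mem_nhdsWithin_pos_measure hm
  let A : ℕ → Set Ω := fun n => D ∩ τ ⁻¹' (Metric.closedBall t (1 / ((n : ℝ) + 1)))
  have hAm : ∀ n, MeasurableSet (A n) := fun n =>
    hD.inter (hτ Metric.isClosed_closedBall.measurableSet)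
  have h1 : Tendsto (fun n => μ (A n)) atTop (𝓝 (μ (⋂ n, A n))) := by
    refine tendsto_measure_iInter_atTop (fun n => (hAm n).nullMeasurableSet) ?_
      ⟨0, ne_top_of_le_ne_top hD1 (measure_mono inter_subset_left)⟩
    intro m n hmn
    refine inter_subset_inter_right _ (preimage_mono (Metric.closedBall_subset_closedBall ?_))
    have : (m : ℝ) ≤ n := by exact_mod_cast hmn
    exact one_div_le_one_div_of_le (by positivity) (by linarith)
  have h2 : μ (⋂ n, A n) = 0 := by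
    refine measure_mono_null ?_ (hat t)
    intro x hx
    rw [mem_iInter] at hx
    have h3 : ∀ n : ℕ, dist (τ x) t ≤ 1 / ((n : ℝ) + 1) := fun n => (hx n).2
    have h4 : dist (τ x) t ≤ 0 :=
      ge_of_tendsto' tendsto_one_div_add_atTop_nhds_zero_nat h3
    exact dist_le_zero.1 h4
  rw [h2] at h1
  obtain ⟨n, hn⟩ := (h1.eventually (gt_mem_nhds hδ)).exists
  refine ⟨A n, inter_subset_left, hAm n, ?_, hn⟩
  have h5 : Metric.closedBall t (1 / ((n : ℝ) + 1)) ∈ 𝓝[univ] t := by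
    rw [nhdsWithin_univ]
    exact Metric.closedBall_mem_nhds t (by positivity)
  have h6 := ht _ h5
  rw [Measure.map_apply hτ Metric.isClosed_closedBall.measurableSet,
    Measure.restrict_apply (hτ Metric.isClosed_closedBall.measurableSet)] at h6
  have h7 : A n = τ ⁻¹' (Metric.closedBall t (1 / ((n : ℝ) + 1))) ∩ D := inter_comm _ _
  rw [h7]
  exact h6.ne'

theorem mem_spectrum [SigmaFinite μ] [Fact (1 ≤ p)] [ENNReal.HolderTriple q p 1]
    (hq1 : 1 ≤ q) (hq : q ≠ ∞) (hτ : Measurable τ)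
    (hat : ∀ t : ℝ, μ {x | τ x = t} = 0)
    (a b : Ω → ℝ) (ha0 : ∀ x, 0 ≤ a x) (hb0 : ∀ x, 0 ≤ b x)
    (haL : MemLp a p μ) (hbL : MemLp b q μ) (φ : Ω → ℂ) (hφ : Measurable φ)
    (T : Lp ℂ p μ →L[ℂ] Lp ℂ p μ) (hT : Causal μ τ a b φ T) (c : ℂ)
    (hc : ∀ ε : ℝ, 0 < ε → μ {x | ‖φ x - c‖ < ε} ≠ 0) : c ∈ spectrum ℂ T := by
  intro hcon
  have hcon' : IsUnit (algebraMap ℂ (Lp ℂ p μ →L[ℂ] Lp ℂ p μ) c - T) := hcon
  set R : Lp ℂ p μ →L[ℂ] Lp ℂ p μ := Ring.inverse (algebraMap ℂ (Lp ℂ p μ →L[ℂ] Lp ℂ p μ) c - T)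
    with hR
  have hRm : R * (algebraMap ℂ (Lp ℂ p μ →L[ℂ] Lp ℂ p μ) c - T) = 1 :=
    Ring.inverse_mul_cancel _ hcon'
  set K : ℝ := ‖R‖ + 1 with hK
  have hK0 : 0 < K := by positivity
  set Ap : ℝ := (eLpNorm a p μ).toReal with hAp
  have hAp0 : 0 ≤ Ap := ENNReal.toReal_nonneg
  set ε : ℝ := 1 / (4 * K) with hε
  have hε0 : 0 < ε := by positivity
  set η : ℝ := 1 / (4 * K * (Ap + 1)) with hη
  have hη0 : 0 < η := by positivity
  have hDm : MeasurableSet {x | ‖φ x - c‖ < ε} :=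
    measurableSet_lt (hφ.sub_const c).norm measurable_const
  obtain ⟨D', hD'm, hD'D, hD'0, hD'1⟩ :=
    Measure.exists_subset_measure_lt_top (μ := μ) hDm (pos_iff_ne_zero.2 (hc ε hε0))
  obtain ⟨δ, hδ0, hδ⟩ := hbL.eLpNorm_indicator_le hq1 hq hη0
  obtain ⟨A, hAD, hAm, hA0, hAδ⟩ := exists_small hτ hat D' hD'm hD'0.ne' hD'1.ne
    (ENNReal.ofReal δ) (ENNReal.ofReal_pos.2 hδ0)
  have hA1 : μ A ≠ ∞ := ne_top_of_le_ne_top hD'1.ne (measure_mono hAD)
  have hbA := hδ A hAm hAδ.le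
  set f : Lp ℂ p μ := indicatorConstLp p hAm hA1 (1 : ℂ) with hf
  have hfx : ∀ᵐ x ∂μ, f x = A.indicator (fun _ => (1 : ℂ)) x := indicatorConstLp_coeFn
  have hfne : f ≠ 0 := by
    intro h
    have h1 : ∀ᵐ x ∂μ, x ∉ A := by
      have h2 : ∀ᵐ x ∂μ, f x = 0 := by
        rw [h]
        exact Lp.coeFn_zero ℂ p μ
      filter_upwards [hfx, h2] with x hx1 hx2 hxA
      rw [hx1, indicator_of_mem hxA] at hx2
      exact one_ne_zero hx2
    exact hA0 (by simpa [ae_iff] using h1)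
  have hfpos : 0 < ‖f‖ := norm_pos_iff.2 hfne
  -- the functional part
  have hJ : ∀ x, JJ μ τ (fun y => ENNReal.ofReal (b y)) f x ≤ ENNReal.ofReal (η * ‖f‖) := by
    intro x
    refine (JJ_le _ _ x).trans ?_
    have h1 : ∫⁻ y, ENNReal.ofReal (b y) * ‖f y‖ₑ ∂μ =
        ∫⁻ y, ENNReal.ofReal (A.indicator b y) * ‖f y‖ₑ ∂μ := by
      refine lintegral_congr_ae ?_
      filter_upwards [hfx] with y hy
      by_cases hyA : y ∈ A
      · rw [indicator_of_mem hyA b]
      · rw [hy, indicator_of_notMem hyA, enorm_zero, mul_zero, mul_zero]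
    rw [h1]
    refine (holder_le (q := q) (A.indicator b) (fun y => indicator_nonneg (fun z _ => hb0 z) y)
      (hbL.indicator hAm) f).trans ?_
    rw [ENNReal.ofReal_mul hη0.le, ofReal_norm]
    gcongr
  set F : Lp ℂ p μ := (algebraMap ℂ (Lp ℂ p μ →L[ℂ] Lp ℂ p μ) c - T) f with hF
  have hFeq : F = c • f - T f := by
    rw [hF, Algebra.algebraMap_eq_smul_one]
    rfl
  have hFx : ∀ᵐ x ∂μ, ‖F x‖ ≤ ‖(η * ‖f‖) * a x + ε * ‖f x‖‖ := by
    rw [hFeq]
    filter_upwards [Lp.coeFn_sub (c • f) (T f), Lp.coeFn_smul c f, hT f, hfx] with x h1 h2 h3 h4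
    have h5 : ‖(T f) x - φ x * f x‖ ≤ a x * (η * ‖f‖) := by
      have h6 : ‖(T f) x - φ x * f x‖ₑ ≤ ENNReal.ofReal (a x * (η * ‖f‖)) := by
        refine h3.trans ?_
        rw [ENNReal.ofReal_mul (ha0 x)]
        gcongr
        exact hJ x
      rwa [← ofReal_norm, ENNReal.ofReal_le_ofReal_iff (mul_nonneg (ha0 x) (by positivity))] at h6
    have h7 : ‖(φ x - c) * f x‖ ≤ ε * ‖f x‖ := by
      by_cases hxA : x ∈ A
      · have h8 : ‖φ x - c‖ < ε := hD'D (hAD hxA)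
        rw [norm_mul]
        gcongr
      · rw [h4, indicator_of_notMem hxA]
        simp
    rw [h1, Pi.sub_apply, h2, Pi.smul_apply, smul_eq_mul]
    have h9 : 0 ≤ (η * ‖f‖) * a x + ε * ‖f x‖ := by
      have := ha0 x
      positivity
    rw [Real.norm_of_nonneg h9]
    calc ‖c * f x - (T f) x‖ = ‖-((T f) x - φ x * f x) - (φ x - c) * f x‖ := by
          congr 1
          ring
      _ ≤ ‖(T f) x - φ x * f x‖ + ‖(φ x - c) * f x‖ := by
          refine (norm_sub_le _ _).trans ?_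
          rw [norm_neg]
      _ ≤ _ := by linarith
  have hFn : ‖F‖ ≤ (η * Ap + ε) * ‖f‖ := by
    have h1 : eLpNorm F p μ ≤ ENNReal.ofReal ((η * Ap + ε) * ‖f‖) := by
      refine (eLpNorm_mono_ae hFx).trans ?_
      have h2 : AEStronglyMeasurable (fun x => (η * ‖f‖) * a x) μ := haL.1.const_mul _
      have h3 : AEStronglyMeasurable (fun x => ε * ‖f x‖) μ :=
        (Lp.aestronglyMeasurable f).norm.const_mul _
      refine (eLpNorm_add_le h2 h3 (Fact.out : 1 ≤ p)).trans ?_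
      have h4 : eLpNorm (fun x => (η * ‖f‖) * a x) p μ = ENNReal.ofReal (η * ‖f‖ * Ap) := by
        have h5 := eLpNorm_const_smul (η * ‖f‖) a p μ
        have h6 : (fun x => (η * ‖f‖) * a x) = (η * ‖f‖) • a := rfl
        have h8 : eLpNorm a p μ = ENNReal.ofReal Ap := (ENNReal.ofReal_toReal haL.2.ne).symm
        rw [h6, h5, Real.enorm_eq_ofReal (by positivity), h8, ← ENNReal.ofReal_mul (by positivity)]
      have h7 : eLpNorm (fun x => ε * ‖f x‖) p μ = ENNReal.ofReal (ε * ‖f‖) := by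
        have h5 := eLpNorm_const_smul ε (fun x => ‖f x‖) p μ
        have h6 : (fun x => ε * ‖f x‖) = ε • (fun x => ‖f x‖) := rfl
        rw [h6, h5, Real.enorm_eq_ofReal hε0.le, ENNReal.ofReal_mul hε0.le, eLpNorm_norm,
          ofReal_norm, Lp.enorm_def]
      rw [h4, h7, ← ENNReal.ofReal_add (by positivity) (by positivity)]
      apply ENNReal.ofReal_le_ofReal
      apply le_of_eq
      ring
    rw [Lp.norm_def]
    exact ENNReal.toReal_le_of_le_ofReal (by positivity) h1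
  have h1 : f = R F := by
    have h2 : (R * (algebraMap ℂ (Lp ℂ p μ →L[ℂ] Lp ℂ p μ) c - T)) f = R F := rfl
    rw [← h2, hRm]
    rfl
  have h3 : ‖f‖ ≤ K * ((η * Ap + ε) * ‖f‖) := by
    calc ‖f‖ = ‖R F‖ := by rw [← h1]
      _ ≤ ‖R‖ * ‖F‖ := R.le_opNorm F
      _ ≤ K * ((η * Ap + ε) * ‖f‖) := by
        gcongr
        rw [hK]
        linarith
  have h4 : K * (η * Ap + ε) ≤ 1 / 2 := by
    have h5 : K * ε = 1 / 4 := by
      rw [hε]
      field_simp
    have h6 : K * (η * Ap) ≤ 1 / 4 := by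
      have h7 : K * (η * Ap) = (1 / 4) * (Ap / (Ap + 1)) := by
        rw [hη]
        field_simp
      rw [h7]
      have h8 : Ap / (Ap + 1) ≤ 1 := by
        rw [div_le_one (by positivity)]
        linarith
      linarith
    linarith
  nlinarith

end Pool.Agent.U555.VM
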