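import Pool.Agent.U555.VM.Lpv

/-!
# The averages as vectors, and the telescoping sum
-/

set_option autoImplicit false

open MeasureTheory Set Filter Topology Metric
open scoped ENNReal

namespace Pool.Agent.U555.VM

variable {Ω : Type} [MeasurableSpace Ω] {μ : Measure Ω} {τ : Ω → ℝ} {p q : ℝ≥0∞}
variable {a b : Ω → ℝ} {k : Ω → Ω → ℂ} {φ u : Ω → ℂ} {c : ℂ} {ρ C : ℝ} {h : ℂ → ℂ}

open Classical in
/-- the class of a function in the Lebesgue space (zero if there is none) -/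
noncomputable def cls (μ : Measure Ω) (p : ℝ≥0∞) (f : Ω → ℂ) : Lp ℂ p μ :=
  if hf : MemLp f p μ then hf.toLp f else 0

theorem cls_eq {f : Ω → ℂ} (hf : MemLp f p μ) : cls μ p f = hf.toLp f := by
  unfold cls
  rw [dif_pos hf]

theorem cls_coe {f : Ω → ℂ} (hf : MemLp f p μ) : cls μ p f =ᵐ[μ] f := by
  rw [cls_eq hf]
  exact hf.coeFn_toLp

/-- the data of a local resolvent -/
structure Dat (μ : Measure Ω) (τ : Ω → ℝ) (p q : ℝ≥0∞) (a b : Ω → ℝ) (k : Ω → Ω → ℂ)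
    (φ u : Ω → ℂ) : Prop where
  hk : Ker τ a b k
  hφ : Measurable φ
  hu : Measurable u
  haL : MemLp a p μ
  hbL : MemLp b q μ
  huL : MemLp u p μ

/-- the vectors -/
noncomputable def XV (μ : Measure Ω) (p : ℝ≥0∞) (φ : Ω → ℂ) (k : Ω → Ω → ℂ) (u : Ω → ℂ) (n : ℕ)
    (h : ℂ → ℂ) : Lp ℂ p μ := cls μ p (XX μ φ k u n h)

/-- the sum -/
noncomputable def XS (μ : Measure Ω) (p : ℝ≥0∞) [Fact (1 ≤ p)] (φ : Ω → ℂ) (k : Ω → Ω → ℂ)
    (u : Ω → ℂ) (h : ℂ → ℂ) : Lp ℂ p μ := ∑' n, XV μ p φ k u n h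

/-- the operator has the kernel form -/
def KForm (μ : Measure Ω) (φ : Ω → ℂ) (k : Ω → Ω → ℂ) [Fact (1 ≤ p)]
    (T : Lp ℂ p μ →L[ℂ] Lp ℂ p μ) : Prop :=
  ∀ f : Lp ℂ p μ, ∀ᵐ x ∂μ, (T f) x = φ x * f x + ∫ y, k x y * f y ∂μ

variable [Fact (1 ≤ p)] [SFinite μ] [ENNReal.HolderTriple q p 1]

theorem XV_norm (L : Dat μ τ p q a b k φ u) (hρ : 0 ≤ ρ) (H : Adm (WW μ φ a b u) c ρ C h)
    (n : ℕ) : ‖XV μ p φ k u n h‖ ≤ C * PP ρ * gg μ p a u n := by
  have hg := good_ae L.hk L.hφ L.hu L.haL L.hbL L.huL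
  unfold XV
  rw [cls_eq (XX_mem L.hk L.hφ L.hu L.haL L.huL hg hρ H n)]
  exact XX_norm L.hk L.hφ L.hu L.haL L.huL hg hρ H n

theorem XV_sum (L : Dat μ τ p q a b k φ u) (hρ : 0 ≤ ρ) (H : Adm (WW μ φ a b u) c ρ C h) :
    Summable fun n => XV μ p φ k u n h :=
  Summable.of_norm_bounded (gg_summable.mul_left (C * PP ρ)) (XV_norm L hρ H)

theorem XS_norm (L : Dat μ τ p q a b k φ u) (hρ : 0 ≤ ρ) (H : Adm (WW μ φ a b u) c ρ C h) :
    ‖XS μ p φ k u h‖ ≤ C * (PP ρ * ∑' n, gg μ p a u n) := by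
  have h1 : Summable fun n => C * PP ρ * gg μ p a u n := gg_summable.mul_left (C * PP ρ)
  have h2 := tsum_of_norm_bounded h1.hasSum (XV_norm L hρ H)
  rw [tsum_mul_left, mul_assoc] at h2
  exact h2

/-- the steps of the telescoping sum -/
theorem step (L : Dat μ τ p q a b k φ u) (hρ : 0 ≤ ρ) (H : Adm (WW μ φ a b u) c ρ C h)
    (T : Lp ℂ p μ →L[ℂ] Lp ℂ p μ) (hT : KForm μ φ k T) (n : ℕ) (r : Ω → ℂ) (hr : MemLp r p μ)
    (hrec : ∀ x, (φ x - c) * XX μ φ k u n h x =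
      XX μ φ k u n (fun z => (z - c) * h z) x - r x) :
    T (XV μ p φ k u n h) - c • XV μ p φ k u n h =
      XV μ p φ k u n (fun z => (z - c) * h z) - cls μ p r + cls μ p (DD μ φ k u n h) := by
  have hg := good_ae L.hk L.hφ L.hu L.haL L.hbL L.huL
  have hm := XX_mem L.hk L.hφ L.hu L.haL L.huL hg hρ H n
  have hm' := XX_mem L.hk L.hφ L.hu L.haL L.huL hg hρ
    (H.mulz hρ fun z => zero_le_one.trans (one_le_WW z)) n
  have hd := DD_mem L.hk L.hφ L.hu L.haL L.hbL L.huL hg hρ H n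
  apply Lp.ext
  have e1 : ∀ᵐ x ∂μ, (XV μ p φ k u n h : Lp ℂ p μ) x = XX μ φ k u n h x := cls_coe hm
  have e2 : ∀ᵐ x ∂μ, (XV μ p φ k u n (fun z => (z - c) * h z) : Lp ℂ p μ) x =
    XX μ φ k u n (fun z => (z - c) * h z) x := cls_coe hm'
  have e3 : ∀ᵐ x ∂μ, (cls μ p r : Lp ℂ p μ) x = r x := cls_coe hr
  have e4 : ∀ᵐ x ∂μ, (cls μ p (DD μ φ k u n h) : Lp ℂ p μ) x = DD μ φ k u n h x := cls_coe hd
  filter_upwards [e1, e2, e3, e4, hT (XV μ p φ k u n h),
    Lp.coeFn_sub (T (XV μ p φ k u n h)) (c • XV μ p φ k u n h),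
    Lp.coeFn_smul c (XV μ p φ k u n h),
    Lp.coeFn_add (XV μ p φ k u n (fun z => (z - c) * h z) - cls μ p r)
      (cls μ p (DD μ φ k u n h)),
    Lp.coeFn_sub (XV μ p φ k u n (fun z => (z - c) * h z)) (cls μ p r)] with
    x h1 h2 h3 h4 h5 h6 h7 h8 h9
  rw [h6, Pi.sub_apply, h7, Pi.smul_apply, h5, h8, Pi.add_apply, h9, Pi.sub_apply, h1, h2, h3, h4]
  have h10 : ∫ y, k x y * (XV μ p φ k u n h : Lp ℂ p μ) y ∂μ = DD μ φ k u n h x := by
    refine integral_congr_ae ?_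
    filter_upwards [e1] with y hy
    rw [hy]
  rw [h10, smul_eq_mul, ← hrec x]
  ring

omit [MeasurableSpace Ω] [Fact (1 ≤ p)] [SFinite μ] [ENNReal.HolderTriple q p 1] in
theorem Adm.int {W : ℂ → ℝ} (H : Adm W c ρ C h) (hW : ∀ z, 1 ≤ W z) : Integrable h := by
  have h1 : IntegrableOn h (closedBall c ρ) := by
    refine Measure.integrableOn_of_bounded (M := C) measure_closedBall_lt_top.ne
      H.meas.aestronglyMeasurable ?_
    refine Eventually.of_forall fun z => ?_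
    exact (le_mul_of_one_le_right (norm_nonneg _) (hW z)).trans (H.bd z)
  exact (integrableOn_iff_integrable_of_support_subset fun z hz => by
    by_contra hcon
    exact hz (H.supp z hcon)).1 h1

/-- the equation of the sum -/
theorem eqn (L : Dat μ τ p q a b k φ u) (hρ : 0 ≤ ρ) (H : Adm (WW μ φ a b u) c ρ C h)
    (T : Lp ℂ p μ →L[ℂ] Lp ℂ p μ) (hT : KForm μ φ k T) :
    T (XS μ p φ k u h) - c • XS μ p φ k u h =
      XS μ p φ k u (fun z => (z - c) * h z) - (∫ z, h z) • cls μ p u := by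
  have hg := good_ae L.hk L.hφ L.hu L.haL L.hbL L.huL
  have hW0 : ∀ z, 0 ≤ WW μ φ a b u z := fun z => zero_le_one.trans (one_le_WW z)
  have hhi : Integrable h := H.int one_le_WW
  have hI : MemLp (fun x => (∫ z, h z) * u x) p μ := L.huL.const_mul _
  have hIc : cls μ p (fun x => (∫ z, h z) * u x) = (∫ z, h z) • cls μ p u := by
    rw [cls_eq hI, cls_eq L.huL]
    rfl
  -- partial sums
  have hps : ∀ N : ℕ, ∑ n ∈ Finset.range (N + 1), (T (XV μ p φ k u n h) - c • XV μ p φ k u n h) =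
      ∑ n ∈ Finset.range (N + 1), XV μ p φ k u n (fun z => (z - c) * h z) -
        (∫ z, h z) • cls μ p u + cls μ p (DD μ φ k u N h) := by
    intro N
    induction N with
    | zero =>
      rw [Finset.sum_range_one, Finset.sum_range_one, ← hIc]
      exact step L hρ H T hT 0 _ hI fun x =>
        rec_zero L.hk L.hφ L.hu hg hρ H hhi x
    | succ N ih =>
      rw [Finset.sum_range_succ, ih, Finset.sum_range_succ _ (N + 1),
        step L hρ H T hT (N + 1) (DD μ φ k u N h)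
          (DD_mem L.hk L.hφ L.hu L.haL L.hbL L.huL hg hρ H N) fun x =>
          rec_succ L.hk L.hφ L.hu hg hρ H N (GG_fin L.hk L.haL L.hbL L.huL N) x]
      abel
  have h1 : Tendsto (fun N : ℕ => ∑ n ∈ Finset.range (N + 1),
      (T (XV μ p φ k u n h) - c • XV μ p φ k u n h)) atTop
      (𝓝 (T (XS μ p φ k u h) - c • XS μ p φ k u h)) := by
    have hs := (XV_sum L hρ H).hasSum
    have h2 : HasSum (fun n => T (XV μ p φ k u n h) - c • XV μ p φ k u n h)
        (T (XS μ p φ k u h) - c • XS μ p φ k u h) :=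
      (hs.mapL T).sub (hs.const_smul c)
    exact (h2.tendsto_sum_nat).comp (tendsto_add_atTop_nat 1)
  have h2 : Tendsto (fun N : ℕ => ∑ n ∈ Finset.range (N + 1),
      XV μ p φ k u n (fun z => (z - c) * h z)) atTop
      (𝓝 (XS μ p φ k u (fun z => (z - c) * h z))) :=
    ((XV_sum L hρ (H.mulz hρ hW0)).hasSum.tendsto_sum_nat).comp (tendsto_add_atTop_nat 1)
  have h3 : Tendsto (fun N : ℕ => cls μ p (DD μ φ k u N h)) atTop (𝓝 0) := by
    refine squeeze_zero_norm (a := fun N => ((C * PP ρ) *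
      ((eLpNorm b q μ).toReal * gg μ p a u N)) * (eLpNorm a p μ).toReal) (fun N => ?_) ?_
    · rw [cls_eq (DD_mem L.hk L.hφ L.hu L.haL L.hbL L.huL hg hρ H N)]
      exact DD_norm L.hk L.hφ L.hu L.haL L.hbL L.huL hg hρ H N
    · have h4 : Tendsto (gg μ p a u) atTop (𝓝 0) := gg_summable.tendsto_atTop_zero
      have h5 := ((h4.const_mul (eLpNorm b q μ).toReal).const_mul (C * PP ρ)).mul_const
        (eLpNorm a p μ).toReal
      simpa using h5
  have h4 := (h2.sub_const ((∫ z, h z) • cls μ p u)).add h3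
  rw [add_zero] at h4
  refine tendsto_nhds_unique h1 (h4.congr fun N => (hps N).symm)

end Pool.Agent.U555.VM
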