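import Pool.Agent.U555.VM.Loc
import Pool.Agent.U555.VM.Fin

/-!
# The transposed operator
-/

set_option autoImplicit false

open MeasureTheory Set Filter Topology Metric
open scoped ENNReal
open Pool.Agent.R277.SP (LocV ad ad_apply2)

namespace Pool.Agent.U555.VM

variable {Ω : Type} [MeasurableSpace Ω] {μ : Measure Ω} {τ : Ω → ℝ} {p q : ℝ≥0∞}
variable {a b : Ω → ℝ} {k : Ω → Ω → ℂ} {φ : Ω → ℂ}

theorem Ker.swap (hk : Ker τ a b k) : Ker (fun x => - τ x) b a (fun x y => k y x) where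
  time := hk.time.neg
  ma := hk.mb
  mb := hk.ma
  a0 := hk.b0
  b0 := hk.a0
  meas := hk.meas.comp measurable_swap
  bd := fun x y => by rw [mul_comm]; exact hk.bd y x
  caus := fun x y h => hk.caus y x (by linarith)

theorem bf_fin [ENNReal.HolderTriple q p 1] (hk : Ker τ a b k) (hbL : MemLp b q μ)
    {f : Ω → ℂ} (hf : MemLp f p μ) : ∫⁻ y, ENNReal.ofReal (b y) * ‖f y‖ₑ ∂μ ≠ ∞ :=
  (lt_of_le_of_lt (holder_fun b hk.b0 hbL f hf) (ENNReal.mul_lt_top hbL.2 hf.2)).ne

theorem kint_integrable [ENNReal.HolderTriple q p 1] (hk : Ker τ a b k) (hbL : MemLp b q μ)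
    {f : Ω → ℂ} (hf : MemLp f p μ) (x : Ω) : Integrable (fun y => k x y * f y) μ := by
  have hm : Measurable fun y => k x y := hk.meas.comp (measurable_const.prodMk measurable_id)
  refine ⟨hm.aestronglyMeasurable.mul hf.1, ?_⟩
  rw [hasFiniteIntegral_iff_enorm]
  have h1 : ∀ y, ‖k x y * f y‖ₑ ≤ ENNReal.ofReal (a x) * (ENNReal.ofReal (b y) * ‖f y‖ₑ) := by
    intro y
    rw [enorm_mul, ← mul_assoc, ← ENNReal.ofReal_mul (hk.a0 x)]
    gcongr
    rw [← ofReal_norm]
    exact ENNReal.ofReal_le_ofReal (hk.bd x y)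
  refine lt_of_le_of_lt (lintegral_mono h1) ?_
  rw [lintegral_const_mul' _ _ ENNReal.ofReal_ne_top]
  exact ENNReal.mul_lt_top ENNReal.ofReal_lt_top (lt_top_iff_ne_top.2 (bf_fin hk hbL hf))

/-- the kernel operator is bounded -/
theorem exists_ker [Fact (1 ≤ p)] [SFinite μ] [ENNReal.HolderTriple q p 1] (hk : Ker τ a b k)
    (haL : MemLp a p μ) (hbL : MemLp b q μ) :
    ∃ K : Lp ℂ p μ →L[ℂ] Lp ℂ p μ, ∀ f : Lp ℂ p μ, ∀ᵐ x ∂μ, (K f) x = ∫ y, k x y * f y ∂μ := by
  have hbd : ∀ (f : Lp ℂ p μ) (x : Ω), ‖∫ y, k x y * f y ∂μ‖ ≤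
      ((eLpNorm b q μ).toReal * ‖f‖) * a x := by
    intro f x
    have h1 := (kint_le (μ := μ) hk (f : Ω → ℂ) x).trans (mul_le_mul_right
      ((JJ_le _ (f : Ω → ℂ) x).trans (holder_fun b hk.b0 hbL (f : Ω → ℂ) (Lp.memLp f))) _)
    have h2 := ENNReal.toReal_mono (ENNReal.mul_lt_top ENNReal.ofReal_lt_top
      (ENNReal.mul_lt_top hbL.2 (Lp.memLp f).2)).ne h1
    rw [toReal_enorm, ENNReal.toReal_mul, ENNReal.toReal_mul, ENNReal.toReal_ofReal (hk.a0 x),
      ← Lp.norm_def] at h2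
    rw [mul_comm] at h2
    exact h2
  have hmem : ∀ f : Lp ℂ p μ, MemLp (fun x => ∫ y, k x y * f y ∂μ) p μ := by
    intro f
    refine MemLp.of_le_mul (g := a) (c := (eLpNorm b q μ).toReal * ‖f‖) haL
      (kint_meas hk (Lp.stronglyMeasurable f).measurable).aestronglyMeasurable
      (Eventually.of_forall fun x => ?_)
    rw [Real.norm_of_nonneg (hk.a0 x)]
    exact hbd f x
  let L : Lp ℂ p μ →ₗ[ℂ] Lp ℂ p μ :=
    { toFun := fun f => (hmem f).toLp _
      map_add' := by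
        intro f g
        apply Lp.ext
        filter_upwards [(hmem (f + g)).coeFn_toLp, (hmem f).coeFn_toLp, (hmem g).coeFn_toLp,
          Lp.coeFn_add ((hmem f).toLp _) ((hmem g).toLp _)] with x h1 h2 h3 h4
        rw [h1, h4, Pi.add_apply, h2, h3, ← integral_add
          (kint_integrable hk hbL (Lp.memLp f) x) (kint_integrable hk hbL (Lp.memLp g) x)]
        refine integral_congr_ae ?_
        filter_upwards [Lp.coeFn_add f g] with y hy
        rw [hy, Pi.add_apply, mul_add]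
      map_smul' := by
        intro r f
        apply Lp.ext
        filter_upwards [(hmem (r • f)).coeFn_toLp, (hmem f).coeFn_toLp,
          Lp.coeFn_smul r ((hmem f).toLp _)] with x h1 h2 h3
        rw [h1, RingHom.id_apply, h3, Pi.smul_apply, h2, smul_eq_mul, ← integral_const_mul]
        refine integral_congr_ae ?_
        filter_upwards [Lp.coeFn_smul r f] with y hy
        rw [hy, Pi.smul_apply, smul_eq_mul]
        ring }
  refine ⟨L.mkContinuous ((eLpNorm b q μ).toReal * (eLpNorm a p μ).toReal) fun f => ?_,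
    fun f => (hmem f).coeFn_toLp⟩
  refine (norm_toLp_le (hmem f) hk.a0 haL (D := (eLpNorm b q μ).toReal * ‖f‖)
    (by positivity) (hbd f)).trans (le_of_eq ?_)
  ring

/-- the operator with a given symbol and kernel -/
theorem exists_op [Fact (1 ≤ p)] [SFinite μ] [ENNReal.HolderTriple q p 1] (hk : Ker τ a b k)
    (haL : MemLp a p μ) (hbL : MemLp b q μ) (hφ : Measurable φ) (M : ℝ) (hM0 : 0 ≤ M)
    (hM : ∀ᵐ x ∂μ, ‖φ x‖ ≤ M) : ∃ T : Lp ℂ p μ →L[ℂ] Lp ℂ p μ, KForm μ φ k T := by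
  obtain ⟨K, hK⟩ := exists_ker hk haL hbL
  obtain ⟨N, hN, -⟩ := exists_mul (p := p) φ hφ.aestronglyMeasurable M hM0 hM
  refine ⟨N + K, fun f => ?_⟩
  filter_upwards [hK f, hN f, Lp.coeFn_add (N f) (K f)] with x h1 h2 h3
  have h4 : ((N + K) f : Lp ℂ p μ) = N f + K f := rfl
  rw [h4, h3, Pi.add_apply, h1, h2]

theorem causal_of_ker [Fact (1 ≤ p)] (hk : Ker τ a b k) (T : Lp ℂ p μ →L[ℂ] Lp ℂ p μ)
    (hT : KForm μ φ k T) : Causal μ τ a b φ T := by
  intro f
  filter_upwards [hT f] with x hx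
  rw [hx, add_sub_cancel_left]
  exact kint_le hk f x

/-- **The pairing** -/
theorem pairing [Fact (1 ≤ p)] [Fact (1 ≤ q)] [SFinite μ] [ENNReal.HolderTriple q p 1]
    [ENNReal.HolderTriple p q 1] (hk : Ker τ a b k)
    (haL : MemLp a p μ) (hbL : MemLp b q μ) (T : Lp ℂ p μ →L[ℂ] Lp ℂ p μ) (hT : KForm μ φ k T)
    (S : Lp ℂ q μ →L[ℂ] Lp ℂ q μ) (hS : KForm μ φ (fun x y => k y x) S) (g : Lp ℂ q μ)
    (f : Lp ℂ p μ) : ∫ x, g x * (T f) x ∂μ = ∫ x, (S g) x * f x ∂μ := by
  have hgm : Measurable (g : Ω → ℂ) := (Lp.stronglyMeasurable g).measurable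
  have hfm : Measurable (f : Ω → ℂ) := (Lp.stronglyMeasurable f).measurable
  -- the double integral
  have hint : Integrable (fun w : Ω × Ω => g w.1 * (k w.1 w.2 * f w.2)) (μ.prod μ) := by
    have hm : Measurable (fun w : Ω × Ω => g w.1 * (k w.1 w.2 * f w.2)) :=
      (hgm.comp measurable_fst).mul (hk.meas.mul (hfm.comp measurable_snd))
    refine ⟨hm.aestronglyMeasurable, ?_⟩
    rw [hasFiniteIntegral_iff_enorm, lintegral_prod _ hm.enorm.aemeasurable]
    have h1 : ∀ x : Ω, ∫⁻ y, ‖g x * (k x y * f y)‖ₑ ∂μ ≤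
        (ENNReal.ofReal (a x) * ‖g x‖ₑ) * ∫⁻ y, ENNReal.ofReal (b y) * ‖f y‖ₑ ∂μ := by
      intro x
      rw [← lintegral_const_mul' _ _ (ENNReal.mul_lt_top ENNReal.ofReal_lt_top
        enorm_lt_top).ne]
      refine lintegral_mono fun y => ?_
      rw [enorm_mul, enorm_mul]
      have h2 : ‖k x y‖ₑ ≤ ENNReal.ofReal (a x) * ENNReal.ofReal (b y) := by
        rw [← ENNReal.ofReal_mul (hk.a0 x), ← ofReal_norm]
        exact ENNReal.ofReal_le_ofReal (hk.bd x y)
      calc ‖(g x : ℂ)‖ₑ * (‖k x y‖ₑ * ‖(f y : ℂ)‖ₑ)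
          ≤ ‖(g x : ℂ)‖ₑ * ((ENNReal.ofReal (a x) * ENNReal.ofReal (b y)) * ‖(f y : ℂ)‖ₑ) := by
            gcongr
        _ = _ := by ring
    refine lt_of_le_of_lt (lintegral_mono h1) ?_
    rw [lintegral_mul_const' _ _ (bf_fin hk hbL (Lp.memLp f))]
    exact ENNReal.mul_lt_top (lt_top_iff_ne_top.2 (bf_fin hk.swap haL (Lp.memLp g)))
      (lt_top_iff_ne_top.2 (bf_fin hk hbL (Lp.memLp f)))
  have e1 : ∀ x, ∫ y, g x * (k x y * f y) ∂μ = g x * ∫ y, k x y * f y ∂μ :=
    fun x => integral_const_mul _ _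
  have e2 : ∀ y, ∫ x, g x * (k x y * f y) ∂μ = (∫ x, k x y * g x ∂μ) * f y := by
    intro y
    rw [← integral_mul_const]
    refine integral_congr_ae (Eventually.of_forall fun x => ?_)
    show g x * (k x y * f y) = k x y * g x * f y
    ring
  have hi1 : Integrable (fun x => g x * ∫ y, k x y * f y ∂μ) μ := by
    have := hint.integral_prod_left
    simp only [e1] at this
    exact this
  have hi2 : Integrable (fun y => (∫ x, k x y * g x ∂μ) * f y) μ := by
    have := hint.integral_prod_right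
    simp only [e2] at this
    exact this
  have hfub : ∫ x, g x * ∫ y, k x y * f y ∂μ ∂μ = ∫ y, (∫ x, k x y * g x ∂μ) * f y ∂μ := by
    have := integral_integral_swap (f := fun x y => g x * (k x y * f y)) hint
    simp only [e1, e2] at this
    exact this
  -- the multiplication part
  have hi3 : Integrable (fun x => g x * (T f) x) μ := by
    have h := (Lp.memLp (T f)).mul (p := q) (q := p) (r := 1) (Lp.memLp g)
    rw [memLp_one_iff_integrable] at h
    exact h
  have hi4 : Integrable (fun x => g x * (φ x * f x)) μ := by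
    refine (hi3.sub hi1).congr ?_
    filter_upwards [hT f] with x hx
    rw [Pi.sub_apply, hx]
    ring
  have h5 : ∫ x, g x * (T f) x ∂μ = ∫ x, g x * (φ x * f x) ∂μ +
      ∫ x, g x * ∫ y, k x y * f y ∂μ ∂μ := by
    rw [← integral_add hi4 hi1]
    refine integral_congr_ae ?_
    filter_upwards [hT f] with x hx
    rw [hx]
    ring
  have h6 : ∫ x, (S g) x * f x ∂μ = ∫ x, g x * (φ x * f x) ∂μ +
      ∫ y, (∫ x, k x y * g x ∂μ) * f y ∂μ := by
    rw [← integral_add hi4 hi2]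
    refine integral_congr_ae ?_
    filter_upwards [hS g] with x hx
    rw [hx]
    ring
  rw [h5, h6, hfub]

/-- the pairing is injective -/
theorem pair_inj [Fact (1 ≤ p)] [Fact (1 ≤ q)] [ENNReal.HolderTriple q p 1] (hq : q ≠ ∞)
    (g : Lp ℂ q μ)
    (hg : ∀ f : Lp ℂ p μ, ∫ x, g x * f x ∂μ = 0) : g = 0 := by
  have hq0 : q ≠ 0 := (lt_of_lt_of_le zero_lt_one (Fact.out : 1 ≤ q)).ne'
  rw [Lp.eq_zero_iff_ae_eq_zero]
  refine Lp.ae_eq_zero_of_forall_setIntegral_eq_zero g hq0 hq (fun s hs hμs => ?_)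
    fun s hs hμs => ?_
  · have h := ((memLp_indicator_const (E := ℂ) p hs (1:ℂ) (Or.inr hμs.ne))).mul (p := q) (q := p)
      (r := 1) (Lp.memLp g)
    rw [memLp_one_iff_integrable] at h
    rw [← integrable_indicator_iff hs]
    refine h.congr (Eventually.of_forall fun x => ?_)
    show (g x : ℂ) * s.indicator (fun _ => (1:ℂ)) x = s.indicator (g : Ω → ℂ) x
    by_cases hx : x ∈ s
    · simp [hx]
    · simp [hx]
  · have h := hg (indicatorConstLp p hs hμs.ne (1:ℂ))
    rw [← h, ← integral_indicator hs]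
    refine integral_congr_ae ?_
    filter_upwards [indicatorConstLp_coeFn (p := p) (hs := hs) (hμs := hμs.ne) (c := (1:ℂ))] with
      x hx
    rw [hx]
    by_cases hxs : x ∈ s
    · simp [hxs]
    · simp [hxs]

end Pool.Agent.U555.VM
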