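import Pool.Agent.U555.VM.Full2

/-!
# Unicellular operators of the form multiplication plus causal kernel
-/

set_option autoImplicit false

open MeasureTheory Set Filter Topology Metric
open scoped ENNReal
open Pool.Agent.R277.SP (LocV ad ad_apply2)

namespace Pool.Agent.U555.VM

section Abstract

variable {X : Type} [NormedAddCommGroup X] [NormedSpace ℂ X]

/-- vectors and functionals with disjoint local spectra annihilate each other -/
theorem orth (T : X →L[ℂ] X) (c₁ c₂ : ℂ) (r C₁ C₂ : ℝ) (x : ℕ → X) (y : ℕ → (X →L[ℂ] ℂ))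
    (hr0 : 0 ≤ r) (hr : 2 * r < ‖c₁ - c₂‖)
    (hX : ∀ a, T (x a) - c₁ • x a = x (a + 1)) (hXb : ∀ a, ‖x a‖ ≤ C₁ * r ^ a)
    (hY : ∀ a, ad T (y a) - c₂ • y a = y (a + 1)) (hYb : ∀ a, ‖y a‖ ≤ C₂ * r ^ a) :
    y 0 (x 0) = 0 := by
  have hrec : ∀ a b, y (b + 1) (x a) - y b (x (a + 1)) = (c₁ - c₂) * y b (x a) := by
    intro a b
    rw [← hX a, ← hY b, sub_apply, ad_apply2, smul_apply, map_sub, map_smul,
      smul_eq_mul, smul_eq_mul]
    ring
  have hC1 : 0 ≤ C₁ := by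
    have := (norm_nonneg _).trans (hXb 0)
    simpa using this
  have hC2 : 0 ≤ C₂ := by
    have := (norm_nonneg _).trans (hYb 0)
    simpa using this
  have hbd : ∀ n a b : ℕ, ‖c₁ - c₂‖ ^ n * ‖y b (x a)‖ ≤
      C₁ * C₂ * (2 * r) ^ n * (r ^ a * r ^ b) := by
    intro n
    induction n with
    | zero =>
      intro a b
      have h1 : ‖y b (x a)‖ ≤ ‖y b‖ * ‖x a‖ := (y b).le_opNorm _
      have h2 : ‖y b‖ * ‖x a‖ ≤ (C₂ * r ^ b) * (C₁ * r ^ a) := by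
        refine mul_le_mul (hYb b) (hXb a) (by positivity) (by positivity)
      rw [pow_zero, one_mul, pow_zero, mul_one]
      refine (h1.trans h2).trans (le_of_eq (by ring))
    | succ n ih =>
      intro a b
      have h1 := ih a (b + 1)
      have h2 := ih (a + 1) b
      have h3 : ‖c₁ - c₂‖ * ‖y b (x a)‖ ≤ ‖y (b + 1) (x a)‖ + ‖y b (x (a + 1))‖ := by
        rw [← norm_mul, ← hrec a b]
        exact norm_sub_le _ _
      calc ‖c₁ - c₂‖ ^ (n + 1) * ‖y b (x a)‖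
          = ‖c₁ - c₂‖ ^ n * (‖c₁ - c₂‖ * ‖y b (x a)‖) := by ring
        _ ≤ ‖c₁ - c₂‖ ^ n * (‖y (b + 1) (x a)‖ + ‖y b (x (a + 1))‖) :=
            mul_le_mul_of_nonneg_left h3 (by positivity)
        _ ≤ C₁ * C₂ * (2 * r) ^ n * (r ^ a * r ^ (b + 1)) +
            C₁ * C₂ * (2 * r) ^ n * (r ^ (a + 1) * r ^ b) := by
            rw [mul_add]
            exact add_le_add h1 h2
        _ = _ := by ring
  have h0 := Pool.Agent.R277.SP.zero_of (x := ‖y 0 (x 0)‖) (K := C₁ * C₂) (ρ := 2 * r)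
    (δ := ‖c₁ - c₂‖) (lt_of_le_of_lt (by positivity) hr) (by positivity) hr (norm_nonneg _)
    (fun n => by simpa using hbd n 0 0)
  exact norm_eq_zero.1 h0

/-- the manifold of the vectors with local spectrum near `c` -/
def Mfd (T : X →L[ℂ] X) (c : ℂ) (r : ℝ) : Submodule ℂ X where
  carrier := {x | ∃ C : ℝ, ∀ n : ℕ, ‖((T - c • (1 : X →L[ℂ] X)) ^ n) x‖ ≤ C * r ^ n}
  zero_mem' := ⟨0, fun n => by rw [map_zero, norm_zero, zero_mul]⟩
  add_mem' := by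
    rintro x y ⟨C, hC⟩ ⟨D, hD⟩
    refine ⟨C + D, fun n => ?_⟩
    rw [map_add, add_mul]
    exact (norm_add_le _ _).trans (add_le_add (hC n) (hD n))
  smul_mem' := by
    rintro a x ⟨C, hC⟩
    refine ⟨‖a‖ * C, fun n => ?_⟩
    rw [map_smul, norm_smul, mul_assoc]
    exact mul_le_mul_of_nonneg_left (hC n) (norm_nonneg _)

lemma Mfd_inv (T : X →L[ℂ] X) (c : ℂ) (r : ℝ) (x : X) (hx : x ∈ Mfd T c r) : T x ∈ Mfd T c r := by
  obtain ⟨C, hC⟩ := hx
  refine ⟨‖T‖ * C, fun n => ?_⟩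
  have h1 : Commute ((T - c • (1 : X →L[ℂ] X)) ^ n) T := by
    apply Commute.pow_left
    apply Commute.sub_left (Commute.refl T)
    exact (Commute.one_left T).smul_left c
  have h2 : ((T - c • (1 : X →L[ℂ] X)) ^ n) (T x) = T (((T - c • (1 : X →L[ℂ] X)) ^ n) x) := by
    have := congrArg (fun R : X →L[ℂ] X => R x) h1.eq
    exact this
  rw [h2, mul_assoc]
  exact (T.le_opNorm _).trans (mul_le_mul_of_nonneg_left (hC n) (norm_nonneg _))

lemma clos_inv (T : X →L[ℂ] X) (c : ℂ) (r : ℝ) (x : X)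
    (hx : x ∈ (Mfd T c r).topologicalClosure) : T x ∈ (Mfd T c r).topologicalClosure := by
  have h1 : MapsTo T (Mfd T c r : Set X) (Mfd T c r : Set X) := fun y hy => Mfd_inv T c r y hy
  exact h1.closure T.continuous hx

end Abstract

variable {Ω : Type} [MeasurableSpace Ω] {μ : Measure Ω} {τ : Ω → ℝ} {p q : ℝ≥0∞}

/-- the functions in `L^p` which vanish outside `S` -/
noncomputable def VS (μ : Measure Ω) (p : ℝ≥0∞) [Fact (1 ≤ p)] (S : Set Ω) :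
    Submodule ℂ (Lp ℂ p μ) :=
  LinearMap.ker (LpToLpRestrictCLM Ω ℂ ℂ μ p Sᶜ).toLinearMap

lemma mem_VS [Fact (1 ≤ p)] {S : Set Ω} (hS : MeasurableSet S) (f : Lp ℂ p μ) :
    f ∈ VS μ p S ↔ ∀ᵐ x ∂μ, x ∉ S → f x = 0 := by
  have h1 := LpToLpRestrictCLM_coeFn (𝕜 := ℂ) (μ := μ) (p := p) Sᶜ f
  unfold VS
  rw [LinearMap.mem_ker]
  constructor
  · intro h
    have h2 : (LpToLpRestrictCLM Ω ℂ ℂ μ p Sᶜ f : Lp ℂ p (μ.restrict Sᶜ)) = 0 := h
    rw [h2] at h1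
    have h3 := (Lp.coeFn_zero ℂ p (μ.restrict Sᶜ)).symm.trans h1
    have h4 : ∀ᵐ x ∂(μ.restrict Sᶜ), f x = 0 := by
      filter_upwards [h3] with x hx
      exact hx.symm
    rw [ae_restrict_iff' hS.compl] at h4
    exact h4
  · intro h
    show (LpToLpRestrictCLM Ω ℂ ℂ μ p Sᶜ f : Lp ℂ p (μ.restrict Sᶜ)) = 0
    rw [Lp.eq_zero_iff_ae_eq_zero]
    refine h1.trans ?_
    have h4 : ∀ᵐ x ∂(μ.restrict Sᶜ), f x = 0 := by
      rw [ae_restrict_iff' hS.compl]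
      exact h
    exact h4

lemma VS_closed [Fact (1 ≤ p)] (S : Set Ω) : IsClosed (VS μ p S : Set (Lp ℂ p μ)) :=
  ContinuousLinearMap.isClosed_ker (LpToLpRestrictCLM Ω ℂ ℂ μ p Sᶜ)

lemma VS_inv [Fact (1 ≤ p)] {k : Ω → Ω → ℂ} {φ : Ω → ℂ} {S : Set Ω} (hS : MeasurableSet S)
    (hup : ∀ x y, x ∉ S → y ∈ S → k x y = 0)
    (T : Lp ℂ p μ →L[ℂ] Lp ℂ p μ) (hT : KForm μ φ k T) (f : Lp ℂ p μ) (hf : f ∈ VS μ p S) :
    T f ∈ VS μ p S := by
  rw [mem_VS hS] at hf ⊢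
  filter_upwards [hf, hT f] with x h1 h2 hx
  rw [h2, h1 hx, mul_zero, zero_add]
  apply integral_eq_zero_of_ae
  filter_upwards [hf] with y hy
  by_cases hyS : y ∈ S
  · simp [hup x y hx hyS]
  · simp [hy hyS]

end Pool.Agent.U555.VM
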