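import Pool.Agent.U555.VM.Uni

/-!
# Unicellular operators of the form multiplication plus causal kernel, second part
-/

set_option autoImplicit false

open MeasureTheory Set Filter Topology Metric
open scoped ENNReal
open Pool.Agent.R277.SP (LocV ad ad_apply2)

namespace Pool.Agent.U555.VM

variable {Ω : Type} [MeasurableSpace Ω] {μ : Measure Ω} {τ : Ω → ℝ} {p q : ℝ≥0∞}

lemma VS_mono [Fact (1 ≤ p)] {S S' : Set Ω} (hS : MeasurableSet S) (hS' : MeasurableSet S')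
    (h : S ⊆ S') : VS μ p S ≤ VS μ p S' := by
  intro f hf
  rw [mem_VS hS] at hf
  rw [mem_VS hS']
  filter_upwards [hf] with x hx hxS
  exact hx fun h1 => hxS (h h1)

theorem level [Fact (1 ≤ p)] (hτ : Measurable τ) (hlev : ∀ t : ℝ, μ {x | τ x = t} = 0)
    (V : Submodule ℂ (Lp ℂ p μ)) (hV0 : V ≠ ⊥)
    (hcomp : ∀ t : ℝ, VS μ p {x | t < τ x} ≤ V ∨ V ≤ VS μ p {x | t < τ x}) :
    ∃ t : ℕ → ℝ, V ≤ VS μ p (⋃ n, {x | t n < τ x}) ∧ ∀ n, VS μ p {x | t n < τ x} ≤ V := by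
  have hme : ∀ t : ℝ, MeasurableSet {x | t < τ x} := fun t => measurableSet_lt measurable_const hτ
  have hmono : ∀ s t : ℝ, s ≤ t → VS μ p {x | t < τ x} ≤ VS μ p {x | s < τ x} := fun s t hst =>
    VS_mono (hme t) (hme s) fun x (hx : t < τ x) => lt_of_le_of_lt hst hx
  set A : Set ℝ := {t | VS μ p {x | t < τ x} ≤ V} with hA
  have hAne : A.Nonempty := by
    by_contra hcon
    rw [Set.not_nonempty_iff_eq_empty] at hcon
    apply hV0
    rw [Submodule.eq_bot_iff]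
    intro f hf
    rw [Lp.eq_zero_iff_ae_eq_zero]
    have h1 : ∀ n : ℕ, ∀ᵐ x ∂μ, x ∉ {x | (n : ℝ) < τ x} → f x = 0 := by
      intro n
      rw [← mem_VS (hme n)]
      rcases hcomp n with h | h
      · have : (n : ℝ) ∈ A := h
        rw [hcon] at this
        exact this.elim
      · exact h hf
    filter_upwards [ae_all_iff.2 h1] with x hx
    obtain ⟨n, hn⟩ := exists_nat_ge (τ x)
    exact hx n (not_lt.2 hn)
  by_cases hb : BddBelow A
  · refine ⟨fun n => sInf A + 1 / ((n : ℝ) + 1), ?_, fun n => ?_⟩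
    · intro f hf
      rw [mem_VS (MeasurableSet.iUnion fun n => hme _)]
      have h1 : ∀ n : ℕ, ∀ᵐ x ∂μ, x ∉ {x | sInf A - 1 / ((n : ℝ) + 1) < τ x} → f x = 0 := by
        intro n
        rw [← mem_VS (hme _)]
        rcases hcomp (sInf A - 1 / ((n : ℝ) + 1)) with h | h
        · have h2 : sInf A - 1 / ((n : ℝ) + 1) ∈ A := h
          have h3 := csInf_le hb h2
          have h4 : (0 : ℝ) < 1 / ((n : ℝ) + 1) := by positivity
          linarith
        · exact h hf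
      filter_upwards [ae_all_iff.2 h1, measure_eq_zero_iff_ae_notMem.1 (hlev (sInf A))]
        with x hx hx2 hxS
      have h5 : τ x ≤ sInf A := by
        by_contra hcon
        push Not at hcon
        obtain ⟨n, hn⟩ := exists_nat_one_div_lt (sub_pos.2 hcon)
        apply hxS
        rw [Set.mem_iUnion]
        refine ⟨n, ?_⟩
        show sInf A + 1 / ((n : ℝ) + 1) < τ x
        linarith
      have h6 : τ x < sInf A := lt_of_le_of_ne h5 hx2
      obtain ⟨n, hn⟩ := exists_nat_one_div_lt (sub_pos.2 h6)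
      refine hx n ?_
      show ¬ (sInf A - 1 / ((n : ℝ) + 1) < τ x)
      linarith
    · have h4 : (0 : ℝ) < 1 / ((n : ℝ) + 1) := by positivity
      obtain ⟨a, ha, hlt⟩ := exists_lt_of_csInf_lt hAne
        (show sInf A < sInf A + 1 / ((n : ℝ) + 1) by linarith)
      exact (hmono a _ hlt.le).trans ha
  · rw [not_bddBelow_iff] at hb
    refine ⟨fun n => -(n : ℝ), ?_, fun n => ?_⟩
    · intro f hf
      rw [mem_VS (MeasurableSet.iUnion fun n => hme _)]
      refine Eventually.of_forall fun x hx => ?_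
      exfalso
      obtain ⟨n, hn⟩ := exists_nat_gt (-τ x)
      apply hx
      rw [Set.mem_iUnion]
      refine ⟨n, ?_⟩
      show -(n : ℝ) < τ x
      linarith
    · obtain ⟨a, ha, hlt⟩ := hb (-(n : ℝ))
      exact (hmono a _ hlt.le).trans ha

theorem near [SigmaFinite μ] [Fact (1 ≤ p)] [Fact (1 ≤ q)] (hp1 : 1 < p) (hp2 : p ≠ ∞)
    (hq2 : q ≠ ∞) [ENNReal.HolderTriple q p 1] [ENNReal.HolderTriple p q 1]
    {φ : Ω → ℂ} (hφ : Measurable φ) (M : ℝ) (hM0 : 0 ≤ M) (hM' : ∀ᵐ x ∂μ, ‖φ x‖ ≤ M)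
    {a b : Ω → ℝ} (haL : MemLp a p μ) (hbL : MemLp b q μ)
    {k : Ω → Ω → ℂ} (hk : Ker τ a b k)
    (T : Lp ℂ p μ →L[ℂ] Lp ℂ p μ) (hTk : KForm μ φ k T) (c : ℂ) (r : ℝ) (hr : 0 < r)
    (t : ℕ → ℝ) (S : Set Ω) (hSt : S = ⋃ n, {x | t n < τ x})
    (hMS : (Mfd T c r).topologicalClosure ≤ VS μ p S)
    (hSM : ∀ n, VS μ p {x | t n < τ x} ≤ (Mfd T c r).topologicalClosure)
    (c' : ℂ) (hc' : ∀ ε : ℝ, 0 < ε → μ.restrict S {x | ‖φ x - c'‖ < ε} ≠ 0) :
    ‖c - c'‖ ≤ 2 * r := by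
  by_contra hcon
  push Not at hcon
  have hme : ∀ t : ℝ, MeasurableSet {x | t < τ x} := fun t =>
    measurableSet_lt measurable_const hk.time
  have hS : MeasurableSet S := by
    rw [hSt]
    exact MeasurableSet.iUnion fun n => hme _
  have hup : ∀ x y, x ∉ S → y ∈ S → k x y = 0 := by
    intro x y hx hy
    rw [hSt, Set.mem_iUnion] at hx hy
    push Not at hx
    obtain ⟨n, hn⟩ := hy
    have h1 : ¬ (t n < τ x) := hx n
    have h2 : t n < τ y := hn
    exact hk.caus x y ((not_lt.1 h1).trans h2.le)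
  set ν : Measure Ω := μ.restrict S with hν
  have haν : MemLp a p ν := haL.restrict S
  have hbν : MemLp b q ν := hbL.restrict S
  have hMν : ∀ᵐ x ∂ν, ‖φ x‖ ≤ M := ae_restrict_of_ae hM'
  obtain ⟨T', hT'⟩ := exists_op (μ := ν) hk haν hbν hφ M hM0 hMν
  obtain ⟨S', hS'⟩ := exists_op (p := q) (q := p) (μ := ν) hk.swap hbν haν hφ M hM0 hMν
  have hs : c' ∈ spectrum ℂ S' := ess_spec (p := q) (q := p) hp1.le hp2 hk.swap hbν haν hφ
    M hM0 hMν S' hS' c' hc'
  obtain ⟨y, C₂, hy0, hy⟩ := locv (p := q) (q := p) hk.swap hφ hbν haν S' hS' c' hs r hr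
  set R : Lp ℂ p μ →L[ℂ] Lp ℂ p ν := LpToLpRestrictCLM Ω ℂ ℂ μ p S with hR
  have hRf : ∀ f : Lp ℂ p μ, (R f : Ω → ℂ) =ᵐ[ν] f := fun f =>
    LpToLpRestrictCLM_coeFn (𝕜 := ℂ) (μ := μ) (p := p) S f
  have hRT : ∀ f ∈ VS μ p S, R (T f) = T' (R f) := by
    intro f hf
    rw [mem_VS hS] at hf
    apply Lp.ext
    have h4 : ∀ᵐ x ∂ν, (T f) x = φ x * f x + ∫ y, k x y * f y ∂μ := ae_restrict_of_ae (hTk f)
    filter_upwards [hRf (T f), hT' (R f), hRf f, h4] with x h1 h2 h3 h5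
    rw [h1, h2, h3, h5]
    congr 1
    have h6 : ∫ y, k x y * (R f) y ∂ν = ∫ y, k x y * f y ∂ν := by
      apply integral_congr_ae
      filter_upwards [hRf f] with y hy
      rw [hy]
    rw [h6]
    symm
    apply setIntegral_eq_integral_of_ae_compl_eq_zero
    filter_upwards [hf] with y hy hyS
    rw [hy hyS, mul_zero]
  have hpow : ∀ n : ℕ, ∀ f ∈ VS μ p S,
      ((T - c • (1 : Lp ℂ p μ →L[ℂ] Lp ℂ p μ)) ^ n) f ∈ VS μ p S ∧
      R (((T - c • (1 : Lp ℂ p μ →L[ℂ] Lp ℂ p μ)) ^ n) f) =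
        ((T' - c • (1 : Lp ℂ p ν →L[ℂ] Lp ℂ p ν)) ^ n) (R f) := by
    intro n f hf
    induction n with
    | zero => exact ⟨by simpa using hf, by simp⟩
    | succ n ih =>
      obtain ⟨ih1, ih2⟩ := ih
      have e1 : ((T - c • (1 : Lp ℂ p μ →L[ℂ] Lp ℂ p μ)) ^ (n + 1)) f =
          T (((T - c • (1 : Lp ℂ p μ →L[ℂ] Lp ℂ p μ)) ^ n) f) -
            c • ((T - c • (1 : Lp ℂ p μ →L[ℂ] Lp ℂ p μ)) ^ n) f := by
        rw [pow_succ']
        rfl
      have e2 : ((T' - c • (1 : Lp ℂ p ν →L[ℂ] Lp ℂ p ν)) ^ (n + 1)) (R f) =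
          T' (((T' - c • (1 : Lp ℂ p ν →L[ℂ] Lp ℂ p ν)) ^ n) (R f)) -
            c • ((T' - c • (1 : Lp ℂ p ν →L[ℂ] Lp ℂ p ν)) ^ n) (R f) := by
        rw [pow_succ']
        rfl
      rw [e1, e2]
      refine ⟨Submodule.sub_mem _ (VS_inv hS hup T hTk _ ih1) (Submodule.smul_mem _ c ih1), ?_⟩
      rw [map_sub, map_smul, hRT _ ih1, ih2]
  let ι : Lp ℂ q ν →L[ℂ] (Lp ℂ p ν →L[ℂ] ℂ) := (ContinuousLinearMap.mul ℂ ℂ).lpPairing ν q p
  have hι : ∀ (g : Lp ℂ q ν) (f : Lp ℂ p ν), ι g f = ∫ x, g x * f x ∂ν := by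
    intro g f
    exact ContinuousLinearMap.lpPairing_eq_integral _ g f
  have hιS : ∀ g : Lp ℂ q ν, ad T' (ι g) = ι (S' g) := by
    intro g
    ext f
    rw [ad_apply2, hι, hι]
    exact pairing hk haν hbν T' hT' S' hS' g f
  have horth : ∀ f ∈ Mfd T c r, ι y (R f) = 0 := by
    intro f hf
    have hfS : f ∈ VS μ p S := hMS (Submodule.le_topologicalClosure _ hf)
    obtain ⟨C, hC⟩ := hf
    have h0 := orth T' c c' r (‖R‖ * C) (‖ι‖ * C₂)
      (fun n => ((T' - c • (1 : Lp ℂ p ν →L[ℂ] Lp ℂ p ν)) ^ n) (R f))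
      (fun n => ι (((S' - c' • (1 : Lp ℂ q ν →L[ℂ] Lp ℂ q ν)) ^ n) y)) hr.le hcon
      (fun n => by
        rw [pow_succ']
        rfl)
      (fun n => by
        show ‖((T' - c • (1 : Lp ℂ p ν →L[ℂ] Lp ℂ p ν)) ^ n) (R f)‖ ≤ _
        rw [← (hpow n f hfS).2, mul_assoc]
        exact (R.le_opNorm _).trans (mul_le_mul_of_nonneg_left (hC n) (norm_nonneg _)))
      (fun n => by
        rw [pow_succ', hιS]
        show ι (S' (((S' - c' • (1 : Lp ℂ q ν →L[ℂ] Lp ℂ q ν)) ^ n) y)) -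
          c' • ι (((S' - c' • (1 : Lp ℂ q ν →L[ℂ] Lp ℂ q ν)) ^ n) y) =
          ι ((S' - c' • (1 : Lp ℂ q ν →L[ℂ] Lp ℂ q ν))
            (((S' - c' • (1 : Lp ℂ q ν →L[ℂ] Lp ℂ q ν)) ^ n) y))
        rw [← map_smul, ← map_sub]
        rfl)
      (fun n => by
        refine (ι.le_opNorm _).trans ?_
        rw [mul_assoc]
        exact mul_le_mul_of_nonneg_left (hy n) (norm_nonneg _))
    simpa using h0
  have hall : ∀ f ∈ (Mfd T c r).topologicalClosure, ι y (R f) = 0 := by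
    have h1 : (Mfd T c r).topologicalClosure ≤ LinearMap.ker ((ι y).comp R).toLinearMap := by
      apply Submodule.topologicalClosure_minimal
      · intro f hf
        rw [LinearMap.mem_ker]
        exact horth f hf
      · exact ContinuousLinearMap.isClosed_ker ((ι y).comp R)
    intro f hf
    exact h1 hf
  apply hy0
  have hkey : ∀ A : Set Ω, MeasurableSet A → A ⊆ S →
      VS μ p A ≤ (Mfd T c r).topologicalClosure → ∀ᵐ x ∂ν, x ∈ A → y x = 0 := by
    intro A hAm hAS hAM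
    have hyL : MemLp (A.indicator (y : Ω → ℂ)) q ν := (Lp.memLp y).indicator hAm
    have h1 : hyL.toLp _ = 0 := by
      refine pair_inj (p := p) hq2 _ fun g => ?_
      have hgL : MemLp (A.indicator (g : Ω → ℂ)) p μ := by
        rw [memLp_indicator_iff_restrict hAm]
        exact (Lp.memLp g).mono_measure (Measure.restrict_mono hAS le_rfl)
      have hF : hgL.toLp _ ∈ VS μ p A := by
        rw [mem_VS hAm]
        filter_upwards [hgL.coeFn_toLp] with x hx hxA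
        rw [hx, Set.indicator_of_notMem hxA]
      have h2 := hall _ (hAM hF)
      rw [hι] at h2
      rw [← h2]
      have h3 : ∀ᵐ x ∂ν, (hgL.toLp _ : Lp ℂ p μ) x = A.indicator (g : Ω → ℂ) x :=
        ae_restrict_of_ae hgL.coeFn_toLp
      apply integral_congr_ae
      filter_upwards [hyL.coeFn_toLp, hRf (hgL.toLp _), h3] with x h4 h5 h6
      rw [h4, h5, h6]
      by_cases hxA : x ∈ A
      · rw [Set.indicator_of_mem hxA, Set.indicator_of_mem hxA]
      · rw [Set.indicator_of_notMem hxA, Set.indicator_of_notMem hxA, zero_mul, mul_zero]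
    rw [Lp.eq_zero_iff_ae_eq_zero] at h1
    filter_upwards [h1, hyL.coeFn_toLp] with x h2 h3 hx
    rw [h3, Set.indicator_of_mem hx] at h2
    exact h2
  have hzero : ∀ n : ℕ, ∀ᵐ x ∂ν, x ∈ {x | t n < τ x} → y x = 0 := by
    intro n
    refine hkey _ (hme (t n)) ?_ (hSM n)
    rw [hSt]
    exact Set.subset_iUnion (fun n => {x | t n < τ x}) n
  rw [Lp.eq_zero_iff_ae_eq_zero]
  have hmemS : ∀ᵐ x ∂ν, x ∈ S := ae_restrict_mem hS
  filter_upwards [ae_all_iff.2 hzero, hmemS] with x h1 h2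
  rw [hSt, Set.mem_iUnion] at h2
  obtain ⟨n, hn⟩ := h2
  exact h1 n hn

end Pool.Agent.U555.VM
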