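import Pool.Agent.U555.VM.Uni2

/-!
# Unicellular operators of the form multiplication plus causal kernel, third part
-/

set_option autoImplicit false

open MeasureTheory Set Filter Topology Metric
open scoped ENNReal
open Pool.Agent.R277.SP (LocV ad ad_apply2)

namespace Pool.Agent.U555.VM

variable {Ω : Type} [MeasurableSpace Ω] {μ : Measure Ω} {τ : Ω → ℝ} {p q : ℝ≥0∞}

lemma ess_nonempty {ν : Measure Ω} (hν : ν ≠ 0) {φ : Ω → ℂ} (hφ : Measurable φ) :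
    ∃ c : ℂ, ∀ ε : ℝ, 0 < ε → ν {x | ‖φ x - c‖ < ε} ≠ 0 := by
  by_contra hcon
  push Not at hcon
  apply hν
  have h1 : (ν.map φ) Set.univ = 0 := by
    apply measure_null_of_locally_null
    intro c _
    obtain ⟨ε, hε, h2⟩ := hcon c
    refine ⟨ball c ε, mem_nhdsWithin_of_mem_nhds (ball_mem_nhds c hε), ?_⟩
    rw [Measure.map_apply hφ measurableSet_ball]
    convert h2 using 2
    ext x
    simp [dist_eq_norm]
  rw [Measure.map_apply hφ MeasurableSet.univ, Set.preimage_univ] at h1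
  exact Measure.measure_univ_eq_zero.1 h1

theorem uni [SigmaFinite μ] [Fact (1 ≤ p)] (hp1 : 1 < p) (hp2 : p ≠ ∞) (hpq : p⁻¹ + q⁻¹ = 1)
    {φ : Ω → ℂ} (hφ : Measurable φ) (M : ℝ) (hM0 : 0 ≤ M) (hM' : ∀ᵐ x ∂μ, ‖φ x‖ ≤ M)
    {a b : Ω → ℝ} (haL : MemLp a p μ) (hbL : MemLp b q μ)
    {k : Ω → Ω → ℂ} (hk : Ker τ a b k) (hlev : ∀ t : ℝ, μ {x | τ x = t} = 0)
    (T : Lp ℂ p μ →L[ℂ] Lp ℂ p μ) (hTk : KForm μ φ k T)
    (huni : ∀ V W : Submodule ℂ (Lp ℂ p μ), IsClosed (V : Set (Lp ℂ p μ)) →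
      IsClosed (W : Set (Lp ℂ p μ)) → (∀ v ∈ V, T v ∈ V) → (∀ w ∈ W, T w ∈ W) →
      V ≤ W ∨ W ≤ V) :
    ∃ c : ℂ, ∀ᵐ x ∂μ, φ x = c := by
  have hHT : ENNReal.HolderTriple q p 1 := ⟨by rw [add_comm, hpq, inv_one]⟩
  have hHT' : ENNReal.HolderTriple p q 1 := ⟨by rw [hpq, inv_one]⟩
  have hq : q ≠ ∞ := by
    rintro rfl
    rw [ENNReal.inv_top, add_zero, ENNReal.inv_eq_one] at hpq
    exact hp1.ne' hpq
  have hq1 : 1 ≤ q := by
    have h1 : q⁻¹ ≤ 1 := by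
      rw [← hpq]
      exact le_add_self
    rwa [ENNReal.inv_le_one] at h1
  have : Fact (1 ≤ q) := ⟨hq1⟩
  by_contra hconst
  obtain ⟨c₁, c₂, hne, h1, h2⟩ := two_values φ hφ hconst
  have hdist : 0 < ‖c₁ - c₂‖ := norm_pos_iff.2 (sub_ne_zero.2 hne)
  set r : ℝ := ‖c₁ - c₂‖ / 5 with hr
  have hr0 : 0 < r := by positivity
  have hme : ∀ t : ℝ, MeasurableSet {x | t < τ x} := fun t =>
    measurableSet_lt measurable_const hk.time
  -- the two invariant subspaces and their levels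
  have hstep : ∀ c : ℂ, (∀ ε : ℝ, 0 < ε → μ {x | ‖φ x - c‖ < ε} ≠ 0) →
      ∃ t : ℕ → ℝ, (Mfd T c r).topologicalClosure ≤ VS μ p (⋃ n, {x | t n < τ x}) ∧
        (∀ n, VS μ p {x | t n < τ x} ≤ (Mfd T c r).topologicalClosure) ∧
        μ.restrict (⋃ n, {x | t n < τ x}) ≠ 0 := by
    intro c hc
    have hs : c ∈ spectrum ℂ T := ess_spec hq1 hq hk haL hbL hφ M hM0 hM' T hTk c hc
    obtain ⟨x, C, hx0, hx⟩ := locv hk hφ haL hbL T hTk c hs r hr0
    have hxM : x ∈ (Mfd T c r).topologicalClosure :=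
      Submodule.le_topologicalClosure _ ⟨C, hx⟩
    have hV0 : (Mfd T c r).topologicalClosure ≠ ⊥ := by
      intro h
      rw [h, Submodule.mem_bot] at hxM
      exact hx0 hxM
    obtain ⟨t, ht1, ht2⟩ := level hk.time hlev (Mfd T c r).topologicalClosure hV0 (fun t =>
      huni _ _ (VS_closed _) (Submodule.isClosed_topologicalClosure _)
        (fun v hv => VS_inv (hme t) (fun x y hx hy => hk.caus x y
          ((not_lt.1 (show ¬ (t < τ x) from hx)).trans (show t < τ y from hy).le)) T hTk v hv)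
        (fun v hv => clos_inv T c r v hv))
    refine ⟨t, ht1, ht2, fun h0 => hx0 ?_⟩
    have hSm : MeasurableSet (⋃ n, {x | t n < τ x}) := MeasurableSet.iUnion fun n => hme _
    have h3 := ht1 hxM
    rw [mem_VS hSm] at h3
    rw [Measure.restrict_eq_zero] at h0
    rw [Lp.eq_zero_iff_ae_eq_zero]
    filter_upwards [h3, measure_eq_zero_iff_ae_notMem.1 h0] with x h4 h5
    exact h4 h5
  obtain ⟨t, ht1, ht2, ht3⟩ := hstep c₁ h1
  obtain ⟨s, hs1, hs2, hs3⟩ := hstep c₂ h2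
  have hfin : ∀ c' : ℂ,
      (∀ ε : ℝ, 0 < ε → μ.restrict (⋃ n, {x | t n < τ x}) {x | ‖φ x - c'‖ < ε} ≠ 0) →
      (∀ ε : ℝ, 0 < ε → μ.restrict (⋃ n, {x | s n < τ x}) {x | ‖φ x - c'‖ < ε} ≠ 0) → False := by
    intro c' hc1 hc2
    have e1 := near hp1 hp2 hq hφ M hM0 hM' haL hbL hk T hTk c₁ r hr0 t _ rfl ht1 ht2 c' hc1
    have e2 := near hp1 hp2 hq hφ M hM0 hM' haL hbL hk T hTk c₂ r hr0 s _ rfl hs1 hs2 c' hc2
    have e3 : ‖c₁ - c₂‖ ≤ ‖c₁ - c'‖ + ‖c₂ - c'‖ := by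
      calc ‖c₁ - c₂‖ = ‖(c₁ - c') - (c₂ - c')‖ := by congr 1; ring
        _ ≤ _ := norm_sub_le _ _
    have e4 : r = ‖c₁ - c₂‖ / 5 := hr
    linarith
  have hnest : (⋃ n, {x | t n < τ x}) ⊆ (⋃ n, {x | s n < τ x}) ∨
      (⋃ n, {x | s n < τ x}) ⊆ (⋃ n, {x | t n < τ x}) := by
    by_cases h : (⋃ n, {x | t n < τ x}) ⊆ (⋃ n, {x | s n < τ x})
    · exact Or.inl h
    · right
      rw [Set.not_subset] at h
      obtain ⟨x, hx1, hx2⟩ := h
      intro y hy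
      rw [Set.mem_iUnion] at hx1 hx2 hy ⊢
      push Not at hx2
      obtain ⟨n, hn⟩ := hx1
      obtain ⟨m, hm⟩ := hy
      refine ⟨n, ?_⟩
      have g1 : t n < τ x := hn
      have g2 : ¬ (s m < τ x) := hx2 m
      have g3 : s m < τ y := hm
      show t n < τ y
      linarith [not_lt.1 g2]
  rcases hnest with h | h
  · obtain ⟨c', hc'⟩ := ess_nonempty ht3 hφ
    refine hfin c' hc' fun ε hε h0 => hc' ε hε ?_
    exact le_antisymm ((Measure.restrict_mono h le_rfl _).trans h0.le) bot_le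
  · obtain ⟨c', hc'⟩ := ess_nonempty hs3 hφ
    refine hfin c' (fun ε hε h0 => hc' ε hε ?_) hc'
    exact le_antisymm ((Measure.restrict_mono h le_rfl _).trans h0.le) bot_le

end Pool.Agent.U555.VM
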