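import Pool.Agent.U555.VM.Pot

/-!
# Averages of the local resolvent, point by point
-/

set_option autoImplicit false

open MeasureTheory Set Filter Topology Metric
open scoped ENNReal

namespace Pool.Agent.U555.VM

variable {Ω : Type} [MeasurableSpace Ω] {μ : Measure Ω} {τ : Ω → ℝ} {p q : ℝ≥0∞}

/-- admissible multipliers -/
structure Adm (W : ℂ → ℝ) (c : ℂ) (ρ C : ℝ) (h : ℂ → ℂ) : Prop where
  meas : Measurable h
  bd : ∀ z, ‖h z‖ * W z ≤ C
  supp : ∀ z, z ∉ closedBall c ρ → h z = 0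

theorem Adm.mulz {W : ℂ → ℝ} {c : ℂ} {ρ C : ℝ} {h : ℂ → ℂ} (H : Adm W c ρ C h) (hρ : 0 ≤ ρ)
    (hW : ∀ z, 0 ≤ W z) : Adm W c ρ (ρ * C) (fun z => (z - c) * h z) := by
  refine ⟨(measurable_id.sub_const c).mul H.meas, fun z => ?_, fun z hz => ?_⟩
  · by_cases hz : z ∈ closedBall c ρ
    · rw [mem_closedBall, dist_eq_norm] at hz
      rw [norm_mul, mul_assoc]
      have h1 := H.bd z
      have h2 : 0 ≤ ‖h z‖ * W z := mul_nonneg (norm_nonneg _) (hW z)
      exact mul_le_mul hz h1 h2 hρ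
    · rw [H.supp z hz, mul_zero, norm_zero, zero_mul]
      have h1 := H.bd z
      rw [H.supp z hz, norm_zero, zero_mul] at h1
      exact mul_nonneg hρ h1
  · show (z - c) * h z = 0
    rw [H.supp z hz, mul_zero]

/-- the majorant -/
noncomputable def GG (a : Ω → ℝ) (u : Ω → ℂ) : ℕ → Ω → ℝ
  | 0 => fun x => ‖u x‖
  | n + 1 => fun x => (1 / 2 : ℝ) ^ n * a x

/-- the averages -/
noncomputable def XX (μ : Measure Ω) (φ : Ω → ℂ) (k : Ω → Ω → ℂ) (u : Ω → ℂ) (n : ℕ) (h : ℂ → ℂ)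
    (x : Ω) : ℂ := ∫ z, h z * FF μ φ k u n z x

/-- the kernel applied to the averages -/
noncomputable def DD (μ : Measure Ω) (φ : Ω → ℂ) (k : Ω → Ω → ℂ) (u : Ω → ℂ) (n : ℕ) (h : ℂ → ℂ)
    (x : Ω) : ℂ := ∫ y, k x y * XX μ φ k u n h y ∂μ

/-- the constant of the potential -/
noncomputable def PP (ρ : ℝ) : ℝ := 3 * Real.pi * (ρ + 1)

theorem PP_pos {ρ : ℝ} (hρ : 0 ≤ ρ) : 0 < PP ρ := by
  unfold PP
  have := Real.pi_pos
  positivity

variable {a b : Ω → ℝ} {k : Ω → Ω → ℂ} {φ u : Ω → ℂ} {c : ℂ} {ρ C : ℝ} {h : ℂ → ℂ}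

theorem GG_nonneg (ha0 : ∀ x, 0 ≤ a x) (n : ℕ) (x : Ω) : 0 ≤ GG a u n x := by
  cases n with
  | zero => exact norm_nonneg _
  | succ n => exact mul_nonneg (by positivity) (ha0 x)

theorem GG_meas (ha : Measurable a) (hu : Measurable u) (n : ℕ) : Measurable (GG a u n) := by
  cases n with
  | zero => exact hu.norm
  | succ n => exact ha.const_mul _

theorem C_nonneg (H : Adm (WW μ φ a b u) c ρ C h) : 0 ≤ C :=
  (mul_nonneg (norm_nonneg _) (zero_le_one.trans (one_le_WW (0:ℂ)))).trans (H.bd 0)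

/-- the bound of the terms under the integral -/
theorem term_le (hk : Ker τ a b k) (hφ : Measurable φ) (H : Adm (WW μ φ a b u) c ρ C h) (n : ℕ)
    (x : Ω) {z : ℂ} (hz : KK μ φ a b z ≠ ∞ ∧ BB μ φ b u z ≠ ∞) :
    ‖h z‖ₑ * ‖FF μ φ k u n z x‖ₑ ≤ (closedBall c ρ).indicator
      (fun z => ENNReal.ofReal (C * GG a u n x) * ‖(z - φ x)⁻¹‖ₑ) z := by
  by_cases hzb : z ∈ closedBall c ρ
  · rw [indicator_of_mem hzb]
    cases n with
    | zero =>
      change ‖h z‖ₑ * ‖(z - φ x)⁻¹ * u x‖ₑ ≤ ENNReal.ofReal (C * ‖u x‖) * ‖(z - φ x)⁻¹‖ₑ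
      rw [enorm_mul, mul_comm ‖(z - φ x)⁻¹‖ₑ, ← mul_assoc]
      gcongr
      rw [← ofReal_norm, ← ofReal_norm, ← ENNReal.ofReal_mul (norm_nonneg _)]
      apply ENNReal.ofReal_le_ofReal
      have h1 := H.bd z
      have h2 := one_le_WW (μ := μ) (φ := φ) (a := a) (b := b) (u := u) z
      have h3 : ‖h z‖ ≤ C := by
        refine le_trans ?_ h1
        exact le_mul_of_one_le_right (norm_nonneg _) h2
      exact mul_le_mul_of_nonneg_right h3 (norm_nonneg _)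
    | succ n =>
      change ‖h z‖ₑ * ‖FF μ φ k u (n + 1) z x‖ₑ ≤
        ENNReal.ofReal (C * ((1 / 2 : ℝ) ^ n * a x)) * ‖(z - φ x)⁻¹‖ₑ
      refine (mul_le_mul_right (FF_le' hk hφ hz.1 hz.2 n x) _).trans ?_
      rw [mul_comm ‖(z - φ x)⁻¹‖ₑ, ← mul_assoc]
      gcongr
      rw [← ofReal_norm, ← ENNReal.ofReal_mul (norm_nonneg _)]
      apply ENNReal.ofReal_le_ofReal
      have h1 := H.bd z
      have h2 : 0 ≤ (1 / 2 : ℝ) ^ n * a x := mul_nonneg (by positivity) (hk.a0 x)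
      calc ‖h z‖ * (a x * (1 / 2 : ℝ) ^ n * WW μ φ a b u z)
          = (‖h z‖ * WW μ φ a b u z) * ((1 / 2 : ℝ) ^ n * a x) := by ring
        _ ≤ C * ((1 / 2 : ℝ) ^ n * a x) := mul_le_mul_of_nonneg_right h1 h2
  · rw [indicator_of_notMem hzb, H.supp z hzb, enorm_zero, zero_mul]

theorem lint_le (hk : Ker τ a b k) (hφ : Measurable φ)
    (hg : ∀ᵐ z : ℂ, KK μ φ a b z ≠ ∞ ∧ BB μ φ b u z ≠ ∞) (hρ : 0 ≤ ρ)
    (H : Adm (WW μ φ a b u) c ρ C h) (n : ℕ) (x : Ω) :
    ∫⁻ z, ‖h z‖ₑ * ‖FF μ φ k u n z x‖ₑ ≤ ENNReal.ofReal (C * PP ρ * GG a u n x) := by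
  have hC := C_nonneg H
  calc ∫⁻ z, ‖h z‖ₑ * ‖FF μ φ k u n z x‖ₑ
      ≤ ∫⁻ z, (closedBall c ρ).indicator
        (fun z => ENNReal.ofReal (C * GG a u n x) * ‖(z - φ x)⁻¹‖ₑ) z := by
        refine lintegral_mono_ae ?_
        filter_upwards [hg] with z hz
        exact term_le hk hφ H n x hz
    _ = ∫⁻ z in closedBall c ρ, ENNReal.ofReal (C * GG a u n x) * ‖(z - φ x)⁻¹‖ₑ := by
        rw [lintegral_indicator isClosed_closedBall.measurableSet]
    _ = ENNReal.ofReal (C * GG a u n x) * ∫⁻ z in closedBall c ρ, ‖(z - φ x)⁻¹‖ₑ := by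
        rw [lintegral_const_mul' _ _ ENNReal.ofReal_ne_top]
    _ ≤ ENNReal.ofReal (C * GG a u n x) * ENNReal.ofReal (3 * Real.pi * (ρ + 1)) := by
        gcongr
        exact (lintegral_mono_set (closedBall_subset_ball (by linarith : ρ < ρ + 1))).trans
          (inv_int (φ x) c (ρ + 1) (by linarith))
    _ = ENNReal.ofReal (C * PP ρ * GG a u n x) := by
        rw [← ENNReal.ofReal_mul (mul_nonneg hC (GG_nonneg hk.a0 n x))]
        congr 1
        unfold PP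
        ring

theorem XX_le (hk : Ker τ a b k) (hφ : Measurable φ)
    (hg : ∀ᵐ z : ℂ, KK μ φ a b z ≠ ∞ ∧ BB μ φ b u z ≠ ∞) (hρ : 0 ≤ ρ)
    (H : Adm (WW μ φ a b u) c ρ C h) (n : ℕ) (x : Ω) :
    ‖XX μ φ k u n h x‖ ≤ C * PP ρ * GG a u n x := by
  have h0 : 0 ≤ C * PP ρ * GG a u n x :=
    mul_nonneg (mul_nonneg (C_nonneg H) (PP_pos hρ).le) (GG_nonneg hk.a0 n x)
  have h1 : ‖XX μ φ k u n h x‖ₑ ≤ ENNReal.ofReal (C * PP ρ * GG a u n x) := by
    refine (enorm_integral_le_lintegral_enorm _).trans ?_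
    simp only [enorm_mul]
    exact lint_le hk hφ hg hρ H n x
  rw [← ofReal_norm] at h1
  exact (ENNReal.ofReal_le_ofReal_iff h0).1 h1

theorem XX_meas [SFinite μ] (hk : Ker τ a b k) (hφ : Measurable φ) (hu : Measurable u)
    (hh : Measurable h) (n : ℕ) : Measurable (XX μ φ k u n h) := by
  have h1 : Measurable fun w : Ω × ℂ => h w.2 * FF μ φ k u n w.2 w.1 :=
    (hh.comp measurable_snd).mul ((FF_meas (μ := μ) hk hφ hu n).comp
      (measurable_snd.prodMk measurable_fst))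
  exact (h1.stronglyMeasurable.integral_prod_right' (ν := (volume : Measure ℂ))).measurable

theorem FF_measz [SFinite μ] (hk : Ker τ a b k) (hφ : Measurable φ) (hu : Measurable u) (n : ℕ)
    (x : Ω) : Measurable fun z => FF μ φ k u n z x :=
  (FF_meas (μ := μ) hk hφ hu n).comp (measurable_id.prodMk measurable_const)

theorem int_z [SFinite μ] (hk : Ker τ a b k) (hφ : Measurable φ) (hu : Measurable u)
    (hg : ∀ᵐ z : ℂ, KK μ φ a b z ≠ ∞ ∧ BB μ φ b u z ≠ ∞) (hρ : 0 ≤ ρ)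
    (H : Adm (WW μ φ a b u) c ρ C h) (n : ℕ) (x : Ω) :
    Integrable fun z => h z * FF μ φ k u n z x := by
  refine ⟨(H.meas.mul (FF_measz hk hφ hu n x)).aestronglyMeasurable, ?_⟩
  rw [hasFiniteIntegral_iff_enorm]
  simp only [enorm_mul]
  exact lt_of_le_of_lt (lint_le hk hφ hg hρ H n x) ENNReal.ofReal_lt_top

/-- **Fubini** -/
theorem fubini [SFinite μ] (hk : Ker τ a b k) (hφ : Measurable φ) (hu : Measurable u)
    (hg : ∀ᵐ z : ℂ, KK μ φ a b z ≠ ∞ ∧ BB μ φ b u z ≠ ∞) (hρ : 0 ≤ ρ)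
    (H : Adm (WW μ φ a b u) c ρ C h) (n : ℕ)
    (hG : ∫⁻ y, ENNReal.ofReal (b y) * ENNReal.ofReal (GG a u n y) ∂μ ≠ ∞) (x : Ω) :
    Integrable (fun z => h z * ∫ y, k x y * FF μ φ k u n z y ∂μ) ∧
    ∫ z, h z * (∫ y, k x y * FF μ φ k u n z y ∂μ) = DD μ φ k u n h x := by
  have hm : Measurable fun w : ℂ × Ω => h w.1 * (k x w.2 * FF μ φ k u n w.1 w.2) := by
    have h1 : Measurable fun w : ℂ × Ω => k x w.2 :=
      hk.meas.comp (measurable_const.prodMk measurable_snd)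
    exact (H.meas.comp measurable_fst).mul (h1.mul (FF_meas (μ := μ) hk hφ hu n))
  have hint : Integrable (fun w : ℂ × Ω => h w.1 * (k x w.2 * FF μ φ k u n w.1 w.2))
      ((volume : Measure ℂ).prod μ) := by
    refine ⟨hm.aestronglyMeasurable, ?_⟩
    rw [hasFiniteIntegral_iff_enorm, lintegral_prod_symm _ hm.enorm.aemeasurable]
    have h1 : ∀ y : Ω, ∫⁻ z, ‖h z * (k x y * FF μ φ k u n z y)‖ₑ ≤
        ENNReal.ofReal (a x * (C * PP ρ)) *
          (ENNReal.ofReal (b y) * ENNReal.ofReal (GG a u n y)) := by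
      intro y
      calc ∫⁻ z, ‖h z * (k x y * FF μ φ k u n z y)‖ₑ
          = ∫⁻ z, ‖k x y‖ₑ * (‖h z‖ₑ * ‖FF μ φ k u n z y‖ₑ) := by
            refine lintegral_congr fun z => ?_
            rw [enorm_mul, enorm_mul]
            ring
        _ = ‖k x y‖ₑ * ∫⁻ z, ‖h z‖ₑ * ‖FF μ φ k u n z y‖ₑ := by
            rw [lintegral_const_mul' _ _ enorm_ne_top]
        _ ≤ ENNReal.ofReal (a x * b y) * ENNReal.ofReal (C * PP ρ * GG a u n y) := by
            gcongr
            · rw [← ofReal_norm]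
              exact ENNReal.ofReal_le_ofReal (hk.bd x y)
            · exact lint_le hk hφ hg hρ H n y
        _ = ENNReal.ofReal (a x * (C * PP ρ)) *
          (ENNReal.ofReal (b y) * ENNReal.ofReal (GG a u n y)) := by
            have hCP : 0 ≤ C * PP ρ := mul_nonneg (C_nonneg H) (PP_pos hρ).le
            have h2 := hk.a0 x
            have h3 := hk.b0 y
            rw [← ENNReal.ofReal_mul (by positivity), ← ENNReal.ofReal_mul (by positivity),
              ← ENNReal.ofReal_mul (by positivity)]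
            congr 1
            ring
    refine lt_of_le_of_lt (lintegral_mono h1) ?_
    rw [lintegral_const_mul' _ _ ENNReal.ofReal_ne_top]
    exact ENNReal.mul_lt_top ENNReal.ofReal_lt_top (lt_top_iff_ne_top.2 hG)
  have h4 : ∀ z, ∫ y, h z * (k x y * FF μ φ k u n z y) ∂μ =
      h z * ∫ y, k x y * FF μ φ k u n z y ∂μ := fun z => integral_const_mul _ _
  refine ⟨?_, ?_⟩
  · have h5 := hint.integral_prod_left
    simp only [h4] at h5
    exact h5
  · have h5 := integral_integral_swap (f := fun z y => h z * (k x y * FF μ φ k u n z y)) hint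
    simp only [h4] at h5
    rw [h5]
    refine integral_congr_ae (Eventually.of_forall fun y => ?_)
    show ∫ z, h z * (k x y * FF μ φ k u n z y) = k x y * XX μ φ k u n h y
    unfold XX
    rw [← integral_const_mul]
    refine integral_congr_ae (Eventually.of_forall fun z => ?_)
    show h z * (k x y * FF μ φ k u n z y) = k x y * (h z * FF μ φ k u n z y)
    ring

theorem ae_ne (w : ℂ) : ∀ᵐ z : ℂ, z ≠ w := by
  have : (volume : Measure ℂ) {w} = 0 := measure_singleton w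
  rw [ae_iff]
  simpa using this

/-- the first recurrence -/
theorem rec_zero [SFinite μ] (hk : Ker τ a b k) (hφ : Measurable φ) (hu : Measurable u)
    (hg : ∀ᵐ z : ℂ, KK μ φ a b z ≠ ∞ ∧ BB μ φ b u z ≠ ∞) (hρ : 0 ≤ ρ)
    (H : Adm (WW μ φ a b u) c ρ C h) (hhi : Integrable h) (x : Ω) :
    (φ x - c) * XX μ φ k u 0 h x =
      XX μ φ k u 0 (fun z => (z - c) * h z) x - (∫ z, h z) * u x := by
  have hz := int_z hk hφ hu hg hρ (H.mulz hρ fun z => zero_le_one.trans (one_le_WW z)) 0 x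
  unfold XX
  rw [← integral_const_mul, ← integral_mul_const, ← integral_sub hz (hhi.mul_const _)]
  refine integral_congr_ae ?_
  filter_upwards [ae_ne (φ x)] with z hzne
  have h1 : z - φ x ≠ 0 := sub_ne_zero.2 hzne
  change (φ x - c) * (h z * ((z - φ x)⁻¹ * u x)) =
    (z - c) * h z * ((z - φ x)⁻¹ * u x) - h z * u x
  have h2 : (φ x - c) = (z - c) - (z - φ x) := by ring
  rw [h2]
  field_simp

/-- the other recurrences -/
theorem rec_succ [SFinite μ] (hk : Ker τ a b k) (hφ : Measurable φ) (hu : Measurable u)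
    (hg : ∀ᵐ z : ℂ, KK μ φ a b z ≠ ∞ ∧ BB μ φ b u z ≠ ∞) (hρ : 0 ≤ ρ)
    (H : Adm (WW μ φ a b u) c ρ C h) (n : ℕ)
    (hG : ∫⁻ y, ENNReal.ofReal (b y) * ENNReal.ofReal (GG a u n y) ∂μ ≠ ∞) (x : Ω) :
    (φ x - c) * XX μ φ k u (n + 1) h x =
      XX μ φ k u (n + 1) (fun z => (z - c) * h z) x - DD μ φ k u n h x := by
  have hz := int_z hk hφ hu hg hρ (H.mulz hρ fun z => zero_le_one.trans (one_le_WW z)) (n + 1) x
  obtain ⟨h1, h2⟩ := fubini hk hφ hu hg hρ H n hG x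
  rw [← h2]
  unfold XX
  rw [← integral_const_mul, ← integral_sub hz h1]
  refine integral_congr_ae ?_
  filter_upwards [ae_ne (φ x)] with z hzne
  have h3 : z - φ x ≠ 0 := sub_ne_zero.2 hzne
  change (φ x - c) * (h z * ((z - φ x)⁻¹ * ∫ y, k x y * FF μ φ k u n z y ∂μ)) =
    (z - c) * h z * ((z - φ x)⁻¹ * ∫ y, k x y * FF μ φ k u n z y ∂μ) -
      h z * ∫ y, k x y * FF μ φ k u n z y ∂μ
  have h4 : (φ x - c) = (z - c) - (z - φ x) := by ring
  rw [h4]
  field_simp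


end Pool.Agent.U555.VM
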